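import Pool.Agent.P.MP_169bcc_al.BR.Base

/-!
Package Chief.
-/

open scoped commutatorElement TensorProduct
open LieAlgebra LieSubalgebra Module

noncomputable section

namespace Pool.Agent.P.MP_169bcc_al.BR

namespace ChiefP

/-- A second fixed point. -/
theorem fix {p : ℕ} [Fact p.Prime] {H α : Type} [Group H] [Finite α] (φ : H →* Equiv.Perm α)
    (h : ∀ x : H, ∃ n : ℕ, φ (x ^ p ^ n) = 1) (hd : p ∣ Nat.card α) {a : α}
    (ha : ∀ x, φ x a = a) : ∃ b, b ≠ a ∧ ∀ x, φ x b = b := by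
  have hP : IsPGroup p φ.range := by
    rintro ⟨_, x, rfl⟩
    obtain ⟨n, hn⟩ := h x
    exact ⟨n, Subtype.ext (by rw [map_pow] at hn; exact hn)⟩
  have ha' : a ∈ MulAction.fixedPoints φ.range α := by
    rintro ⟨_, x, rfl⟩
    exact ha x
  obtain ⟨b, hb, hab⟩ := hP.exists_fixed_point_of_prime_dvd_card_of_fixed_point α hd ha'
  exact ⟨b, hab.symm, fun x => hb ⟨φ x, x, rfl⟩⟩

/-- A finitely generated module killed by `p` is finite. -/
theorem fin_of {p : ℕ} [Fact p.Prime] {Q : Type} [AddCommGroup Q] [Module ℤ_[p] Q]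
    [Module.Finite ℤ_[p] Q] (h : ∀ x : Q, p • x = 0) : Finite Q := by
  have hT : Module.IsTorsionBySet ℤ_[p] Q (IsLocalRing.maximalIdeal ℤ_[p]) := by
    rintro x ⟨a, ha⟩
    rw [PadicInt.maximalIdeal_eq_span_p, SetLike.mem_coe, Ideal.mem_span_singleton'] at ha
    obtain ⟨c, rfl⟩ := ha
    show (c * (p : ℤ_[p])) • x = 0
    rw [mul_smul, Nat.cast_smul_eq_nsmul, h, smul_zero]
  letI := hT.module
  have := hT.isScalarTower (S := ℤ_[p])
  have : Finite (ℤ_[p] ⧸ IsLocalRing.maximalIdeal ℤ_[p]) :=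
    Finite.of_equiv _ (PadicInt.residueField (p := p)).toEquiv.symm
  have : Module.Finite (ℤ_[p] ⧸ IsLocalRing.maximalIdeal ℤ_[p]) Q :=
    Module.Finite.of_restrictScalars_finite ℤ_[p] _ _
  exact Module.finite_of_finite (ℤ_[p] ⧸ IsLocalRing.maximalIdeal ℤ_[p])

/-- The covering lemma. -/
theorem cover {R V : Type} [Ring R] [AddCommGroup V] [Module R V] {E : Set R} {k : ℕ}
    {ε : Fin k → R} (hε : ∀ i, ε i ∈ E) (hδ : ∀ i j, i ≠ j → ∃ δ ∈ E, δ * (ε i - ε j) = 1)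
    (A : AddSubgroup V) (hA : ∀ e ∈ E, ∀ v ∈ A, e • v ∈ A) (F : ℕ → AddSubgroup V)
    (hF : ∀ i, ∀ e ∈ E, ∀ v ∈ F i, e • v ∈ F i) (s : Finset ℕ) :
    s.card ≤ k → (∀ v ∈ A, ∃ i ∈ s, v ∈ F i) → ∃ i ∈ s, A ≤ F i := by
  induction s using Finset.strongInduction with
  | H s ih =>
    intro hs hc
    obtain ⟨i₀, hi₀, -⟩ := hc 0 A.zero_mem
    have hlt : (s.erase i₀).card < k := (Finset.card_erase_lt_of_mem hi₀).trans_le hs
    by_cases h1 : ∀ v ∈ A, ∃ i ∈ s.erase i₀, v ∈ F i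
    · obtain ⟨i, hi, h⟩ := ih _ (Finset.erase_ssubset hi₀) hlt.le h1
      exact ⟨i, Finset.mem_of_mem_erase hi, h⟩
    push Not at h1
    obtain ⟨x, hx, hx'⟩ := h1
    have hx₀ : x ∈ F i₀ := by
      obtain ⟨i, hi, h⟩ := hc x hx
      by_cases e : i = i₀
      · exact e ▸ h
      · exact absurd h (hx' i (Finset.mem_erase.2 ⟨e, hi⟩))
    refine ⟨i₀, hi₀, fun y hy => ?_⟩
    by_contra hy'
    choose f hf hf' using fun j : Fin k => hc (y + ε j • x) (A.add_mem hy (hA _ (hε j) x hx))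
    have hm : ∀ j ∈ (Finset.univ : Finset (Fin k)), f j ∈ s.erase i₀ := fun j _ => by
      refine Finset.mem_erase.2 ⟨fun e => hy' ?_, hf j⟩
      have := (F i₀).sub_mem (e ▸ hf' j) (hF i₀ _ (hε j) x hx₀)
      rwa [add_sub_cancel_right] at this
    obtain ⟨i, -, j, -, hij, e⟩ := Finset.exists_ne_map_eq_of_card_lt_of_maps_to
      (by simpa using hlt) hm
    obtain ⟨δ, hδE, hδ1⟩ := hδ i j hij
    have h2 := hF _ δ hδE _ ((F (f i)).sub_mem (hf' i) (e ▸ hf' j))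
    rw [add_sub_add_left_eq_sub, ← sub_smul, ← mul_smul, hδ1, one_smul] at h2
    exact hx' _ (hm i (Finset.mem_univ _)) h2

variable {p : ℕ} [Fact p.Prime] {V : Type} [AddCommGroup V] [Module ℚ_[p] V] [Module ℤ_[p] V]
  [IsScalarTower ℤ_[p] ℚ_[p] V] {G : Type} [Group G] {H : Subgroup G}
  {ρ : G →* Module.End ℚ_[p] V} {Λ : Submodule ℤ_[p] V}

/-- A vector that is fixed modulo `N`. -/
theorem fixv (hA : Act p H ρ Λ) {N : Submodule ℤ_[p] V} (hN : ∀ a, ∀ v ∈ N, ρ a v ∈ N)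
    (hp : ∀ v ∈ Λ, p • v ∈ N) (hn : ¬ Λ ≤ N) :
    ∃ v ∈ Λ, v ∉ N ∧ ∀ h ∈ H, ρ h v - v ∈ N := by
  let Q := Λ.map N.mkQ
  have : Module.Finite ℤ_[p] Q := Module.Finite.iff_fg.2 (hA.lat.fg.map _)
  have hQ : ∀ x : Q, p • x = 0 := by
    rintro ⟨_, v, hv, rfl⟩
    apply Subtype.ext
    show p • N.mkQ v = 0
    rw [← map_nsmul]
    exact (Submodule.Quotient.mk_eq_zero N).2 (hp v hv)
  have : Finite Q := fin_of hQ
  let T : G → (V ⧸ N) →ₗ[ℤ_[p]] (V ⧸ N) := fun a =>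
    N.mapQ N ((ρ a).restrictScalars ℤ_[p]) (hN a)
  have hT : ∀ a v, T a (N.mkQ v) = N.mkQ (ρ a v) := fun _ _ => rfl
  have hTQ : ∀ a, ∀ x ∈ Q, T a x ∈ Q := by
    rintro a _ ⟨v, hv, rfl⟩
    exact ⟨ρ a v, hA.stab a v hv, rfl⟩
  let act : MulAction H Q :=
    { smul := fun a x => ⟨T a x, hTQ a x x.2⟩
      one_smul := by
        rintro ⟨_, v, hv, rfl⟩
        apply Subtype.ext
        show N.mkQ (ρ 1 v) = N.mkQ v
        rw [rep_one]
      mul_smul := by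
        rintro a b ⟨_, v, hv, rfl⟩
        apply Subtype.ext
        show N.mkQ (ρ (a * b) v) = N.mkQ (ρ a (ρ b v))
        rw [rep_mul] }
  obtain ⟨v₀, hv₀, hv₀'⟩ := SetLike.not_le_iff_exists.1 hn
  have hd : p ∣ Nat.card Q := by
    have h0 : (⟨N.mkQ v₀, v₀, hv₀, rfl⟩ : Q) ≠ 0 := fun e =>
      hv₀' ((Submodule.Quotient.mk_eq_zero N).1 (congrArg Subtype.val e))
    have h1 := addOrderOf_dvd_natCard (⟨N.mkQ v₀, v₀, hv₀, rfl⟩ : Q)
    rwa [addOrderOf_eq_prime (hQ _) h0] at h1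
  obtain ⟨⟨_, v, hv, rfl⟩, hb, hb'⟩ := fix (p := p) (MulAction.toPermHom H Q) (fun x => by
    obtain ⟨n, hn⟩ := hA.uni x x.2 1
    refine ⟨n, Equiv.ext ?_⟩
    rintro ⟨_, v, hv, rfl⟩
    apply Subtype.ext
    obtain ⟨w, hw, e⟩ := hn v hv
    show N.mkQ (ρ ((x : G) ^ p ^ n) v) = N.mkQ v
    rw [e, pow_one, map_add, (show N.mkQ (p • w) = 0 from
      (Submodule.Quotient.mk_eq_zero N).2 (hp w hw)), add_zero]) hd (a := 0)
    fun x => Subtype.ext (map_zero (T x))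
  refine ⟨v, hv, fun e => hb (Subtype.ext ((Submodule.Quotient.mk_eq_zero N).2 e)), fun h hh => ?_⟩
  exact (Submodule.Quotient.eq N).1 (congrArg Subtype.val (hb' ⟨h, hh⟩))

theorem sup_stab {S : Set (Submodule ℤ_[p] V)} {f : Module.End ℚ_[p] V}
    (h : ∀ N ∈ S, ∀ v ∈ N, f v ∈ N) : ∀ v ∈ sSup S, f v ∈ sSup S :=
  show sSup S ≤ (sSup S).comap (f.restrictScalars ℤ_[p]) from
    sSup_le fun N hN v hv => le_sSup hN (h N hN v hv)

end ChiefP

open ChiefP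

theorem chief_ok : S_Chief := by
  intro p _ V _ _ _ _ G _ H σ ρ Λ W E k ε hA hE hW hc hε hδ hcov
  let X : Submodule ℤ_[p] V :=
    { carrier := {v | ∃ w ∈ W, w ∈ Λ ∧ ∃ l ∈ Λ, v = w + p • l}
      zero_mem' := ⟨0, W.zero_mem, Λ.zero_mem, 0, Λ.zero_mem, by simp⟩
      add_mem' := by
        rintro _ _ ⟨w, hw, hw', l, hl, rfl⟩ ⟨w₂, hw₂, hw₂', l₂, hl₂, rfl⟩
        exact ⟨w + w₂, W.add_mem hw hw₂, Λ.add_mem hw' hw₂', l + l₂, Λ.add_mem hl hl₂, by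
          rw [smul_add]; abel⟩
      smul_mem' := by
        rintro c _ ⟨w, hw, hw', l, hl, rfl⟩
        exact ⟨c • w, W.smul_of_tower_mem c hw, Λ.smul_mem c hw', c • l, Λ.smul_mem c hl, by
          rw [smul_add, smul_comm c p l]⟩ }
  have hX : ∀ v ∈ X, v ∈ Λ := by
    rintro _ ⟨w, -, hw', l, hl, rfl⟩
    exact Λ.add_mem hw' (nsmul_mem hl p)
  let S : Set (Submodule ℤ_[p] V) :=
    {N | (∀ a, ∀ v ∈ N, ρ a v ∈ N) ∧ (∀ e ∈ E, ∀ v ∈ N, e v ∈ N) ∧ N ≤ X}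
  let N := sSup S
  have hNρ : ∀ a, ∀ v ∈ N, ρ a v ∈ N := fun a => sup_stab fun M hM => hM.1 a
  have hNE : ∀ e ∈ E, ∀ v ∈ N, e v ∈ N := fun e he => sup_stab fun M hM => hM.2.1 e he
  have hNX : N ≤ X := sSup_le fun M hM => hM.2.2
  have hp : ∀ v ∈ Λ, p • v ∈ N := by
    have : Λ.map (p • LinearMap.id) ∈ S := by
      refine ⟨?_, ?_, ?_⟩
      · rintro a _ ⟨v, hv, rfl⟩
        exact ⟨ρ a v, hA.stab a v hv, (map_nsmul (ρ a) p v).symm⟩
      · rintro e he _ ⟨v, hv, rfl⟩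
        exact ⟨e v, hE e he v hv, (map_nsmul e p v).symm⟩
      · rintro _ ⟨v, hv, rfl⟩
        exact ⟨0, W.zero_mem, Λ.zero_mem, v, hv, (zero_add _).symm⟩
    exact fun v hv => le_sSup this ⟨v, hv, rfl⟩
  let N₁ : Submodule ℤ_[p] V :=
    { carrier := {v | v ∈ Λ ∧ ∀ h ∈ H, ρ h v - v ∈ N}
      zero_mem' := ⟨Λ.zero_mem, fun h _ => by simp⟩
      add_mem' := by
        rintro a b ⟨ha, ha'⟩ ⟨hb, hb'⟩
        refine ⟨Λ.add_mem ha hb, fun h hh => ?_⟩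
        rw [map_add, add_sub_add_comm]
        exact N.add_mem (ha' h hh) (hb' h hh)
      smul_mem' := by
        rintro c a ⟨ha, ha'⟩
        refine ⟨Λ.smul_mem c ha, fun h hh => ?_⟩
        rw [LinearMap.map_smul_of_tower, ← smul_sub]
        exact N.smul_mem c (ha' h hh) }
  have h₁ρ : ∀ a, ∀ v ∈ N₁, ρ a v ∈ N₁ := by
    rintro a v ⟨hv, hv'⟩
    refine ⟨hA.stab a v hv, fun h hh => ?_⟩
    have := hNρ a _ (hv' _ (hA.normal.conj_mem' h hh a))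
    rwa [map_sub, rep_mul, rep_mul, rep_inv_right] at this
  have h₁E : ∀ e ∈ E, ∀ v ∈ N₁, e v ∈ N₁ := by
    rintro e he v ⟨hv, hv'⟩
    refine ⟨hE e he v hv, fun h hh => ?_⟩
    have := hNE e he _ (hv' h hh)
    rwa [map_sub, ← Module.End.mul_apply, hc e he h hh, Module.End.mul_apply] at this
  let F : ℕ → AddSubgroup V := fun i =>
    { carrier := {v | ∃ u ∈ N₁, ρ (σ ^ i) u ∈ W ∧ v - u ∈ N}
      zero_mem' := ⟨0, N₁.zero_mem, by simp, by simp⟩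
      add_mem' := by
        rintro a b ⟨u, hu, hu', h⟩ ⟨u₂, hu₂, hu₂', h₂⟩
        refine ⟨u + u₂, N₁.add_mem hu hu₂, by rw [map_add]; exact W.add_mem hu' hu₂', ?_⟩
        rw [add_sub_add_comm]
        exact N.add_mem h h₂
      neg_mem' := by
        rintro a ⟨u, hu, hu', h⟩
        refine ⟨-u, N₁.neg_mem hu, by rw [map_neg]; exact W.neg_mem hu', ?_⟩
        rw [← neg_sub', neg_mem_iff]
        exact h }
  obtain ⟨i, -, hi⟩ := cover hε hδ N₁.toAddSubgroup h₁E F (by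
    rintro i e he v ⟨u, hu, hu', h⟩
    refine ⟨e u, h₁E e he u hu, hW e he _ u hu', ?_⟩
    have := hNE e he _ h
    rwa [map_sub] at this) (Finset.range k) (Finset.card_range k).le (by
    intro v hv
    obtain ⟨i, hi, h, hh, e⟩ := hcov v
    refine ⟨i, Finset.mem_range.2 hi, ρ h v, h₁ρ h v hv, by rwa [rep_mul] at e, ?_⟩
    rw [← neg_sub, neg_mem_iff]
    exact hv.2 h hh)
  have h₁X : N₁ ≤ X := fun v hv => by
    obtain ⟨u, hu, hu', h⟩ := hi (h₁ρ (σ ^ i)⁻¹ v hv)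
    have h2 := hNX (hNρ (σ ^ i) _ h)
    rw [map_sub, rep_inv_right] at h2
    have h3 : ρ (σ ^ i) u ∈ X :=
      ⟨_, hu', hA.stab _ u hu.1, 0, Λ.zero_mem, by rw [smul_zero, add_zero]⟩
    simpa using X.add_mem h2 h3
  have hΛ : Λ ≤ N := by
    by_contra hn
    obtain ⟨v, hv, hv', h⟩ := fixv hA hNρ hp hn
    exact hv' (le_sSup (show N₁ ∈ S from ⟨h₁ρ, h₁E, h₁X⟩) ⟨hv, h⟩)
  have key : ∀ m : ℕ, ∀ v ∈ Λ, ∃ w ∈ W, ∃ l ∈ Λ, v = w + p ^ m • l := by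
    intro m
    induction m with
    | zero => exact fun v hv => ⟨0, W.zero_mem, v, hv, by simp⟩
    | succ m ih =>
      intro v hv
      obtain ⟨w, hw, l, hl, rfl⟩ := ih v hv
      obtain ⟨w₂, hw₂, -, l₂, hl₂, rfl⟩ := hNX (hΛ hl)
      exact ⟨w + p ^ m • w₂, W.add_mem hw (nsmul_mem hw₂ _), l₂, hl₂, by
        rw [smul_add, pow_succ, mul_smul, add_assoc]⟩
  exact hA.lat.eq_top fun v hv => clo hA.lat.fg fun m => key m v hv

end Pool.Agent.P.MP_169bcc_al.BR
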