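import Pool.Agent.P.MP_169bcc_al.BR.Base

/-!
Package Field.
-/

open scoped commutatorElement TensorProduct
open LieAlgebra LieSubalgebra Module

noncomputable section

namespace Pool.Agent.P.MP_169bcc_al.BR

namespace FieldP

variable {F K G : Type} [Field F] [Field K] [Algebra F K] [Group G]

theorem mem_fix {H : Subgroup G} {φ : G →* (K ≃ₐ[F] K)} {x : K} :
    x ∈ (IntermediateField.fixedField (H.map φ)).toSubfield ↔ ∀ h ∈ H, φ h x = x := by
  rw [IntermediateField.mem_toSubfield, IntermediateField.mem_fixedField_iff]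
  constructor
  · exact fun hx h hh => hx _ ⟨h, hh, rfl⟩
  · rintro hx _ ⟨h, hh, rfl⟩
    exact hx h hh

theorem aut_mul (φ : G →* (K ≃ₐ[F] K)) (a b : G) (x : K) : φ (a * b) x = φ a (φ b x) := by
  rw [map_mul]; rfl

theorem fix_stab {H : Subgroup G} (hH : H.Normal) {φ : G →* (K ≃ₐ[F] K)} {x : K}
    (hx : x ∈ (IntermediateField.fixedField (H.map φ)).toSubfield) (a : G) :
    φ a x ∈ (IntermediateField.fixedField (H.map φ)).toSubfield := by
  rw [mem_fix] at hx ⊢
  intro h hh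
  have e : h * a = a * (a⁻¹ * h * a⁻¹⁻¹) := by group
  rw [← aut_mul, e, aut_mul, hx _ (hH.conj_mem h hh a⁻¹)]

theorem fix_of_pow {τ : K ≃ₐ[F] K} {r m : ℕ} (hr : τ ^ r = 1) (hc : m.Coprime r) {c : K}
    (h : (τ ^ m) c = c) : τ c = c := by
  obtain ⟨k, hk⟩ := exists_pow_eq_self_of_coprime
    (hc.coprime_dvd_right (orderOf_dvd_of_pow_eq_one hr))
  have : (τ ^ m) ^ k ∈ MulAction.stabilizer (K ≃ₐ[F] K) c :=
    Subgroup.pow_mem _ (MulAction.mem_stabilizer_iff.2 h) k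
  rw [hk] at this
  exact this

end FieldP

open FieldP in
theorem field_ok (h1 : S_Chief) (h2 : S_PG) (h3 : S_Eps) (h4 : S_Lat) : S_Field := by
  intro p _ r V _ _ _ _ _ G _ H σ ρ Λ K _ _ _ ι φ W hr hpr hD hA hι hW hcov
  rcases subsingleton_or_nontrivial V with hV | hV
  · exact Or.inl (Subsingleton.elim _ _)
  have hinj : Function.Injective ι := ι.toRingHom.injective
  let : Algebra ℤ_[p] K := ((algebraMap ℚ_[p] K).comp (algebraMap ℤ_[p] ℚ_[p])).toAlgebra
  have : IsScalarTower ℤ_[p] ℚ_[p] K := IsScalarTower.of_algebraMap_eq fun _ => rfl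
  have hσ : φ σ ^ r = 1 := by rw [← map_pow, hD.pow, map_one]
  set E := (IntermediateField.fixedField (H.map φ)).toSubfield with hE
  by_cases hx : ∃ x ∈ E, φ σ x ≠ x
  · left
    obtain ⟨ε, he1, he2⟩ := h3 p r K (φ σ) E hr hpr hσ (fun x hx => fix_stab hD.normal hx σ) hx
    let B : Set K := Set.range ε ∪ Set.range fun q : Fin r × Fin r => (ε q.1 - ε q.2)⁻¹
    have hB : ∀ b ∈ B, b ∈ E ∧ IsIntegral ℤ_[p] b := by
      rintro b (⟨i, rfl⟩ | ⟨⟨i, j⟩, rfl⟩)
      · exact he1 i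
      · refine ⟨E.inv_mem (E.sub_mem (he1 i).1 (he1 j).1), ?_⟩
        by_cases hij : i = j
        · subst hij
          simpa using isIntegral_zero
        · exact (he2 i j hij).2
    have hBf : B.Finite := (Set.finite_range _).union (Set.finite_range _)
    let S : Set K := {c | ∃ a, ∃ b ∈ B, c = φ a b}
    have hSf : S.Finite := by
      refine (Set.Finite.image2 (fun (τ : K ≃ₐ[ℚ_[p]] K) (b : K) => τ b) Set.finite_univ
        hBf).subset ?_
      rintro _ ⟨a, b, hb, rfl⟩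
      exact ⟨φ a, trivial, b, hb, rfl⟩
    have hBS : ∀ b ∈ B, b ∈ S := fun b hb => ⟨1, b, hb, by rw [map_one]; rfl⟩
    obtain ⟨Λ', hA', hΛ'⟩ := h4 p V G H ρ Λ K ι φ S hA hι hSf
      (by
        rintro _ ⟨a, b, hb, rfl⟩
        exact (hB b hb).2.map ((φ a).toAlgHom.restrictScalars ℤ_[p]))
      (by
        rintro a _ ⟨a', b, hb, rfl⟩
        exact ⟨a * a', b, hb, (aut_mul φ a a' b).symm⟩)
    refine h1 p V G H σ ρ Λ' W (ι '' S) r (fun i => ι (ε i)) hA' ?_ ?_ ?_ ?_ ?_ ?_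
    · rintro _ ⟨c, hc, rfl⟩
      exact hΛ' c hc
    · rintro _ ⟨c, -, rfl⟩ a v hv
      have := congrArg (fun f : Module.End ℚ_[p] V => f v) (hι a c)
      simp only [Module.End.mul_apply] at this
      rw [this]
      exact hW _ _ hv
    · rintro _ ⟨_, ⟨a, b, hb, rfl⟩, rfl⟩ h hh
      rw [hι, mem_fix.1 (fix_stab hD.normal (hB b hb).1 a) h hh]
    · exact fun i => ⟨ε i, hBS _ (Or.inl ⟨i, rfl⟩), rfl⟩
    · intro i j hij
      refine ⟨ι (ε i - ε j)⁻¹, ⟨_, hBS _ (Or.inr ⟨(i, j), rfl⟩), rfl⟩, ?_⟩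
      rw [← map_sub, ← map_mul, inv_mul_cancel₀ (sub_ne_zero.2 (he2 i j hij).1), map_one]
    · intro v
      obtain ⟨a, ha⟩ := hcov v
      obtain ⟨i, hi, g, hg, rfl⟩ := hD.left hr.pos a
      exact ⟨i, hi, g, hg, ha⟩
  · right
    push Not at hx
    have hmem : φ σ ∈ H.map φ := by
      rw [← IntermediateField.fixingSubgroup_fixedField (H.map φ),
        IntermediateField.mem_fixingSubgroup_iff]
      exact hx
    obtain ⟨h, hh, hhσ⟩ := hmem
    intro c
    have conj : ∀ a, ρ a * ι c * ρ a⁻¹ = ι (φ a c) := fun a => by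
      rw [hι, mul_assoc, ← map_mul, mul_inv_cancel, map_one, mul_one]
    obtain ⟨N, hN⟩ := (h2 p V G H ρ Λ hA h hh).2 (ι c) (by
      refine (Set.finite_range fun τ : K ≃ₐ[ℚ_[p]] K => ι (τ c)).subset ?_
      rintro _ ⟨n, rfl⟩
      exact ⟨φ (h ^ n), (conj _).symm⟩)
    have e : φ (h ^ p ^ N) c = c := by
      apply hinj
      rw [← conj, hN, mul_assoc, ← map_mul, mul_inv_cancel, map_one, mul_one]
    rw [map_pow, hhσ] at e
    have hc : (p ^ N).Coprime r :=
      Nat.Coprime.pow_left N ((Nat.coprime_primes Fact.out hr).2 hpr)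
    rw [hι, fix_of_pow hσ hc e]

end Pool.Agent.P.MP_169bcc_al.BR
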