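import Pool.Agent.P.MP_169bcc_al.BR.Base

/-!
Package Diag.
-/

open scoped commutatorElement TensorProduct
open LieAlgebra LieSubalgebra Module

noncomputable section

namespace Pool.Agent.P.MP_169bcc_al.BR

namespace DiagP

open LieModule LieAlgebra.IsKilling

variable {k g : Type} [Field k] [IsAlgClosed k] [CharZero k] [LieRing g] [LieAlgebra k g]
  [FiniteDimensional k g] [IsKilling k g] {H : LieSubalgebra k g} [H.IsCartanSubalgebra]

theorem mem_rootSpace {χ : H → k} {y : g} :
    y ∈ rootSpace H χ ↔ ∀ h : H, ⁅(h : g), y⁆ = χ h • y := by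
  refine ⟨fun hy h => lie_eq_smul_of_mem_rootSpace hy h, fun hy => ?_⟩
  refine (mem_genWeightSpace g χ y).2 fun h => ⟨1, ?_⟩
  simp [hy h]

theorem map_rootSpace {σ : Module.End k g} (hσ : IsAut σ) (e : H ≃ₗ[k] H)
    (he : ∀ h : H, (e h : g) = σ h) (χ : H → k) (y : g) :
    σ y ∈ rootSpace H (fun h => χ (e.symm h)) ↔ y ∈ rootSpace H χ := by
  simp only [mem_rootSpace]
  refine ⟨fun hy h => hσ.bij.1 ?_, fun hy h => ?_⟩
  · rw [hσ.lie, map_smul, ← he, hy, e.symm_apply_apply]
  · rw [← map_smul, ← hy, hσ.lie, ← he, e.apply_symm_apply]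

theorem exists_perm {σ : Module.End k g} (hσ : IsAut σ) (e : H ≃ₗ[k] H)
    (he : ∀ h : H, (e h : g) = σ h) :
    ∃ π : Equiv.Perm H.root, ∀ (α : H.root) (h : H), (π α).1 h = α.1 (e.symm h) := by
  let τ : H.root → H.root := fun α =>
    ⟨⟨fun h => α.1 (e.symm h), by
      obtain ⟨y, hy, hy0⟩ := α.1.exists_ne_zero
      intro hb
      have := (map_rootSpace hσ e he α.1 y).2 hy
      rw [rootSpace, hb] at this
      exact hy0 (hσ.bij.1 (by simpa using this))⟩, by
      have := H.isNonZero_coe_root α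
      simp only [LieSubalgebra.root, Finset.mem_filter, Finset.mem_univ, true_and]
      intro h0
      apply this
      funext h
      simpa using congrFun h0 (e h)⟩
  have hi : Function.Injective τ := fun α β h => by
    ext z
    simpa [τ] using congrArg (fun γ : H.root => γ.1 (e z)) h
  exact ⟨Equiv.ofBijective τ (Finite.injective_iff_bijective.1 hi), fun α h => rfl⟩

theorem main (hR : S_Root) {σ : Module.End k g} {r : ℕ} (hr : r.Prime) (h5 : 5 ≤ r)
    (hσ : IsAut σ) (hσr : σ ^ r = 1) (e : H ≃ₗ[k] H) (he : ∀ h : H, (e h : g) = σ h) (x : H)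
    (hx : e x = x) (hne : ∀ α : H.root, α.1 x ≠ 0)
    (hI : ∀ I : LieIdeal k g, ∀ v ∈ I, σ v ∈ I) (v : H) : e v = v := by
  obtain ⟨π, hπ⟩ := exists_perm hσ e he
  obtain ⟨lam, hlam⟩ := Module.exists_dual_forall_apply_ne_zero (K := ℚ)
    (fun α : H.root => α.1 x) hne
  have hen : ∀ (n : ℕ) (h : H), ((e ^ n) h : g) = (σ ^ n) h := by
    intro n h
    induction n with
    | zero => rfl
    | succ n ih => rw [pow_succ', pow_succ', LinearEquiv.mul_apply, he, ih, End.mul_apply]
  have hπn : ∀ (n : ℕ) (α : H.root) (h : H), ((π ^ n) α).1 ((e ^ n) h) = α.1 h := by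
    intro n α h
    induction n with
    | zero => rfl
    | succ n ih =>
      rw [pow_succ', pow_succ', LinearEquiv.mul_apply, Equiv.Perm.mul_apply, hπ,
        e.symm_apply_apply, ih]
  have hx' : e.symm x = x := by rw [LinearEquiv.symm_apply_eq, hx]
  have h1 : π = 1 := by
    refine hR k H.root (Dual k H) H (rootSystem H) e.symm.dualMap π
      (lam.toAddMonoidHom.comp (Dual.eval k H x).toAddMonoidHom) r hr h5 ?_ ?_ hlam ?_ ?_
    · ext α z
      have h2 : (e ^ r) z = z := Subtype.ext (by rw [hen, hσr]; rfl)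
      have := hπn r α z
      rwa [h2] at this
    · intro α
      ext z
      exact (hπ α z).symm
    · intro α
      change lam ((π α).1 x) = lam (α.1 x)
      rw [hπ, hx']
    · intro q hq α hα
      have hq' := (rootSystem H).mem_invtRootSubmodule_iff.1 hq
      rw [← mem_rootSet_invtSubmoduleToLieIdeal q hq'] at hα ⊢
      intro y hy
      obtain ⟨y, rfl⟩ := hσ.bij.2 y
      have h3 : ((π α).1 : H → k) = fun h => α.1 (e.symm h) := funext (hπ α)
      rw [h3, map_rootSpace hσ e he] at hy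
      exact hI _ y (hα hy)
  have h4 : e v - v ∈ ⨅ α : Weight k H g, α.ker := by
    refine (Submodule.mem_iInf _).2 fun μ => ?_
    by_cases hμ : μ.IsNonZero
    · have hμ' : μ ∈ H.root := by simpa [LieSubalgebra.root] using hμ
      have := hπ ⟨μ, hμ'⟩ (e v)
      rw [h1, e.symm_apply_apply] at this
      change (μ : H →ₗ[k] k) (e v - v) = 0
      rw [map_sub, sub_eq_zero]
      exact this
    · have : μ.IsZero := not_not.1 hμ
      change μ (e v - v) = 0
      rw [this.eq]
      rfl
  rw [iInf_ker_weight_eq_bot, Submodule.mem_bot, sub_eq_zero] at h4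
  exact h4

end DiagP

theorem diag_ok (h : S_Root) : S_Diag := by
  intro k g _ _ _ _ _ _ _ σ r x hr h5 hσ hσr hx hreg hI v hv
  have := hreg.cartan
  have hm : ∀ y, σ y ∈ engel k x ↔ y ∈ engel k x := fun y => by
    have := hσ.mem_engel x y
    rwa [hx] at this
  let e₀ : engel k x →ₗ[k] engel k x :=
    σ.restrict (p := (engel k x).toSubmodule) (q := (engel k x).toSubmodule)
      fun y hy => (hm y).2 hy
  have hi : Function.Injective e₀ := fun y z hyz =>
    Subtype.ext (hσ.bij.1 (congrArg Subtype.val hyz))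
  let e : engel k x ≃ₗ[k] engel k x := LinearEquiv.ofInjectiveEndo e₀ hi
  refine congrArg Subtype.val (DiagP.main h hr h5 hσ hσr e (fun _ => rfl)
    ⟨x, self_mem_engel k x⟩ (Subtype.ext hx) (fun α h0 => ?_) hI ⟨v, hv⟩)
  obtain ⟨y, hy, hy0⟩ := α.1.exists_ne_zero
  have h1 := DiagP.mem_rootSpace.1 hy
  have h2 : y ∈ engel k x := by
    refine (mem_engel_iff k x y).2 ⟨1, ?_⟩
    have := h1 ⟨x, self_mem_engel k x⟩
    rw [h0, zero_smul] at this
    simpa using this
  apply (engel k x).isNonZero_coe_root α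
  funext z
  have h3 := h1 z
  rw [hreg _ z.2 _ h2] at h3
  exact (smul_eq_zero.1 h3.symm).resolve_right hy0

end Pool.Agent.P.MP_169bcc_al.BR
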