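import Pool.Agent.P.MP_169bcc_al.BR.BC

/-!
Package Inner.
-/

open scoped commutatorElement TensorProduct
open LieAlgebra LieSubalgebra Module

noncomputable section

namespace Pool.Agent.P.MP_169bcc_al.BR

namespace InnerP

attribute [local instance 100] LieRing.ofAssociativeRing

variable {F k g : Type} [Field F] [Field k] [Algebra F k] [LieRing g] [LieAlgebra F g]

/-- An endomorphism commuting with the centroid commutes with the centroid after extension. -/
theorem comm_cen {σ : Module.End F g} (hσ : ∀ c : Module.End F g, Cen c → σ * c = c * σ)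
    {e : Module.End k (k ⊗[F] g)} (he : Cen e) (z : k ⊗[F] g) :
    σ.baseChange k (e z) = e (σ.baseChange k z) := by
  have key : ∀ y : g, σ.baseChange k (e ((1 : k) ⊗ₜ[F] y)) = e ((1 : k) ⊗ₜ[F] σ y) := by
    intro y
    refine sub_eq_zero.1 (eq_zero_of_pr fun l => ?_)
    let c : Module.End F g := pr l ∘ₗ (e.restrictScalars F) ∘ₗ (TensorProduct.mk F k g 1)
    have hc : ∀ v, c v = pr l (e ((1 : k) ⊗ₜ[F] v)) := fun v => rfl
    have hcen : Cen c := fun y z => by
      rw [hc, hc, ← pr_lie, ← he, LieAlgebra.ExtendScalars.bracket_tmul, mul_one]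
    have := LinearMap.congr_fun (hσ c hcen) y
    simp only [Module.End.mul_apply, hc] at this
    rw [map_sub, pr_baseChange, this, sub_self]
  induction z with
  | zero => simp
  | add a b ha hb => simp only [map_add, ha, hb]
  | tmul a y =>
    have h1 : ∀ v : g, a ⊗ₜ[F] v = a • ((1 : k) ⊗ₜ[F] v) := fun v => by
      rw [TensorProduct.smul_tmul', smul_eq_mul, mul_one]
    rw [LinearMap.baseChange_tmul, h1, h1, map_smul, map_smul, map_smul, key]

/-- A rational point of a subspace with minimal Engel subalgebra over the extension. -/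
theorem exists_min [Infinite F] [FiniteDimensional F g] (W : Submodule F g) :
    ∃ x ∈ W, ∀ y ∈ Submodule.span k ((fun y => (1 : k) ⊗ₜ[F] y) '' (W : Set g)),
      finrank k (engel k ((1 : k) ⊗ₜ[F] x)) ≤ finrank k (engel k y) := by
  classical
  let b := Module.finBasis F W
  let ψ : (Fin (finrank F W) → k) →ₗ[k] k ⊗[F] g :=
    Fintype.linearCombination k fun i => (1 : k) ⊗ₜ[F] (b i : g)
  have hψ : ∀ a, ψ a = ∑ i, a i • (1 : k) ⊗ₜ[F] (b i : g) := fun a =>
    Fintype.linearCombination_apply k _ a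
  have hψ' : ∀ c : Fin (finrank F W) → F,
      ψ (fun i => algebraMap F k (c i)) = (1 : k) ⊗ₜ[F] ∑ i, c i • (b i : g) := fun c => by
    rw [hψ, TensorProduct.tmul_sum]
    refine Finset.sum_congr rfl fun i _ => ?_
    rw [TensorProduct.tmul_smul, algebraMap_smul]
  let φ : (Fin (finrank F W) → k) →ₗ[k] Module.End k (k ⊗[F] g) :=
    (ad k (k ⊗[F] g)).toLinearMap ∘ₗ ψ
  have hφ : ∀ a, φ a = ad k (k ⊗[F] g) (ψ a) := fun a => rfl
  let B := Pi.basisFun k (Fin (finrank F W))
  have hP := LinearMap.polyCharpoly_coeff_nilRank_ne_zero φ B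
  have hex : ∃ c : Fin (finrank F W) → F, MvPolynomial.eval (fun i => algebraMap F k (c i))
      ((LinearMap.polyCharpoly φ B).coeff (LinearMap.nilRank φ)) ≠ 0 := by
    by_contra hcon
    push Not at hcon
    refine hP (MvPolynomial.funext_set (fun _ => Set.range (algebraMap F k))
      (fun _ => Set.infinite_range_of_injective (algebraMap F k).injective) fun a ha => ?_)
    choose c hc using fun i => ha i (Set.mem_univ i)
    have : a = fun i => algebraMap F k (c i) := funext fun i => (hc i).symm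
    rw [this, hcon, map_zero]
  obtain ⟨c, hc⟩ := hex
  have hreg : LinearMap.IsNilRegular φ (fun i => algebraMap F k (c i)) := by
    rw [LinearMap.isNilRegular_iff_coeff_polyCharpoly_nilRank_ne_zero φ B]
    exact hc
  rw [LinearMap.isNilRegular_iff_natTrailingDegree_charpoly_eq_nilRank, hφ, hψ'] at hreg
  refine ⟨∑ i, c i • (b i : g), W.sum_mem fun i _ => W.smul_mem _ (b i).2, fun y hy => ?_⟩
  have hy' : y ∈ LinearMap.range ψ := by
    refine Submodule.span_le.2 ?_ hy
    rintro _ ⟨v, hv, rfl⟩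
    refine ⟨fun i => algebraMap F k (b.repr ⟨v, hv⟩ i), ?_⟩
    rw [hψ']
    have := congrArg Subtype.val (b.sum_repr ⟨v, hv⟩)
    rw [AddSubmonoidClass.coe_finsetSum] at this
    exact congrArg _ this
  obtain ⟨a, rfl⟩ := hy'
  rw [finrank_engel, finrank_engel, hreg, ← hφ]
  exact LinearMap.nilRank_le_natTrailingDegree_charpoly φ a

end InnerP

theorem inner_ok (h1 : S_Kac) (h2 : S_Diag) : S_Inner := by
  intro F g _ _ _ _ _ _ σ r hr h5 haut hpow hσ
  let k := AlgebraicClosure F
  have : IsKilling k (k ⊗[F] g) := isKilling_baseChange k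
  have haut' : IsAut (σ.baseChange k) := haut.baseChange
  have hpow' : σ.baseChange k ^ r = 1 := by
    rw [← LinearMap.baseChange_pow, hpow, LinearMap.baseChange_one]
  have hI : ∀ I : LieIdeal k (k ⊗[F] g), ∀ v ∈ I, σ.baseChange k v ∈ I := fun I v hv => by
    obtain ⟨e, he, e0, e1, -⟩ := exists_proj I
    rw [← e1 v hv, InnerP.comm_cen hσ he]
    exact e0 _
  obtain ⟨x, hx, hmin⟩ := InnerP.exists_min (k := k) (LinearMap.ker (σ - 1))
  have hx' : σ x = x := sub_eq_zero.1 (by simpa using hx)
  have hfix : σ.baseChange k ((1 : k) ⊗ₜ[F] x) = (1 : k) ⊗ₜ[F] x := by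
    rw [LinearMap.baseChange_tmul, hx']
  have hreg : Reg k ((1 : k) ⊗ₜ[F] x) := by
    refine h1 k (k ⊗[F] g) (σ.baseChange k) r _ hr haut' hpow' hfix fun y hy => hmin y ?_
    refine mem_span_ker (φ := σ - 1) ?_
    rw [LinearMap.baseChange_sub, LinearMap.baseChange_one, LinearMap.sub_apply, hy]
    simp
  refine ⟨x, reg_tmul.1 hreg, fun v hv => one_tmul_inj (F := F) (k := k) ?_⟩
  have := h2 k (k ⊗[F] g) (σ.baseChange k) r _ hr h5 haut' hpow' hfix hreg hI _
    (tmul_mem_engel.2 hv)
  rwa [LinearMap.baseChange_tmul] at this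

end Pool.Agent.P.MP_169bcc_al.BR
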