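import Pool.Agent.P.MP_169bcc_al.BR.Base

/-!
A fixed point of an automorphism of prime order with minimal Engel subalgebra is regular.
-/

open scoped commutatorElement TensorProduct
open LieAlgebra LieSubalgebra Module

noncomputable section

namespace Pool.Agent.P.MP_169bcc_al.BR

namespace KacP

variable {k g : Type} [Field k] [LieRing g] [LieAlgebra k g]

/-- The fixed points in a subalgebra. -/
def fix (c : LieSubalgebra k g) {σ : Module.End k g} (h : IsAut σ) : LieSubalgebra k g where
  carrier := {y | y ∈ c ∧ σ y = y}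
  add_mem' := fun ha hb => ⟨c.add_mem ha.1 hb.1, by rw [map_add, ha.2, hb.2]⟩
  zero_mem' := ⟨c.zero_mem, map_zero _⟩
  smul_mem' := fun t _ ha => ⟨c.smul_mem t ha.1, by rw [map_smul, ha.2]⟩
  lie_mem' := fun ha hb => ⟨c.lie_mem ha.1 hb.1, by rw [h.lie, ha.2, hb.2]⟩

/-- The Killing form is nondegenerate on the zero root subalgebra. -/
theorem nondeg [FiniteDimensional k g] [IsKilling k g] (U c : LieSubalgebra k g)
    [LieRing.IsNilpotent U] (hc : c = zeroRootSubalgebra k g U) :
    LinearMap.ker (LieModule.traceForm k c g) = ⊥ := by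
  subst hc
  have h : Codisjoint (rootSpace U 0) (LieModule.posFittingComp k U g) :=
    (LieModule.isCompl_genWeightSpace_zero_posFittingComp k U g).codisjoint
  replace h : Codisjoint (zeroRootSubalgebra k g U : Submodule k g)
      (LieModule.posFittingComp k U g : Submodule k g) := by
    rwa [codisjoint_iff, ← LieSubmodule.toSubmodule_inj, LieSubmodule.sup_toSubmodule,
      LieSubmodule.top_toSubmodule, ← codisjoint_iff] at h
  rw [← restrict_killingForm, LinearMap.BilinForm.ker_restrict_eq_of_codisjoint h
    fun m₀ h₀ m₁ h₁ => killingForm_eq_zero_of_mem_zeroRoot_mem_posFitting k g U h₀ h₁,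
    IsKilling.ker_killingForm_eq_bot, Submodule.comap_bot, Submodule.ker_subtype]

/-- The weights vanish on the commutators of the zero root subalgebra. -/
theorem weight_zero [CharZero k] [FiniteDimensional k g] (U c : LieSubalgebra k g)
    [LieRing.IsNilpotent U] (hc : c = zeroRootSubalgebra k g U) (χ : LieModule.Weight k U g)
    (y : c) (hy : y ∈ LieModule.lowerCentralSeries k c c 1) (hU : (y : g) ∈ U) :
    χ ⟨y, hU⟩ = 0 := by
  subst hc
  let N : LieSubmodule k (zeroRootSubalgebra k g U) g :=
    { (LieModule.genWeightSpace g (χ : U → k)).toSubmodule with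
      lie_mem := fun {a m} hm => by
        have := lie_mem_genWeightSpace_of_mem_genWeightSpace (H := U) (χ₁ := 0) a.2 hm
        rwa [zero_add] at this }
  have h1 := LieModule.trace_toEnd_eq_zero_of_mem_lcs k _ N le_rfl hy
  have h2 := LieModule.trace_toEnd_genWeightSpace k U g (χ : U → k) ⟨y, hU⟩
  have h3 : finrank k (LieModule.genWeightSpace g (χ : U → k)) • χ ⟨y, hU⟩ = 0 :=
    h2.symm.trans h1
  have := (LieSubmodule.nontrivial_iff_ne_bot k U g).2 χ.genWeightSpace_ne_bot
  have h4 : finrank k (LieModule.genWeightSpace g (χ : U → k)) ≠ 0 := finrank_pos.ne'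
  rw [nsmul_eq_mul] at h3
  exact (mul_eq_zero.1 h3).resolve_left (Nat.cast_ne_zero.2 h4)

end KacP

open KacP in
theorem kac_ok (h : S_Kac2) : S_Kac := by
  intro k g _ _ _ _ _ _ _ σ r x hr hσ hσr hx hmin
  have hst : ∀ z ∈ engel k x, σ z ∈ engel k x := fun z hz => by
    have := (hσ.mem_engel x z).2 hz
    rwa [hx] at this
  have hxU : x ∈ fix (engel k x) hσ := ⟨self_mem_engel k x, hx⟩
  have hbot : ∀ y ∈ fix (engel k x) hσ, engel k x ≤ engel k y := fun y hy => by
    have := engel_isBot_of_isMin
      (Cardinal.natCast_le_aleph0.trans (Cardinal.infinite_iff.1 inferInstance))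
      (fix (engel k x) hσ) ⟨engel k x, x, hxU, rfl⟩ (fun _ hz => hz.1) (by
        rintro ⟨_, z, hz, rfl⟩ hzx
        suffices engel k z = engel k x from this.ge
        exact LieSubalgebra.toSubmodule_injective
          (Submodule.eq_of_le_of_finrank_le hzx (hmin z hz.2)))
    exact @this ⟨engel k y, y, hy, rfl⟩
  have : LieRing.IsNilpotent (fix (engel k x) hσ) :=
    isNilpotent_of_forall_le_engel _ fun y hy z hz => hbot y hy hz.1
  have hc : engel k x = zeroRootSubalgebra k g (fix (engel k x) hσ) := by
    ext z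
    rw [mem_zeroRootSubalgebra]
    exact ⟨fun hz y => (mem_engel_iff k _ _).1 (hbot y y.2 hz),
      fun hz => (mem_engel_iff k _ _).2 (hz ⟨x, hxU⟩)⟩
  have hnd := nondeg _ _ hc
  let τ : Module.End k (engel k x) := σ.restrict (p := (engel k x).toSubmodule) hst
  have hτ : ∀ y : engel k x, (τ y : g) = σ y := fun _ => rfl
  have hp : ∀ (n : ℕ) (y : engel k x), ((τ ^ n) y : g) = (σ ^ n) y := fun n y => by
    induction n with
    | zero => rfl
    | succ n ih => rw [pow_succ', pow_succ', Module.End.mul_apply, Module.End.mul_apply, hτ, ih]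
  have hinj : Function.Injective τ := fun a b hab =>
    Subtype.ext (hσ.bij.1 (by rw [← hτ, ← hτ, hab]))
  have hab := h k (engel k x) g τ r hr
    ⟨⟨hinj, LinearMap.injective_iff_surjective.1 hinj⟩, fun a b => Subtype.ext (hσ.lie a b)⟩
    (LinearMap.ext fun y => Subtype.ext (by rw [hp, hσr]; rfl))
    (fun a b => hσ.killing a b) hnd fun y hy hfy => by
      have hy1 : σ y = y := congrArg Subtype.val hfy
      have hyU : (y : g) ∈ fix (engel k x) hσ := ⟨y.2, hy1⟩
      have h1 : ∀ z ∈ fix (engel k x) hσ, killingForm k g y z = 0 := fun z hz => by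
        have := LieModule.traceForm_eq_sum_finrank_nsmul_mul k (fix (engel k x) hσ) g
          ⟨y, hyU⟩ ⟨z, hz⟩
        simp only [weight_zero _ _ hc _ y hy hyU, zero_mul, smul_zero,
          Finset.sum_const_zero] at this
        exact this
      rw [← Submodule.mem_bot k, ← hnd, LinearMap.mem_ker]
      ext z
      have h2 : ∀ n : ℕ, killingForm k g y ((σ ^ n) z) = killingForm k g y z := fun n => by
        induction n with
        | zero => rfl
        | succ n ih => rw [← ih, pow_succ', Module.End.mul_apply, ← hσ.killing y ((σ ^ n) z), hy1]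
      have h3 := h1 (∑ i ∈ Finset.range r, (σ ^ i) z)
        ⟨(engel k x).toSubmodule.sum_mem fun i _ => hp i z ▸ ((τ ^ i) z).2, by
          have e := Finset.sum_range_succ' (fun i => (σ ^ i) (z : g)) r
          rw [Finset.sum_range_succ, hσr, pow_zero, add_left_inj] at e
          rw [map_sum, e]
          exact Finset.sum_congr rfl fun i _ => by rw [pow_succ', Module.End.mul_apply]⟩
      simp only [map_sum, h2, Finset.sum_const, Finset.card_range, nsmul_eq_mul] at h3
      exact (mul_eq_zero.1 h3).resolve_left (Nat.cast_ne_zero.2 hr.ne_zero)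
  exact fun y hy z hz => congrArg Subtype.val (hab.trivial ⟨y, hy⟩ ⟨z, hz⟩)

end Pool.Agent.P.MP_169bcc_al.BR
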