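import Pool.Agent.P.MP_169bcc_al.BR.Base

/-!
Package Root: a permutation of the roots of prime order at least five that preserves a chamber
and every invariant subspace is trivial.
-/

open scoped commutatorElement TensorProduct
open LieAlgebra LieSubalgebra Module

noncomputable section

namespace Pool.Agent.P.MP_169bcc_al.BR

namespace RootP

variable {k ι M N : Type} [Field k] [CharZero k] [Fintype ι] [AddCommGroup M] [Module k M]
  [AddCommGroup N] [Module k N] (P : RootPairing ι k M N) [P.IsCrystallographic]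

/-- the canonical form on the roots -/
def Bz (i j : ι) : ℤ := ∑ l, P.pairingIn ℤ i l * P.pairingIn ℤ j l

omit [CharZero k] in
theorem Bz_comm (i j : ι) : Bz P i j = Bz P j i :=
  Finset.sum_congr rfl fun _ _ => mul_comm _ _

omit [CharZero k] in
theorem cast_Bz (i j : ι) : algebraMap ℤ k (Bz P i j) = P.RootForm (P.root i) (P.root j) := by
  rw [Bz, map_sum, RootPairing.rootForm_apply_apply]
  refine Finset.sum_congr rfl fun l _ => ?_
  rw [map_mul, P.algebraMap_pairingIn, P.algebraMap_pairingIn, P.root_coroot'_eq_pairing,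
    P.root_coroot'_eq_pairing]

theorem two_Bz (i j : ι) : 2 * Bz P i j = P.pairingIn ℤ i j * Bz P j j := by
  apply FaithfulSMul.algebraMap_injective ℤ k
  rw [map_mul, map_mul, cast_Bz, cast_Bz, P.algebraMap_pairingIn, map_ofNat]
  exact P.toInvariantForm.two_mul_apply_root_root i j

theorem Bz_pos (j : ι) : 0 < Bz P j j := by
  refine Finset.sum_pos' (fun l _ => mul_self_nonneg _) ⟨j, Finset.mem_univ _, ?_⟩
  rw [P.pairingIn_same]
  norm_num

theorem Bz_sq {i j : ι} (h : Bz P i j ≠ 0) : Bz P i i * Bz P j j ≤ 4 * Bz P i j ^ 2 := by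
  have h1 := two_Bz P i j
  have h2 := two_Bz P j i
  rw [Bz_comm P j i] at h2
  have h3 : 0 < Bz P i i * Bz P j j := mul_pos (Bz_pos P i) (Bz_pos P j)
  have h4 : 4 * Bz P i j ^ 2 =
      (P.pairingIn ℤ i j * P.pairingIn ℤ j i) * (Bz P i i * Bz P j j) := by
    linear_combination (2 * Bz P i j) * h1 + (P.pairingIn ℤ i j * Bz P j j) * h2
  have h5 : 0 < 4 * Bz P i j ^ 2 := by positivity
  rw [h4] at h5 ⊢
  have h6 : 0 < P.pairingIn ℤ i j * P.pairingIn ℤ j i := (mul_pos_iff_of_pos_right h3).mp h5
  exact le_mul_of_one_le_left h3.le h6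

theorem Bz_ne {i j : ι} (h : P.pairing i j ≠ 0) : Bz P i j ≠ 0 := by
  intro h0
  have h1 := two_Bz P i j
  rw [h0, mul_zero, eq_comm, mul_eq_zero] at h1
  rcases h1 with h1 | h1
  · exact h (by rw [← P.algebraMap_pairingIn ℤ, h1, map_zero])
  · exact (Bz_pos P j).ne' h1

variable [P.IsRootSystem]

theorem Bz_def (b : P.Base) (c : b.support → ℝ) (hc : c ≠ 0) :
    0 < ∑ i, ∑ j, c i * c j * (Bz P i j : ℝ) := by
  classical
  have e : ∑ i, ∑ j, c i * c j * (Bz P i j : ℝ) =
      ∑ l, (∑ i, c i * (P.pairingIn ℤ i l : ℝ)) ^ 2 := by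
    simp only [Bz, Int.cast_sum, Int.cast_mul, Finset.mul_sum, pow_two, Finset.sum_mul]
    rw [Finset.sum_comm (s := (Finset.univ : Finset ι))]
    refine Finset.sum_congr rfl fun i _ => ?_
    rw [Finset.sum_comm (s := (Finset.univ : Finset ι))]
    exact Finset.sum_congr rfl fun j _ => Finset.sum_congr rfl fun l _ => by ring
  rw [e]
  by_contra h
  have h0 := (Finset.sum_eq_zero_iff_of_nonneg fun l _ => sq_nonneg _).mp
    (le_antisymm (not_lt.mp h) (Finset.sum_nonneg fun l _ => sq_nonneg _))
  have hd : (b.cartanMatrix.map (Int.castRingHom ℝ)).det ≠ 0 := by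
    rw [← RingHom.mapMatrix_apply, ← RingHom.map_det]
    simpa using Matrix.nondegenerate_iff_det_ne_zero.mp b.cartanMatrix_nondegenerate
  refine hc (Matrix.eq_zero_of_vecMul_eq_zero hd (funext fun l => ?_))
  exact pow_eq_zero_iff two_ne_zero |>.mp (h0 l (Finset.mem_univ _))

theorem pairing_perm (s : M ≃ₗ[k] M) (π : Equiv.Perm ι)
    (hs : ∀ i, s (P.root i) = P.root (π i)) (i j : ι) :
    P.pairingIn ℤ (π i) (π j) = P.pairingIn ℤ i j := by
  apply FaithfulSMul.algebraMap_injective ℤ k
  rw [P.algebraMap_pairingIn, P.algebraMap_pairingIn]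
  let e := RootPairing.Equiv.mk' P P s π hs
  have h1 := e.toHom.weight_coweight_transpose_apply P P (P.coroot (π j))
  have h2 := e.toHom.coroot_coweightMap_apply P P (π j)
  have h3 : e.toHom.indexEquiv.symm (π j) = j := π.symm_apply_apply j
  rw [h2, h3] at h1
  have h4 := LinearMap.congr_fun h1 (P.root i)
  have h5 : e.toHom.weightMap (P.root i) = P.root (π i) := hs i
  rw [LinearMap.dualMap_apply, h5] at h4
  exact h4

theorem Bz_perm (s : M ≃ₗ[k] M) (π : Equiv.Perm ι)
    (hs : ∀ i, s (P.root i) = P.root (π i)) (i j : ι) : Bz P (π i) (π j) = Bz P i j := by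
  rw [Bz, ← Equiv.sum_comp π]
  exact Finset.sum_congr rfl fun l _ => by rw [pairing_perm P s π hs, pairing_perm P s π hs]

omit [P.IsRootSystem] in
/-- the span of a union of components of the base is invariant -/
theorem span_invt [P.IsReduced] (b : P.Base) (p : b.support → Prop)
    (hp : ∀ i j : b.support, p i → Bz P i j ≠ 0 → p j) :
    Submodule.span k (P.root ∘ (↑) '' {i | p i}) ∈ P.invtRootSubmodule := by
  rw [RootPairing.mem_invtRootSubmodule_iff, ← b.forall_mem_support_invtSubmodule_iff]
  refine fun l hl => (Module.End.mem_invtSubmodule _).mpr fun x hx => ?_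
  rw [Submodule.mem_comap, LinearEquiv.coe_coe, RootPairing.reflection_apply]
  refine Submodule.sub_mem _ hx ?_
  by_cases h : p ⟨l, hl⟩
  · exact Submodule.smul_mem _ _ (Submodule.subset_span ⟨⟨l, hl⟩, h, rfl⟩)
  · have h0 : P.coroot' l x = 0 := by
      refine LinearMap.mem_ker.mp (Submodule.span_le.mpr ?_ hx)
      rintro _ ⟨j, hj, rfl⟩
      rw [SetLike.mem_coe, LinearMap.mem_ker, Function.comp_apply, P.root_coroot'_eq_pairing]
      by_contra hne
      exact h (hp j ⟨l, hl⟩ hj (Bz_ne P hne))
    rw [h0, zero_smul]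
    exact Submodule.zero_mem _

end RootP

open RootP IsAddIndecomposable in
theorem root_ok (h : S_Graph) : S_Root := by
  intro k ι M N _ _ _ _ _ _ _ P _ _ _ s π f r hr h5 hπ hs hf hfπ hq
  have _i : Fintype ι := Fintype.ofFinite ι
  let _j := P.indexNeg
  let b : P.Base := RootPairing.Base.mk' P (baseOf P.root f) (P.linearIndepOn_root_baseOf f hf)
    fun i => mem_or_neg_mem_closure_baseOf P.root f i (hf i) (by simp)
  have hb : ∀ i, i ∈ b.support ↔ i ∈ baseOf P.root f := fun i => Set.Finite.mem_toFinset _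
  have hπb : ∀ i, π i ∈ b.support ↔ i ∈ b.support := by
    intro i
    rw [hb, hb]
    simp only [baseOf, IsAddIndecomposable, Set.mem_ofPred_eq, hfπ]
    refine and_congr_right fun _ => ⟨fun H j hj l hl e => ?_, fun H j hj l hl e => ?_⟩
    · have := H (π j) (by rwa [hfπ]) (π l) (by rwa [hfπ]) (by rw [← hs, ← hs, ← hs, e, map_add])
      simp [P.ne_zero] at this
    · obtain ⟨j, rfl⟩ := π.surjective j
      obtain ⟨l, rfl⟩ := π.surjective l
      rw [hfπ] at hj hl
      rw [← hs, ← hs, ← hs, ← map_add, s.injective.eq_iff] at e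
      have := H j hj l hl e
      simp [P.ne_zero] at this
  have key : π.subtypePerm hπb = 1 := by
    refine h b.support (fun i j => (Bz P i j : ℝ)) (π.subtypePerm hπb) r hr h5 ?_
      (fun i j => by rw [Bz_comm]) (Bz_def P b) (fun i j hij => ?_) (fun i j hij => ?_)
      (fun i j => by simp only [Equiv.Perm.subtypePerm_apply, Bz_perm P s π hs]) fun i => ?_
    · ext i
      simp [Equiv.Perm.subtypePerm_pow, hπ]
    · have h1 := two_Bz P i j
      have h2 : P.pairingIn ℤ i j ≤ 0 := b.cartanMatrix_le_zero_of_ne i j hij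
      have h3 := mul_nonpos_of_nonpos_of_nonneg h2 (Bz_pos P j).le
      exact_mod_cast (by omega : Bz P i j ≤ 0)
    · exact_mod_cast Bz_sq P (i := i) (j := j) (by exact_mod_cast hij)
    · have h1 := hq _ (span_invt P b
        (fun j => Relation.ReflTransGen (fun a c : b.support => (Bz P a c : ℝ) ≠ 0) i j)
        fun a c ha hac => ha.tail (by exact_mod_cast hac)) i
        (Submodule.subset_span ⟨i, Relation.ReflTransGen.refl, rfl⟩)
      by_contra hn
      exact b.linearIndepOn_root.linearIndependent.notMem_span_image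
        (x := π.subtypePerm hπb i) hn h1
  have hs1 : (s : M →ₗ[k] M) = LinearMap.id := by
    refine b.toWeightBasis.ext fun i => ?_
    have h1 : π i = i := congrArg Subtype.val (Equiv.Perm.congr_fun key i)
    rw [b.toWeightBasis_apply, LinearEquiv.coe_coe, hs, h1, LinearMap.id_apply]
  ext i
  refine P.root.injective ?_
  rw [← hs]
  exact LinearMap.congr_fun hs1 _

end Pool.Agent.P.MP_169bcc_al.BR
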