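import Pool.Agent.P.MP_169bcc_al.BR.Base

/-!
Package Kac2.
-/

open scoped commutatorElement TensorProduct
open LieAlgebra LieSubalgebra Module

noncomputable section

namespace Pool.Agent.P.MP_169bcc_al.BR

namespace Kac2P

variable {k c : Type} [Field k] [LieRing c] [LieAlgebra k c] {τ : Module.End k c} {r : ℕ}

theorem pow_eig {μ : k} {a : c} (h : τ a = μ • a) (n : ℕ) : (τ ^ n) a = μ ^ n • a := by
  induction n with
  | zero => simp
  | succ n ih => rw [pow_succ', Module.End.mul_apply, ih, map_smul, h, smul_smul, pow_succ]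

/-- a linear map that kills the eigenvectors is zero -/
theorem lin_zero [IsAlgClosed k] [CharZero k] [FiniteDimensional k c] (hr : r ≠ 0)
    (hτ : τ ^ r = 1) {N : Type} [AddCommGroup N] [Module k N] (f : c →ₗ[k] N)
    (h : ∀ (μ : k) (a : c), μ ^ r = 1 → τ a = μ • a → f a = 0) : f = 0 := by
  have hs : τ.IsSemisimple := by
    refine Module.End.isSemisimple_of_squarefree_aeval_eq_zero
      (Polynomial.separable_X_pow_sub_C (1 : k) (n := r) (by exact_mod_cast hr)
        one_ne_zero).squarefree ?_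
    simp [hτ]
  rw [← LinearMap.ker_eq_top, eq_top_iff, ← hs.iSup_eigenspace_eq_top]
  refine iSup_le fun μ a ha => ?_
  rw [Module.End.mem_eigenspace_iff] at ha
  rcases eq_or_ne a 0 with rfl | h0
  · exact Submodule.zero_mem _
  · refine h μ a ?_ ha
    have h1 := pow_eig ha r
    rw [hτ, Module.End.one_apply] at h1
    exact smul_left_injective k h0 (h1.symm.trans (one_smul k a).symm)

theorem br (hA : IsAut τ) {μ ν : k} {a b : c} (ha : τ a = μ • a) (hb : τ b = ν • b) :
    τ ⁅a, b⁆ = (μ * ν) • ⁅a, b⁆ := by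
  rw [hA.lie, ha, hb, smul_lie, lie_smul, smul_smul]

theorem orth (B : c →ₗ[k] c →ₗ[k] k) (hB : ∀ a b, B (τ a) (τ b) = B a b) {μ ν : k} {a b : c}
    (ha : τ a = μ • a) (hb : τ b = ν • b) (h : μ * ν ≠ 1) : B a b = 0 := by
  have h1 := hB a b
  rw [ha, hb, map_smul, map_smul, LinearMap.smul_apply, smul_eq_mul, smul_eq_mul] at h1
  refine (mul_eq_zero.1 (show (μ * ν - 1) * B a b = 0 by linear_combination h1)).resolve_left
    (sub_ne_zero.2 h)

theorem lie_mem (a b : c) : ⁅a, b⁆ ∈ LieModule.lowerCentralSeries k c c 1 := by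
  rw [LieModule.lowerCentralSeries_succ, LieModule.lowerCentralSeries_zero]
  exact LieSubmodule.lie_mem_lie (LieSubmodule.mem_top a) (LieSubmodule.mem_top b)

theorem exists_pow (hr : r.Prime) {μ ν : k} (hμ : μ ^ r = 1) (h1 : μ ≠ 1) (hν : ν ^ r = 1) :
    ∃ j < r, μ ^ (j + 1) * ν = 1 := by
  have := Fact.mk hr
  have : NeZero r := ⟨hr.ne_zero⟩
  have hp : IsPrimitiveRoot μ r := by
    rw [← orderOf_eq_prime hμ h1]
    exact IsPrimitiveRoot.orderOf μ
  obtain ⟨i, hi, rfl⟩ := hp.eq_pow_of_pow_eq_one hν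
  exact ⟨r - i - 1, by omega, by rw [← pow_add, show r - i - 1 + 1 + i = r by omega, hμ]⟩

/-- a central element of the derived algebra lies in the kernel of every trace form -/
theorem cen_ker [IsAlgClosed k] [CharZero k] {M : Type} [AddCommGroup M] [Module k M]
    [LieRingModule c M] [LieModule k c M] [FiniteDimensional k M] {z : c}
    (hz : z ∈ LieModule.lowerCentralSeries k c c 1) (hc : z ∈ center k c) :
    LieModule.traceForm k c M z = 0 := by
  have hcm := LieModule.commute_toEnd_of_mem_center_left M hc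
  have h1 : ∀ μ : k, μ ≠ 0 → (LieModule.toEnd k c M z).eigenspace μ = ⊥ := fun μ hμ => by
    let N : LieSubmodule k c M :=
      { (LieModule.toEnd k c M z).eigenspace μ with
        lie_mem := fun {x m} hm => (LieModule.toEnd k c M z).mapsTo_genEigenspace_of_comm
          (hcm x) μ 1 hm }
    have h2 : LieModule.toEnd k c N z = μ • (1 : Module.End k N) := by
      ext m
      exact Module.End.mem_eigenspace_iff.1 m.2
    have h3 := LieModule.trace_toEnd_eq_zero_of_mem_lcs k c N le_rfl hz
    rw [h2, map_smul, LinearMap.trace_one, smul_eq_mul, mul_eq_zero, Nat.cast_eq_zero] at h3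
    exact Submodule.finrank_eq_zero.1 (h3.resolve_left hμ)
  have h2 : (LieModule.toEnd k c M z).maxGenEigenspace 0 = ⊤ := by
    rw [eq_top_iff, ← Module.End.iSup_maxGenEigenspace_eq_top (LieModule.toEnd k c M z)]
    refine iSup_le fun μ => ?_
    rcases eq_or_ne μ 0 with rfl | hμ
    · exact le_rfl
    · by_contra h
      exact Module.End.HasUnifEigenvalue.lt (k := ⊤) (f := LieModule.toEnd k c M z) (μ := μ)
        zero_lt_one (fun h' => h (le_of_eq_of_le h' bot_le)) (h1 μ hμ)
  have h3 : IsNilpotent (LieModule.toEnd k c M z) := by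
    refine Module.End.isNilpotent_iff_of_finite.2 fun m => ?_
    have h4 : m ∈ (LieModule.toEnd k c M z).maxGenEigenspace 0 := h2 ▸ Submodule.mem_top
    simpa [Module.End.mem_maxGenEigenspace] using h4
  ext x
  exact (LinearMap.isNilpotent_trace_of_isNilpotent ((hcm x).isNilpotent_mul_right h3)).eq_zero

end Kac2P

open Kac2P

theorem kac2_ok : S_Kac2 := by
  intro k c M _ _ _ _ _ _ _ _ _ _ _ τ r hr hA hτ hB hker hfix
  have z1 : ∀ {μ ν : k} {a b : c}, τ a = μ • a → τ b = ν • b → μ * ν = 1 → ⁅a, b⁆ = 0 :=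
    fun ha hb h => hfix _ (lie_mem _ _) (by rw [br hA ha hb, h, one_smul])
  have cen : ∀ a : c, τ a = (1 : k) • a → ad k c a = 0 := fun a ha => by
    refine lin_zero hr.ne_zero hτ _ fun ν b _ hb => ?_
    rw [ad_apply, ← Submodule.mem_bot k, ← hker, LinearMap.mem_ker]
    refine lin_zero hr.ne_zero hτ _ fun l d _ hd => ?_
    by_cases h : ν * l = 1
    · rw [LieModule.traceForm_apply_lie_apply, z1 hb hd h, map_zero]
    · exact orth _ hB (br hA ha hb) hd (by rwa [one_mul])
  have nil : ∀ (μ : k) (a : c), μ ^ r = 1 → τ a = μ • a → ad k c a ^ r = 0 := fun μ a hμ ha => by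
    by_cases h1 : μ = 1
    · rw [cen a (h1 ▸ ha), zero_pow hr.ne_zero]
    refine lin_zero hr.ne_zero hτ _ fun ν b hν hb => ?_
    have h2 : ∀ j : ℕ, τ ((ad k c a ^ j) b) = (μ ^ j * ν) • (ad k c a ^ j) b := fun j => by
      induction j with
      | zero => simpa using hb
      | succ j ih =>
        rw [pow_succ' (ad k c a), Module.End.mul_apply, ad_apply, br hA ha ih, pow_succ', mul_assoc]
    obtain ⟨j, hj, h3⟩ := exists_pow hr hμ h1 hν
    have h4 : (ad k c a ^ (j + 1)) b = 0 := by
      rw [pow_succ', Module.End.mul_apply, ad_apply]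
      exact z1 ha (h2 j) (by rw [← mul_assoc, ← pow_succ', h3])
    rw [show r = r - (j + 1) + (j + 1) by omega, pow_add, Module.End.mul_apply, h4, map_zero]
  have kil : killingForm k c = 0 := by
    refine lin_zero hr.ne_zero hτ _ fun μ a hμ ha => lin_zero hr.ne_zero hτ _ fun ν b _ hb => ?_
    by_cases h : μ * ν = 1
    · have hc : Commute (ad k c a) (ad k c b) := by
        ext d
        rw [Module.End.mul_apply, Module.End.mul_apply, ad_apply, ad_apply, ad_apply, ad_apply,
          leibniz_lie, z1 ha hb h, zero_lie, zero_add]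
      exact (LinearMap.isNilpotent_trace_of_isNilpotent
        (hc.isNilpotent_mul_right ⟨r, nil μ a hμ ha⟩)).eq_zero
    · exact orth _ hA.killing ha hb h
  have : IsSolvable c := isSolvable_of_killingForm_apply_lie_eq_zero fun x y _ => by
    rw [kil, LinearMap.zero_apply, LinearMap.zero_apply]
  have hbot : LieModule.lowerCentralSeries k c c 1 = ⊥ := by
    by_contra hne
    have := (LieSubmodule.nontrivial_iff_ne_bot k c c).2 hne
    obtain ⟨χ, hχ⟩ := LieModule.exists_nontrivial_weightSpace_of_isSolvable k c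
      (LieModule.lowerCentralSeries k c c 1)
    obtain ⟨⟨v, hv⟩, hv0⟩ := exists_ne (0 : LieModule.weightSpace
      (LieModule.lowerCentralSeries k c c 1) χ)
    rw [LieModule.mem_weightSpace] at hv
    have hw : ∀ x : c, ad k c x v.1 = χ x • v.1 := fun x => congrArg Subtype.val (hv x)
    have h0 : (v.1 : c) ≠ 0 := fun h => hv0 (Subtype.ext (Subtype.ext h))
    have hχ0 : χ = 0 := by
      refine lin_zero hr.ne_zero hτ _ fun μ a hμ ha => ?_
      have h1 := pow_eig (hw a) r
      rw [nil μ a hμ ha, LinearMap.zero_apply] at h1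
      exact pow_eq_zero_iff hr.ne_zero |>.1 ((smul_eq_zero.1 h1.symm).resolve_right h0)
    have h2 := cen_ker (M := M) v.2 ((LieModule.mem_maxTrivSubmodule k c c _).2 fun x => by
      have h3 := hw x
      rwa [hχ0, LinearMap.zero_apply, zero_smul] at h3)
    rw [← LinearMap.mem_ker, hker] at h2
    exact h0 h2
  refine ⟨fun a b => ?_⟩
  have h1 := lie_mem (k := k) a b
  rwa [hbot, LieSubmodule.mem_bot] at h1

end Pool.Agent.P.MP_169bcc_al.BR
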