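import Pool.Agent.P.MP_169bcc_al.BR.Base

/-!
Package Lie.
-/

open scoped commutatorElement TensorProduct
open LieAlgebra LieSubalgebra Module

noncomputable section

namespace Pool.Agent.P.MP_169bcc_al.BR

namespace LieP

section Field

variable {F g : Type} [Field F] [LieRing g] [LieAlgebra F g]

theorem der_inv {a : Module.End F g} (h : IsAut a) {N : LieIdeal F g} (hN : ∀ v ∈ N, a v ∈ N)
    (k : ℕ) : ∀ v ∈ derivedSeriesOfIdeal F g k N, a v ∈ derivedSeriesOfIdeal F g k N := by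
  induction k with
  | zero => exact hN
  | succ k ih =>
    rw [derivedSeriesOfIdeal_succ]
    set D := derivedSeriesOfIdeal F g k N
    have : ⁅D, D⁆ ≤ LieIdeal.comap h.equiv.toLieHom ⁅D, D⁆ :=
      (LieSubmodule.lie_le_iff _ _ _).2 fun x hx y hy => by
        show a ⁅x, y⁆ ∈ ⁅D, D⁆
        rw [h.lie]
        exact LieSubmodule.lie_mem_lie (ih x hx) (ih y hy)
    exact fun v hv => this hv

/-- A nonzero abelian ideal that is stable under all automorphisms. -/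
theorem exists_ab [CharZero F] [FiniteDimensional F g] (hK : ¬IsKilling F g) :
    ∃ W : LieIdeal F g, W ≠ ⊥ ∧ (∀ x ∈ W, ∀ y ∈ W, ⁅x, y⁆ = 0) ∧
      ∀ a : Module.End F g, IsAut a → ∀ v ∈ W, a v ∈ W := by
  classical
  set N := LieIdeal.killingCompl F g ⊤ with hN
  have h0 : N ≠ ⊥ := fun h => hK ⟨h⟩
  have hs : IsSolvable N := le_solvable_ideal_solvable (killingCompl_top_le_radical F g)
    inferInstance
  have he : ∃ k, derivedSeriesOfIdeal F g k N = ⊥ :=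
    (IsSolvable.solvable F N).imp fun k hk => (N.derivedSeries_eq_bot_iff k).1 hk
  have h1 := Nat.find_spec he
  obtain ⟨k, hk⟩ : ∃ k, Nat.find he = k + 1 :=
    Nat.exists_eq_succ_of_ne_zero fun hh => h0 (by rwa [hh] at h1)
  refine ⟨derivedSeriesOfIdeal F g k N, Nat.find_min he (by omega), fun x hx y hy => ?_,
    fun a ha => der_inv ha (fun v hv => ?_) k⟩
  · have := LieSubmodule.lie_mem_lie hx hy
    rwa [← derivedSeriesOfIdeal_succ, ← hk, h1, LieSubmodule.mem_bot] at this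
  · refine (LieIdeal.mem_killingCompl F g ⊤).2 fun y _ => ?_
    obtain ⟨z, rfl⟩ := ha.bij.2 y
    rw [ha.killing]
    exact (LieIdeal.mem_killingCompl F g ⊤).1 hv z (LieSubmodule.mem_top z)

/-- The quotient map. -/
def mkL (W : LieIdeal F g) : g →ₗ⁅F⁆ g ⧸ W :=
  { W.toSubmodule.mkQ with map_lie' := fun {x y} => LieSubmodule.Quotient.mk_bracket W x y }

theorem mkL_surj (W : LieIdeal F g) : Function.Surjective (mkL W) := W.toSubmodule.mkQ_surjective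

theorem mkL_eq (W : LieIdeal F g) {x y : g} (h : mkL W x = mkL W y) : x - y ∈ W :=
  (Submodule.Quotient.eq W.toSubmodule).1 h

variable {G : Type} [Group G]

/-- The action on the quotient. -/
theorem exists_rep (ρ : G →* Module.End F g) (W : LieIdeal F g) (hW : ∀ a, ∀ v ∈ W, ρ a v ∈ W) :
    ∃ ρ' : G →* Module.End F (g ⧸ W), ∀ a v, ρ' a (mkL W v) = mkL W (ρ a v) := by
  let f : G → Module.End F (g ⧸ W) := fun a =>
    Submodule.mapQ W.toSubmodule W.toSubmodule (ρ a) (hW a)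
  have hf : ∀ a v, f a (mkL W v) = mkL W (ρ a v) := fun a v => rfl
  refine ⟨⟨⟨f, ?_⟩, fun a b => ?_⟩, hf⟩
  · ext1 v
    obtain ⟨v, rfl⟩ := mkL_surj W v
    rw [hf, rep_one]; rfl
  · ext1 v
    obtain ⟨v, rfl⟩ := mkL_surj W v
    simp only [Module.End.mul_apply, hf, rep_mul]

/-- The last step: an abelian ideal that supplements `u` lies in `u`. -/
theorem ab_le [Infinite F] (ρ : G →* Module.End F g) (W : LieIdeal F g) (u : LieSubalgebra F g)
    (T : Finset G) (hW : ∀ a, ∀ v ∈ W, ρ a v ∈ W) (hab : ∀ x ∈ W, ∀ y ∈ W, ⁅x, y⁆ = 0)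
    (hs : ∀ z, ∃ x ∈ u, x - z ∈ W) (cov : ∀ z, ∃ a, ρ a z ∈ u)
    (hT : ∀ a, ∃ t ∈ T, ∀ I : LieIdeal F g, ∀ v ∈ I, ρ (t⁻¹ * a) v ∈ I) : u = ⊤ := by
  let J : LieIdeal F g :=
    { u.toSubmodule ⊓ W.toSubmodule with
      lie_mem := fun {z y} hy => by
        obtain ⟨x, hx, hz⟩ := hs z
        refine ⟨?_, W.lie_mem hy.2⟩
        have : ⁅z, y⁆ = ⁅x, y⁆ := by
          rw [← sub_eq_zero, ← neg_sub, ← sub_lie, hab _ hz _ hy.2, neg_zero]
        rw [this]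
        exact u.lie_mem hx hy.1 }
  have hu : ∀ w ∈ W, w ∈ u := by
    by_contra hn
    obtain ⟨x, hx⟩ := Submodule.exists_forall_notMem_of_forall_ne_top
      (fun t : T => (u.toSubmodule.comap (ρ (t : G)⁻¹)).comap W.toSubmodule.subtype) fun t ht =>
        hn fun w hw => by
          have : (⟨ρ t w, hW _ _ hw⟩ : W.toSubmodule) ∈
            (u.toSubmodule.comap (ρ (t : G)⁻¹)).comap W.toSubmodule.subtype := ht ▸ trivial
          have h2 : ρ (t : G)⁻¹ (ρ t w) ∈ u := this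
          rwa [rep_inv_left] at h2
    obtain ⟨a, ha⟩ := cov x
    obtain ⟨t, ht, h⟩ := hT a⁻¹
    have := (h J (ρ a x) ⟨ha, hW _ _ x.2⟩).1
    rw [rep_mul, rep_inv_left] at this
    exact hx ⟨t, ht⟩ this
  refine eq_top_iff.2 fun z _ => ?_
  obtain ⟨x, hx, hz⟩ := hs z
  simpa using u.sub_mem hx (hu _ hz)

end Field

theorem main (h : S_SS) (p : ℕ) [Fact p.Prime] (r : ℕ) (G : Type) [Group G] (H : Subgroup G)
    (σ : G) (T : Finset G) (n : ℕ) : ∀ (g : Type) [LieRing g] [LieAlgebra ℚ_[p] g]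
    [Module ℤ_[p] g] [IsScalarTower ℤ_[p] ℚ_[p] g] [FiniteDimensional ℚ_[p] g]
    (ρ : G →* Module.End ℚ_[p] g) (Λ : Submodule ℤ_[p] g) (u : LieSubalgebra ℚ_[p] g),
    finrank ℚ_[p] g = n → Hyp p r H σ ρ Λ u →
    (∀ a, ∃ t ∈ T, ∀ I : LieIdeal ℚ_[p] g, ∀ v ∈ I, ρ (t⁻¹ * a) v ∈ I) → u = ⊤ := by
  induction n using Nat.strong_induction_on with
  | _ n ih =>
    intro g _ _ _ _ _ ρ Λ u hn hy hT
    by_cases hK : IsKilling ℚ_[p] g
    · exact h p r g G H σ ρ Λ u hy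
    obtain ⟨W, h0, hab, hW⟩ := exists_ab hK
    have hW' : ∀ a, ∀ v ∈ W, ρ a v ∈ W := fun a => hW _ (hy.aut a)
    obtain ⟨ρ', hρ⟩ := exists_rep ρ W hW'
    let π : g →ₗ[ℤ_[p]] g ⧸ W := (mkL W).toLinearMap.restrictScalars ℤ_[p]
    have hπ : ∀ v, π v = mkL W v := fun _ => rfl
    have hlt : finrank ℚ_[p] (g ⧸ W) < n := by
      have a1 := Submodule.finrank_quotient_add_finrank W.toSubmodule
      have a2 : finrank ℚ_[p] W.toSubmodule ≠ 0 := fun hh =>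
        h0 ((LieSubmodule.toSubmodule_eq_bot W).1 (Submodule.finrank_eq_zero.1 hh))
      change finrank ℚ_[p] (g ⧸ W.toSubmodule) < n
      omega
    have key := ih _ hlt (g ⧸ W) ρ' (Λ.map π) (u.map (mkL W)) rfl
      ⟨hy.prime, hy.five, hy.ne, hy.dec, ⟨hy.act.normal, ⟨hy.act.lat.fg.map π, fun v => ?_⟩,
        ?_, fun a ha m => ?_⟩, fun a x y => ?_, fun z => ?_⟩ fun a => ?_
    · refine ab_le ρ W u T hW' hab (fun z => ?_) hy.cov hT
      obtain ⟨x, hx, e⟩ : mkL W z ∈ u.map (mkL W) := key ▸ trivial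
      exact ⟨x, hx, mkL_eq W e⟩
    · obtain ⟨v, rfl⟩ := mkL_surj W v
      obtain ⟨k, hk⟩ := hy.act.lat.span v
      exact ⟨k, _, hk, by rw [hπ, map_nsmul]⟩
    · rintro a _ ⟨v, hv, rfl⟩
      exact ⟨_, hy.act.stab a v hv, by rw [hπ, hπ, hρ]⟩
    · obtain ⟨N, hN⟩ := hy.act.uni a ha m
      refine ⟨N, ?_⟩
      rintro _ ⟨v, hv, rfl⟩
      obtain ⟨w, hw, e⟩ := hN v hv
      exact ⟨π w, ⟨w, hw, rfl⟩, by rw [hπ, hπ, hρ, e, map_add, map_nsmul]⟩
    · obtain ⟨x, rfl⟩ := mkL_surj W x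
      obtain ⟨y, rfl⟩ := mkL_surj W y
      rw [← LieHom.map_lie, hρ, hρ, hρ, hy.lie, LieHom.map_lie]
    · obtain ⟨z, rfl⟩ := mkL_surj W z
      obtain ⟨a, ha⟩ := hy.cov z
      exact ⟨a, _, ha, (hρ a z).symm⟩
    · obtain ⟨t, ht, hI⟩ := hT a
      refine ⟨t, ht, fun I v hv => ?_⟩
      obtain ⟨v, rfl⟩ := mkL_surj W v
      rw [hρ]
      exact hI (I.comap (mkL W)) v hv

end LieP

theorem lie_ok (h : S_SS) : S_Lie := fun p _ r g _ _ _ _ _ G _ H σ ρ Λ u T hy hT =>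
  LieP.main h p r G H σ T _ g ρ Λ u rfl hy hT

end Pool.Agent.P.MP_169bcc_al.BR
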