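import Pool.Agent.P.MP_169bcc_al.BR.Base

/-!
Package LieZ.
-/

open scoped commutatorElement TensorProduct
open LieAlgebra LieSubalgebra Module

noncomputable section

namespace Pool.Agent.P.MP_169bcc_al.BR

namespace LieZP

variable {p : ℕ} [Fact p.Prime]

theorem p_ne : ((p : ℕ) : ℤ_[p]) ≠ 0 := Nat.cast_ne_zero.2 (Fact.out : p.Prime).ne_zero

/-- A nonzero `p`-adic integer divides a power of `p`. -/
theorem dvd_pow {s : ℤ_[p]} (hs : s ≠ 0) : ∃ (k : ℕ) (t : ℤ_[p]), t * s = (p : ℤ_[p]) ^ k := by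
  refine ⟨s.valuation, ((PadicInt.unitCoeff hs)⁻¹ : ℤ_[p]ˣ), ?_⟩
  have h := PadicInt.unitCoeff_spec hs
  generalize PadicInt.unitCoeff hs = w at h
  generalize s.valuation = k at h
  rw [h, ← mul_assoc, Units.inv_mul, one_mul]

/-- Denominators are powers of `p`. -/
theorem clear (c : ℚ_[p]) :
    ∃ (k : ℕ) (a : ℤ_[p]), ((p : ℚ_[p]) ^ k) * c = algebraMap ℤ_[p] ℚ_[p] a := by
  obtain ⟨⟨a, s⟩, h⟩ := IsLocalization.surj (nonZeroDivisors ℤ_[p]) c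
  obtain ⟨k, t, ht⟩ := dvd_pow (nonZeroDivisors.ne_zero s.2)
  refine ⟨k, t * a, ?_⟩
  have h2 : ((p : ℚ_[p]) ^ k) = algebraMap ℤ_[p] ℚ_[p] t * algebraMap ℤ_[p] ℚ_[p] s := by
    rw [← map_mul, ht, map_pow, map_natCast]
  rw [h2, map_mul, mul_assoc, mul_comm _ c]
  exact congrArg _ h

variable {L : Type} [LieRing L] [LieAlgebra ℤ_[p] L]

/-- The canonical map to the base change. -/
def j : L →ₗ[ℤ_[p]] ℚ_[p] ⊗[ℤ_[p]] L := TensorProduct.mk ℤ_[p] ℚ_[p] L 1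

theorem j_apply (x : L) : j (p := p) x = (1 : ℚ_[p]) ⊗ₜ[ℤ_[p]] x := rfl

theorem j_lie (x y : L) : j (p := p) ⁅x, y⁆ = ⁅j (p := p) x, j (p := p) y⁆ := by
  rw [j_apply, j_apply, j_apply, LieAlgebra.ExtendScalars.bracket_tmul, one_mul]

theorem j_ker {x : L} (h : j (p := p) x = 0) : ∃ k : ℕ, p ^ k • x = 0 := by
  have : IsLocalizedModule (nonZeroDivisors ℤ_[p]) (j (p := p) (L := L)) :=
    (isLocalizedModule_iff_isBaseChange (nonZeroDivisors ℤ_[p]) ℚ_[p] _).2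
      (TensorProduct.isBaseChange ℤ_[p] L ℚ_[p])
  obtain ⟨s, hs⟩ := (IsLocalizedModule.eq_zero_iff (nonZeroDivisors ℤ_[p]) (j (p := p))).1 h
  obtain ⟨k, t, ht⟩ := dvd_pow (nonZeroDivisors.ne_zero s.2)
  refine ⟨k, ?_⟩
  have hs' : (s : ℤ_[p]) • x = 0 := hs
  rw [← Nat.cast_smul_eq_nsmul ℤ_[p], Nat.cast_pow, ← ht, mul_smul, hs', smul_zero]

theorem span_clear (N : Submodule ℤ_[p] L) {v : ℚ_[p] ⊗[ℤ_[p]] L}
    (hv : v ∈ Submodule.span ℚ_[p] (j (p := p) '' (N : Set L))) :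
    ∃ k : ℕ, ∃ x ∈ N, p ^ k • v = j (p := p) x := by
  induction hv using Submodule.span_induction with
  | mem v hv =>
    obtain ⟨x, hx, rfl⟩ := hv
    exact ⟨0, x, hx, by rw [pow_zero, one_smul]⟩
  | zero => exact ⟨0, 0, N.zero_mem, by rw [smul_zero, map_zero]⟩
  | add v w _ _ hv hw =>
    obtain ⟨k, x, hx, h1⟩ := hv
    obtain ⟨l, y, hy, h2⟩ := hw
    refine ⟨k + l, p ^ l • x + p ^ k • y, N.add_mem (nsmul_mem hx _) (nsmul_mem hy _), ?_⟩
    rw [map_add, map_nsmul, map_nsmul, ← h1, ← h2, smul_add, smul_smul, smul_smul, ← pow_add,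
      ← pow_add, add_comm l k]
  | smul c v _ hv =>
    obtain ⟨k, x, hx, h1⟩ := hv
    obtain ⟨l, a, h2⟩ := clear c
    refine ⟨l + k, a • x, N.smul_mem a hx, ?_⟩
    rw [map_smul, ← h1, ← algebraMap_smul ℚ_[p] a, ← h2, ← Nat.cast_smul_eq_nsmul ℚ_[p],
      ← Nat.cast_smul_eq_nsmul ℚ_[p], smul_smul, smul_smul]
    congr 1
    push_cast
    ring

theorem span_top (v : ℚ_[p] ⊗[ℤ_[p]] L) :
    v ∈ Submodule.span ℚ_[p] (j (p := p) '' ((⊤ : Submodule ℤ_[p] L) : Set L)) := by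
  induction v using TensorProduct.induction_on with
  | zero => exact Submodule.zero_mem _
  | tmul c x =>
    have : c ⊗ₜ[ℤ_[p]] x = c • j (p := p) x := by
      rw [j_apply, TensorProduct.smul_tmul', smul_eq_mul, mul_one]
    rw [this]
    exact Submodule.smul_mem _ _ (Submodule.subset_span ⟨x, trivial, rfl⟩)
  | add v w hv hw => exact Submodule.add_mem _ hv hw

theorem all_clear (v : ℚ_[p] ⊗[ℤ_[p]] L) : ∃ (k : ℕ) (x : L), p ^ k • v = j (p := p) x := by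
  obtain ⟨k, x, _, h⟩ := span_clear ⊤ (span_top v)
  exact ⟨k, x, h⟩

/-- The span of a subalgebra. -/
def uM (M : LieSubalgebra ℤ_[p] L) : LieSubalgebra ℚ_[p] (ℚ_[p] ⊗[ℤ_[p]] L) :=
  { Submodule.span ℚ_[p] (j (p := p) '' (M.toSubmodule : Set L)) with
    lie_mem' := by
      intro v w hv hw
      have hv' : v ∈ Submodule.span ℚ_[p] (j (p := p) '' (M.toSubmodule : Set L)) := hv
      have hw' : w ∈ Submodule.span ℚ_[p] (j (p := p) '' (M.toSubmodule : Set L)) := hw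
      obtain ⟨k, x, hx, h1⟩ := span_clear _ hv'
      obtain ⟨l, y, hy, h2⟩ := span_clear _ hw'
      show ⁅v, w⁆ ∈ Submodule.span ℚ_[p] (j (p := p) '' (M.toSubmodule : Set L))
      refine mem_of_nsmul_mem (k := k) (mem_of_nsmul_mem (k := l) ?_)
      rw [← nsmul_lie, ← lie_nsmul, h1, h2, ← j_lie]
      exact Submodule.subset_span ⟨_, M.lie_mem hx hy, rfl⟩ }

theorem mem_uM (M : LieSubalgebra ℤ_[p] L) (v : ℚ_[p] ⊗[ℤ_[p]] L) :
    v ∈ uM M ↔ v ∈ Submodule.span ℚ_[p] (j (p := p) '' (M.toSubmodule : Set L)) := Iff.rfl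

variable {G : Type} [Group G]

/-- Base change of a representation. -/
def rho (ρ : G →* Module.End ℤ_[p] L) : G →* Module.End ℚ_[p] (ℚ_[p] ⊗[ℤ_[p]] L) where
  toFun a := (ρ a).baseChange ℚ_[p]
  map_one' := by rw [map_one, LinearMap.baseChange_one]
  map_mul' a b := by rw [map_mul, LinearMap.baseChange_mul]

theorem rho_j (ρ : G →* Module.End ℤ_[p] L) (a : G) (x : L) :
    rho ρ a (j (p := p) x) = j (p := p) (ρ a x) := by
  show (ρ a).baseChange ℚ_[p] (j (p := p) x) = _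
  rw [j_apply, j_apply, LinearMap.baseChange_tmul]

theorem rho_lie (ρ : G →* Module.End ℤ_[p] L) (h : ∀ a (x y : L), ρ a ⁅x, y⁆ = ⁅ρ a x, ρ a y⁆)
    (a : G) (v w : ℚ_[p] ⊗[ℤ_[p]] L) : rho ρ a ⁅v, w⁆ = ⁅rho ρ a v, rho ρ a w⁆ := by
  obtain ⟨k, x, h1⟩ := all_clear v
  obtain ⟨l, y, h2⟩ := all_clear w
  refine nsmul_cancel (p := p) (k := k) (nsmul_cancel (p := p) (k := l) ?_)
  rw [← map_nsmul, ← map_nsmul, ← nsmul_lie, ← lie_nsmul, ← nsmul_lie, ← lie_nsmul,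
    ← map_nsmul, ← map_nsmul, h1, h2, ← j_lie, rho_j, rho_j, rho_j, h, j_lie]

theorem lat [Module.Finite ℤ_[p] L] : Lat p (LinearMap.range (j (p := p) (L := L))) := by
  refine ⟨?_, fun v => ?_⟩
  · rw [LinearMap.range_eq_map]
    exact Module.Finite.fg_top.map _
  · obtain ⟨k, x, h⟩ := all_clear v
    exact ⟨k, x, h.symm⟩

theorem uniform [Module.Finite ℤ_[p] L] (N : Submodule ℤ_[p] L)
    (h : ∀ x : L, ∃ k : ℕ, p ^ k • x ∈ N) : ∃ k : ℕ, ∀ x : L, p ^ k • x ∈ N := by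
  obtain ⟨s, hs⟩ := Module.Finite.fg_top (R := ℤ_[p]) (M := L)
  choose k hk using h
  refine ⟨s.sup k, fun x => ?_⟩
  have hx : x ∈ Submodule.span ℤ_[p] (s : Set L) := hs ▸ Submodule.mem_top
  induction hx using Submodule.span_induction with
  | mem x hx =>
    obtain ⟨d, hd⟩ := Nat.exists_eq_add_of_le (Finset.le_sup (f := k) hx)
    rw [hd, pow_add, mul_comm, mul_smul]
    exact nsmul_mem (hk x) _
  | zero => rw [smul_zero]; exact N.zero_mem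
  | add x y _ _ hx hy => rw [smul_add]; exact N.add_mem hx hy
  | smul c x _ hx => rw [smul_comm]; exact N.smul_mem c hx

end LieZP

open LieZP in
theorem lieZ_ok (h1 : S_Nak) (h2 : S_Lie) : S_LieZ := by
  intro p _ r L _ _ _ G _ H σ ρ M T hr h5 hne hdec hlie hcov huni hlink
  have hu : uM M = ⊤ := by
    refine h2 p r (ℚ_[p] ⊗[ℤ_[p]] L) G H σ (rho ρ) (LinearMap.range (j (p := p) (L := L))) (uM M) T
      ⟨hr, h5, hne, hdec, ⟨hdec.normal, lat, ?_, ?_⟩, rho_lie ρ hlie, ?_⟩ ?_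
    · rintro a _ ⟨x, rfl⟩
      exact ⟨ρ a x, (rho_j ρ a x).symm⟩
    · intro h hh m
      obtain ⟨N, hN⟩ := huni h hh m
      refine ⟨N, ?_⟩
      rintro _ ⟨x, rfl⟩
      obtain ⟨v, hv⟩ := hN x
      exact ⟨_, ⟨v, rfl⟩, by rw [rho_j, hv, map_add, map_nsmul]⟩
    · intro z
      obtain ⟨k, x, hx⟩ := all_clear z
      obtain ⟨a, ha⟩ := hcov x
      refine ⟨a, (mem_uM M _).2 (mem_of_nsmul_mem (k := k) ?_)⟩
      rw [← map_nsmul, hx, rho_j]
      exact Submodule.subset_span ⟨_, ha, rfl⟩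
    · intro a
      obtain ⟨t, ht, X, hX1, hX2⟩ := hlink a
      refine ⟨t, ht, fun I v hv => ?_⟩
      refine h1 p (ℚ_[p] ⊗[ℤ_[p]] L) (LinearMap.range (j (p := p) (L := L))) (rho ρ (t⁻¹ * a))
        (ad ℚ_[p] _ (j (p := p) X)) I.toSubmodule lat ?_ ?_ ?_ v hv
      · rintro _ ⟨y, rfl⟩
        obtain ⟨w, hw⟩ := hX1 y
        exact ⟨_, ⟨w, rfl⟩, by rw [rho_j, hw, map_add, map_nsmul]⟩
      · rintro i _ ⟨y, rfl⟩
        obtain ⟨w, hw⟩ := hX2 i y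
        refine ⟨_, ⟨w, rfl⟩, ?_⟩
        rw [← map_pow, rho_j, hw, map_add, map_add, map_nsmul, map_nsmul, ad_apply, j_lie]
      · intro w hw
        exact I.lie_mem hw
  refine uniform M.toSubmodule fun x => ?_
  have hx : j (p := p) x ∈ uM M := hu ▸ LieSubalgebra.mem_top _
  obtain ⟨k, y, hy, h⟩ := span_clear _ ((mem_uM M _).1 hx)
  obtain ⟨l, hl⟩ := j_ker (p := p) (x := p ^ k • x - y) (by rw [map_sub, map_nsmul, h, sub_self])
  refine ⟨l + k, ?_⟩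
  rw [smul_sub, sub_eq_zero, smul_smul, ← pow_add] at hl
  rw [hl]
  exact nsmul_mem hy _

end Pool.Agent.P.MP_169bcc_al.BR
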