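import Pool.Agent.P.MP_169bcc_al.BR.Base

/-!
Package Lim: the ultralimit of the Lie rings of longer and longer windows.
-/

open Filter

noncomputable section

namespace Pool.Agent.P.MP_169bcc_al.BR

namespace LimP

/-- The ultrafilter. -/
abbrev UU : Filter ℕ := (hyperfilter ℕ : Filter ℕ)

theorem ev_ge (k : ℕ) : ∀ᶠ n in UU, k ≤ n :=
  Nat.hyperfilter_le_atTop (eventually_ge_atTop k)

theorem dchoice {X : ℕ → Type} [∀ n, Nonempty (X n)] {r : ∀ n, X n → Prop}
    (h : ∀ᶠ n in UU, ∃ v, r n v) : ∃ f : ∀ n, X n, ∀ᶠ n in UU, r n (f n) := by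
  classical
  refine ⟨fun n => if h : ∃ v, r n v then h.choose else Classical.arbitrary _,
    h.mono fun n hn => ?_⟩
  simp only [dif_pos hn]
  exact hn.choose_spec

theorem exists_lim {p : ℕ} [Fact p.Prime] (c : ℕ → ℤ_[p]) :
    ∃ a : ℤ_[p], ∀ m : ℕ, ∀ᶠ n in UU, ∃ e : ℤ_[p], c n - a = (p : ℤ_[p]) ^ m * e := by
  obtain ⟨a, -, ha⟩ := isCompact_univ.ultrafilter_le_nhds ((hyperfilter ℕ).map c) (by simp)
  refine ⟨a, fun m => ?_⟩
  have hp : (0 : ℝ) < (p : ℝ) ^ (-m : ℤ) :=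
    zpow_pos (Nat.cast_pos.2 (Fact.out : p.Prime).pos) _
  have := ha (Metric.closedBall_mem_nhds a hp)
  refine (show ∀ᶠ n in UU, c n ∈ Metric.closedBall a _ from this).mono fun n hn => ?_
  rw [Metric.mem_closedBall, dist_eq_norm, PadicInt.norm_le_pow_iff_mem_span_pow,
    Ideal.mem_span_singleton] at hn
  exact hn

variable {p : ℕ} [Fact p.Prime] {B : ℕ} {A : ℕ → Type} [∀ n, Group (A n)]
  {H : ∀ n, Subgroup (A n)} (D : ∀ n, WD p (n + 1) B (A n) (H n))

/-- The product of the Lie rings. -/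
def L0 : Type := ∀ n, (D n).L

instance : AddCommGroup (L0 D) := inferInstanceAs (AddCommGroup (∀ n, (D n).L))

instance : Module ℤ_[p] (L0 D) := inferInstanceAs (Module ℤ_[p] (∀ n, (D n).L))

instance : LieRing (L0 D) where
  bracket x y := fun n => ⁅x n, y n⁆
  add_lie x y z := funext fun n => add_lie (x n) (y n) (z n)
  lie_add x y z := funext fun n => lie_add (x n) (y n) (z n)
  lie_self x := funext fun n => lie_self (x n)
  leibniz_lie x y z := funext fun n => leibniz_lie (x n) (y n) (z n)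

instance : LieAlgebra ℤ_[p] (L0 D) where
  lie_smul c x y := funext fun n => lie_smul c (x n) (y n)

theorem sum_apply {ι : Type} (s : Finset ι) (f : ι → L0 D) (n : ℕ) :
    (∑ i ∈ s, f i) n = ∑ i ∈ s, f i n := Finset.sum_apply n s f

/-- The infinitesimal elements. -/
def II : LieIdeal ℤ_[p] (L0 D) where
  carrier := {x | ∀ m : ℕ, ∀ᶠ n in UU, ∃ v, x n = p ^ m • v}
  zero_mem' m := .of_forall fun n => ⟨0, (smul_zero _).symm⟩
  add_mem' {x y} hx hy m := ((hx m).and (hy m)).mono fun n ⟨⟨v, hv⟩, w, hw⟩ =>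
    ⟨v + w, by rw [smul_add, ← hv, ← hw]; rfl⟩
  smul_mem' c x hx m := (hx m).mono fun n ⟨v, hv⟩ =>
    ⟨c • v, by rw [smul_comm, ← hv]; rfl⟩
  lie_mem {x y} hy m := (hy m).mono fun n ⟨v, hv⟩ =>
    ⟨⁅x n, v⁆, by rw [← lie_nsmul, ← hv]; rfl⟩

/-- The limit Lie ring. -/
abbrev LL : Type := L0 D ⧸ II D

/-- The projection. -/
def mk : L0 D →ₗ⁅ℤ_[p]⁆ LL D where
  toLinearMap := (II D).toSubmodule.mkQ
  map_lie' := rfl

theorem mk_surj : Function.Surjective (mk D) := (II D).toSubmodule.mkQ_surjective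

theorem mk_eq {x y : L0 D} :
    mk D x = mk D y ↔ ∀ m : ℕ, ∀ᶠ n in UU, ∃ v, x n - y n = p ^ m • v :=
  Submodule.Quotient.eq (II D).toSubmodule

theorem mk_eq_of {x y : L0 D} (h : ∀ᶠ n in UU, x n = y n) : mk D x = mk D y :=
  (mk_eq D).2 fun m => h.mono fun n hn => ⟨0, by rw [hn, sub_self, smul_zero]⟩

theorem eq_add_of {x y : L0 D} {m : ℕ} (h : ∀ᶠ n in UU, ∃ v, x n = y n + p ^ m • v) :
    ∃ v, mk D x = mk D y + p ^ m • v := by
  obtain ⟨f, hf⟩ : ∃ f : L0 D, ∀ᶠ n in UU, x n = y n + p ^ m • f n := dchoice h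
  refine ⟨mk D f, ?_⟩
  rw [← map_nsmul, ← map_add]
  exact mk_eq_of D hf

/-- The action on the product. -/
def ρ0 (a : ∀ n, A n) : Module.End ℤ_[p] (L0 D) where
  toFun x := fun n => (D n).ρ (a n) (x n)
  map_add' x y := funext fun n => map_add _ (x n) (y n)
  map_smul' c x := funext fun n => map_smul _ c (x n)

theorem ρ0_mem (a : ∀ n, A n) : (II D).toSubmodule ≤ (II D).toSubmodule.comap (ρ0 D a) :=
  fun _ hx m => (hx m).mono fun n ⟨v, hv⟩ =>
    ⟨(D n).ρ (a n) v, by rw [← map_nsmul, ← hv]; rfl⟩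

/-- The action on the limit. -/
def ρ1 : (∀ n, A n) →* Module.End ℤ_[p] (LL D) where
  toFun a := Submodule.mapQ _ _ (ρ0 D a) (ρ0_mem D a)
  map_one' := LinearMap.ext fun x => by
    obtain ⟨x, rfl⟩ := mk_surj D x
    exact congrArg (mk D) (funext fun n => rep_one (D n).ρ (x n))
  map_mul' a b := LinearMap.ext fun x => by
    obtain ⟨x, rfl⟩ := mk_surj D x
    exact congrArg (mk D) (funext fun n => rep_mul (D n).ρ (a n) (b n) (x n))

theorem ρ1_mk (a : ∀ n, A n) (x : L0 D) : ρ1 D a (mk D x) = mk D (ρ0 D a x) := rfl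

/-- The product of the subrings. -/
def M0 : LieSubalgebra ℤ_[p] (L0 D) where
  carrier := {x | ∀ n, x n ∈ (D n).M}
  zero_mem' n := (D n).M.zero_mem
  add_mem' hx hy n := (D n).M.add_mem (hx n) (hy n)
  smul_mem' c _ hx n := (D n).M.smul_mem c (hx n)
  lie_mem' hx hy n := (D n).M.lie_mem (hx n) (hy n)

theorem fin : Module.Finite ℤ_[p] (LL D) := by
  let g : Fin B → L0 D := fun s n => (D n).g s
  refine ⟨Submodule.fg_def.2 ⟨Set.range fun s => mk D (g s), Set.finite_range _,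
    eq_top_iff.2 fun x _ => ?_⟩⟩
  obtain ⟨x, rfl⟩ := mk_surj D x
  choose c hc using fun n => (D n).span (x n)
  choose a ha using fun s => exists_lim fun n => c n s
  have e : mk D x = mk D (∑ s, a s • g s) := by
    refine (mk_eq D).2 fun m => (eventually_all.2 fun s => ha s m).mono fun n hn => ?_
    choose e he using hn
    refine ⟨∑ s, e s • (D n).g s, ?_⟩
    rw [hc n, sum_apply, ← Finset.sum_sub_distrib, Finset.smul_sum]
    refine Finset.sum_congr rfl fun s _ => ?_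
    show c n s • (D n).g s - a s • (D n).g s = _
    rw [← sub_smul, he, mul_smul, ← Nat.cast_pow, Nat.cast_smul_eq_nsmul]
  rw [e, map_sum]
  exact Submodule.sum_mem _ fun s _ => by
    rw [map_smul]
    exact Submodule.smul_mem _ _ (Submodule.subset_span ⟨s, rfl⟩)

variable (H) in
/-- The limit of the normal subgroups. -/
def HH : Subgroup (∀ n, A n) where
  carrier := {a | ∀ᶠ n in UU, a n ∈ H n}
  one_mem' := .of_forall fun n => (H n).one_mem
  mul_mem' ha hb := (ha.and hb).mono fun n h => (H n).mul_mem h.1 h.2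
  inv_mem' ha := ha.mono fun n h => (H n).inv_mem h

theorem dec {r : ℕ} (hr : 0 < r) {σ : ∀ n, A n} (h : ∀ n, Dec r (H n) (σ n)) :
    Dec r (HH H) σ := by
  refine ⟨⟨fun a ha b => ha.mono fun n hn => (h n).normal.conj_mem _ hn _⟩,
    funext fun n => (h n).pow, fun a => ?_⟩
  have : ∀ᶠ n in UU, ∃ i : Fin r, a n * (σ n ^ (i : ℕ))⁻¹ ∈ H n := by
    refine .of_forall fun n => ?_
    obtain ⟨i, hi, g, hg, e⟩ := (h n).left hr (a n)
    refine ⟨⟨i, hi⟩, ?_⟩
    rw [e]
    exact (h n).normal.conj_mem _ hg _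
  obtain ⟨i, hi⟩ := (hyperfilter ℕ).eventually_exists_iff.1 this
  exact ⟨i, hi⟩

include D in
theorem false_of (h : S_LieZ) {r : ℕ} (hr : r.Prime) (h5 : 5 ≤ r) (hne : p ≠ r) {σ : ∀ n, A n}
    (hσ : ∀ n, Dec r (H n) (σ n)) : False := by
  classical
  have := fin D
  let t : Fin B → ∀ n, A n := fun s n => (D n).t s
  obtain ⟨k, hk⟩ := h p r (LL D) (∀ n, A n) (HH H) σ (ρ1 D) ((M0 D).map (mk D))
    (Finset.univ.image t) hr h5 hne (dec hr.pos hσ) (fun a x y => by
      obtain ⟨x, rfl⟩ := mk_surj D x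
      obtain ⟨y, rfl⟩ := mk_surj D y
      rw [← LieHom.map_lie, ρ1_mk, ρ1_mk, ρ1_mk, ← LieHom.map_lie]
      exact congrArg (mk D) (funext fun n => (D n).lie (a n) (x n) (y n)))
    (fun x => by
      obtain ⟨x, rfl⟩ := mk_surj D x
      choose a ha using fun n => (D n).cov (x n)
      exact ⟨a, ρ0 D a x, ha, rfl⟩)
    (fun g hg m => ⟨B + m, fun x => by
      obtain ⟨x, rfl⟩ := mk_surj D x
      rw [ρ1_mk]
      exact eq_add_of D (hg.mono fun n hn => (D n).uni (g n) hn m (x n))⟩)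
    (fun a => by
      obtain ⟨s, hs⟩ := (hyperfilter ℕ).eventually_exists_iff.1
        (Eventually.of_forall fun n => (D n).link (a n))
      obtain ⟨X', hX⟩ := dchoice hs
      obtain ⟨X, rfl⟩ : ∃ X : L0 D, X = X' := ⟨X', rfl⟩
      refine ⟨t s, Finset.mem_image_of_mem _ (Finset.mem_univ s), mk D X, fun y => ?_,
        fun j y => ?_⟩
      · obtain ⟨y, rfl⟩ := mk_surj D y
        rw [ρ1_mk]
        exact eq_add_of D (hX.mono fun n hn => hn.1 (y n))
      · obtain ⟨y, rfl⟩ := mk_surj D y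
        rw [ρ1_mk, ← LieHom.map_lie, ← map_nsmul, ← map_add]
        exact eq_add_of D ((hX.and (ev_ge (2 * j))).mono fun n hn =>
          hn.1.2 j (by omega) (y n)))
  choose x' hx using fun n => (D n).far
  obtain ⟨x, rfl⟩ : ∃ x : L0 D, x = x' := ⟨x', rfl⟩
  obtain ⟨u, hu, e⟩ := hk (mk D x)
  have e' : mk D (p ^ k • x) = mk D u := by rw [map_nsmul]; exact e.symm
  obtain ⟨n, ⟨v, hv⟩, hn⟩ := (((mk_eq D).1 e' (k + 1)).and (ev_ge k)).exists
  exact hx n k (by omega) (u n) (hu n) v (by rw [← hv]; exact (add_sub_cancel _ _).symm)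

end LimP

theorem lim_ok (h : S_LieZ) : S_Lim := by
  intro p _ r B hr h5 hne
  by_contra hn
  push Not at hn
  choose A inst H σ hσ hD using fun n => hn (n + 1) (Nat.succ_pos n)
  exact LimP.false_of (fun n => (hD n).some) h hr h5 hne hσ

end Pool.Agent.P.MP_169bcc_al.BR
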