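import Pool.Agent.P.MP_169bcc_al.BR.Base

/-!
Package Nil.
-/

noncomputable section

namespace Pool.Agent.P.MP_169bcc_al.BR

namespace NilP

/-- In a finite nilpotent group the elements of order prime to `p` are closed under products. -/
theorem mul_pow_one {G : Type} [Group G] [Finite G] [Group.IsNilpotent G] {p k m : ℕ}
    (hp : p.Prime) (hm : p.Coprime m) (hc : Nat.card G = p ^ k * m) {x y : G} (hx : x ^ m = 1)
    (hy : y ^ m = 1) : (x * y) ^ m = 1 := by
  classical
  let e := Sylow.directProductOfNormal (G := G) fun {_} _ _ => inferInstance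
  obtain ⟨u, rfl⟩ := e.surjective x
  obtain ⟨v, rfl⟩ := e.surjective y
  rw [← map_pow, map_eq_one_iff _ e.injective] at hx hy
  rw [← map_mul, ← map_pow, map_eq_one_iff _ e.injective]
  funext q P
  have hq : Nat.Prime q := Nat.prime_of_mem_primeFactors q.2
  have := Fact.mk hq
  have ho : ∀ w : P, ∃ j, orderOf w = (q : ℕ) ^ j := IsPGroup.iff_orderOf.1 P.2
  by_cases h : (q : ℕ) = p
  · have key : ∀ w : P, w ^ m = 1 → w = 1 := fun w hw => by
      obtain ⟨j, hj⟩ := ho w
      have h1 := orderOf_dvd_of_pow_eq_one hw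
      rw [← orderOf_eq_one_iff]
      exact Nat.Coprime.eq_one_of_dvd (by rw [hj, h]; exact hm.pow_left j) h1
    have a := key (u q P) (congrFun (congrFun hx q) P)
    have b := key (v q P) (congrFun (congrFun hy q) P)
    change (u q P * v q P) ^ m = 1
    rw [a, b, one_mul, one_pow]
  · change (u q P * v q P) ^ m = 1
    obtain ⟨j, hj⟩ := ho (u q P * v q P)
    have h1 : orderOf (u q P * v q P) ∣ p ^ k * m :=
      hc ▸ (orderOf_dvd_natCard _).trans (Subgroup.card_subgroup_dvd_card _)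
    refine orderOf_dvd_iff_pow_eq_one.1 (Nat.Coprime.dvd_of_dvd_mul_left ?_ h1)
    rw [hj]
    exact Nat.Coprime.pow _ _ ((Nat.coprime_primes hq hp).2 h)

variable {A : Type} [Group A] [Finite A]

theorem exists_Q (H : Subgroup A) (hH : H.Normal) (hn : Group.IsNilpotent H) {p : ℕ}
    (hp : p.Prime) : ∃ Q : Subgroup A, Q.Normal ∧ Q ≤ H ∧ p.Coprime (Nat.card Q) ∧
      ∃ k, ∀ x ∈ H, x ^ p ^ k ∈ Q := by
  obtain ⟨k, m, hm, hc⟩ := Nat.exists_eq_pow_mul_and_not_dvd (Nat.card_pos (α := H)).ne' p hp.ne_one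
  have hm' := hp.coprime_iff_not_dvd.2 hm
  let Q : Subgroup A :=
    { carrier := {x | x ∈ H ∧ x ^ m = 1}
      one_mem' := ⟨H.one_mem, one_pow _⟩
      inv_mem' := fun h => ⟨H.inv_mem h.1, by rw [inv_pow, h.2, inv_one]⟩
      mul_mem' := fun {x y} hx hy => ⟨H.mul_mem hx.1 hy.1, congrArg Subtype.val
        (mul_pow_one (G := H) hp hm' hc (x := ⟨x, hx.1⟩) (y := ⟨y, hy.1⟩) (Subtype.ext hx.2)
          (Subtype.ext hy.2))⟩ }
  refine ⟨Q, ⟨fun x hx a => ⟨hH.conj_mem x hx.1 a, ?_⟩⟩, fun x hx => hx.1, ?_, k,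
    fun x hx => ⟨H.pow_mem hx _, ?_⟩⟩
  · rw [conj_pow, hx.2, mul_one, mul_inv_cancel]
  · refine hp.coprime_iff_not_dvd.2 fun h => hm ?_
    have := Fact.mk hp
    obtain ⟨x, hx⟩ := exists_prime_orderOf_dvd_card' p h
    rw [← hx]
    exact orderOf_dvd_of_pow_eq_one (Subtype.ext x.2.2)
  · rw [← pow_mul, ← hc]
    exact congrArg Subtype.val (pow_card_eq_one' (x := (⟨x, hx⟩ : H)))

omit [Finite A] in
theorem rank_map {B : Type} [Group B] (f : A →* B) {H : Subgroup A} {d : ℕ} (h : RankLe H d) :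
    RankLe (H.map f) d := by
  classical
  intro K hK
  obtain ⟨S, h1, h2⟩ := h (K.comap f ⊓ H) inf_le_right
  refine ⟨S.image f, Finset.card_image_le.trans h1, ?_⟩
  rw [Finset.coe_image, ← MonoidHom.map_closure, h2]
  refine le_antisymm (Subgroup.map_le_iff_le_comap.2 inf_le_left) fun y hy => ?_
  obtain ⟨x, hx, rfl⟩ := hK hy
  exact ⟨x, ⟨hy, hx⟩, rfl⟩

omit [Finite A] in
theorem cov_map {B : Type} [Group B] (f : A →* B) {H U : Subgroup A} (h : Cov H U) :
    Cov (H.map f) (U.map f) := by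
  rintro _ ⟨x, hx, rfl⟩
  obtain ⟨a, ha⟩ := h x hx
  exact ⟨f a, _, ha, by simp⟩

theorem rel_sup (U Q : Subgroup A) [Q.Normal] : U.relIndex (U ⊔ Q) ∣ Nat.card Q := by
  have h1 := Subgroup.relIndex_mul_relIndex (Q ⊓ U) U (U ⊔ Q) inf_le_right le_sup_left
  have h2 := Subgroup.relIndex_mul_relIndex (Q ⊓ U) Q (U ⊔ Q) inf_le_left le_sup_right
  rw [← h2, Subgroup.inf_relIndex_right, Subgroup.relIndex_sup_right, mul_comm] at h1
  have h0 : Q.relIndex U ≠ 0 := Subgroup.index_ne_zero_of_finite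
  rw [mul_right_cancel₀ h0 h1]
  exact Subgroup.relIndex_dvd_card _ _

/-- The part of the index at one prime. -/
theorem part {p r d b : ℕ} (hp : p.Prime)
    (hb : ∀ (A : Type) [Group A] [Finite A] (H U : Subgroup A), H.Normal → IsPGroup p H →
      H.index = r → RankLe H d → U ≤ H → Cov H U → U.relIndex H ≤ b)
    (H U : Subgroup A) (hH : H.Normal) (hn : Group.IsNilpotent H) (hr : H.index = r)
    (hd : RankLe H d) (hU : U ≤ H) (hc : Cov H U) (j : ℕ) (hj : p ^ j ∣ U.relIndex H) :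
    p ^ j ≤ b := by
  obtain ⟨Q, hQ, hQH, hco, k, hk⟩ := exists_Q H hH hn hp
  have hs := QuotientGroup.mk'_surjective Q
  have h1 := hb (A ⧸ Q) (H.map (QuotientGroup.mk' Q)) (U.map (QuotientGroup.mk' Q))
    (hH.map _ hs) (by
      rintro ⟨_, x, hx, rfl⟩
      refine ⟨k, Subtype.ext ?_⟩
      change QuotientGroup.mk' Q x ^ p ^ k = 1
      rw [← map_pow]
      exact (QuotientGroup.eq_one_iff _).2 (hk x hx))
    (by rw [Subgroup.index_map_eq H hs (by rwa [QuotientGroup.ker_mk']), hr])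
    (rank_map _ hd) (Subgroup.map_mono hU) (cov_map _ hc)
  rw [← Subgroup.relIndex_comap, Subgroup.comap_map_eq, QuotientGroup.ker_mk'] at h1
  rw [← Subgroup.relIndex_mul_relIndex U (U ⊔ Q) H le_sup_left (sup_le hU hQH)] at hj
  have h2 := ((hco.coprime_dvd_right (rel_sup U Q)).pow_left j).dvd_of_dvd_mul_left hj
  exact (Nat.le_of_dvd (Nat.pos_of_ne_zero Subgroup.index_ne_zero_of_finite) h2).trans h1

end NilP

theorem main_ok (h1 : S_Small) (h2 : S_P) : S_Main := by
  intro r d hr h3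
  have key : ∀ p : ℕ, ∃ b, 1 ≤ b ∧ (r ≤ p → b = 1) ∧ (p.Prime → ∀ (A : Type) [Group A] [Finite A]
      (H U : Subgroup A), H.Normal → IsPGroup p H → H.index = r → RankLe H d → U ≤ H →
      Cov H U → U.relIndex H ≤ b) := by
    intro p
    by_cases hp : p.Prime
    swap
    · exact ⟨1, le_rfl, fun _ => rfl, fun h => absurd h hp⟩
    by_cases hpr : r ≤ p
    · refine ⟨1, le_rfl, fun _ => rfl, fun _ A _ _ H U a b c _ e f => ?_⟩
      rw [h1 p A H U hp a b (c ▸ hpr) e f, Subgroup.relIndex_self]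
    · have h5 : 5 ≤ r := by
        have := hp.two_le
        exact hr.five_le_of_ne_two_of_ne_three (by omega) h3
      obtain ⟨b, hb⟩ := h2 p r d hp hr h5 (by omega)
      exact ⟨max 1 b, le_max_left _ _, fun h => absurd h hpr, fun _ A _ _ H U a b c e _ f =>
        (hb A H U a b c e f).trans (le_max_right _ _)⟩
  choose b b1 b2 b3 using key
  refine ⟨∏ p ∈ Finset.range r, b p, fun A _ _ H U hH hn hi hd hU hc => ?_⟩
  have h0 : U.relIndex H ≠ 0 := Subgroup.index_ne_zero_of_finite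
  calc U.relIndex H = ∏ p ∈ (U.relIndex H).primeFactors, p ^ (U.relIndex H).factorization p :=
        (Nat.prod_factorization_pow_eq_self h0).symm
    _ ≤ ∏ p ∈ (U.relIndex H).primeFactors, b p := Finset.prod_le_prod' fun p hp =>
        NilP.part (Nat.prime_of_mem_primeFactors hp) (b3 p (Nat.prime_of_mem_primeFactors hp))
          H U hH hn hi hd hU hc _ (Nat.ordProj_dvd _ _)
    _ ≤ ∏ p ∈ (U.relIndex H).primeFactors ∪ Finset.range r, b p :=
        Finset.prod_le_prod_of_subset_of_one_le' Finset.subset_union_left fun p _ _ => b1 p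
    _ = ∏ p ∈ Finset.range r, b p :=
        (Finset.prod_subset Finset.subset_union_right fun p _ hp =>
          b2 p (not_lt.1 fun h => hp (Finset.mem_range.2 h))).symm

end Pool.Agent.P.MP_169bcc_al.BR
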