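import Pool.Agent.P.MP_169bcc_al.BR.Base

/-!
Package Eps.
-/

open scoped commutatorElement TensorProduct
open LieAlgebra LieSubalgebra Module

noncomputable section

namespace Pool.Agent.P.MP_169bcc_al.BR

namespace EpsP

variable {p : ℕ} [Fact p.Prime] {K : Type} [Field K] [Algebra ℚ_[p] K]
  [FiniteDimensional ℚ_[p] K]

theorem mul (x y : K) :
    spectralNorm ℚ_[p] K (x * y) = spectralNorm ℚ_[p] K x * spectralNorm ℚ_[p] K y :=
  spectralAlgNorm_mul x y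

theorem add (x y : K) : spectralNorm ℚ_[p] K (x + y) ≤
    max (spectralNorm ℚ_[p] K x) (spectralNorm ℚ_[p] K y) :=
  isNonarchimedean_spectralNorm x y

theorem neg (x : K) : spectralNorm ℚ_[p] K (-x) = spectralNorm ℚ_[p] K x :=
  spectralNorm_neg (Algebra.IsAlgebraic.isAlgebraic x)

theorem pos {x : K} (hx : x ≠ 0) : 0 < spectralNorm ℚ_[p] K x :=
  spectralNorm_zero_lt hx (Algebra.IsAlgebraic.isAlgebraic x)

omit [FiniteDimensional ℚ_[p] K] in
theorem aut (σ : K ≃ₐ[ℚ_[p]] K) (x : K) :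
    spectralNorm ℚ_[p] K (σ x) = spectralNorm ℚ_[p] K x :=
  (spectralNorm_eq_of_equiv σ x).symm

theorem pow_le (σ : K ≃ₐ[ℚ_[p]] K) (z : K) (k : ℕ) :
    spectralNorm ℚ_[p] K ((σ ^ k) z - z) ≤ spectralNorm ℚ_[p] K (σ z - z) := by
  induction k with
  | zero => simpa [spectralNorm_zero] using spectralNorm_nonneg _
  | succ k ih =>
    have e : (σ ^ (k + 1)) z - z = (σ ^ k) (σ z - z) + ((σ ^ k) z - z) := by
      rw [pow_succ, AlgEquiv.mul_apply, map_sub]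
      ring
    rw [e]
    exact (add _ _).trans (max_le (aut _ _).le ih)

theorem sum_le (f : ℕ → K) {c : ℝ} (hc : 0 ≤ c) (h : ∀ i, spectralNorm ℚ_[p] K (f i) ≤ c)
    (n : ℕ) : spectralNorm ℚ_[p] K (∑ i ∈ Finset.range n, f i) ≤ c := by
  induction n with
  | zero => simpa [spectralNorm_zero] using hc
  | succ n ih =>
    rw [Finset.sum_range_succ]
    exact (add _ _).trans (max_le ih (h n))

theorem integral [Algebra ℤ_[p] K] [IsScalarTower ℤ_[p] ℚ_[p] K] {x : K}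
    (hx : spectralNorm ℚ_[p] K x ≤ 1) : IsIntegral ℤ_[p] x := by
  have hm : (minpoly ℚ_[p] x).Monic := minpoly.monic (Algebra.IsIntegral.isIntegral x)
  have hc := (spectralValue_le_one_iff hm).1 hx
  have hl : minpoly ℚ_[p] x ∈ Polynomial.lifts (algebraMap ℤ_[p] ℚ_[p]) :=
    (Polynomial.lifts_iff_coeff_lifts _).2 fun n => ⟨⟨_, hc n⟩, rfl⟩
  obtain ⟨q, h1, -, h2⟩ := Polynomial.lifts_and_natDegree_eq_and_monic hl hm
  refine ⟨q, h2, ?_⟩
  rw [← Polynomial.aeval_def, ← Polynomial.aeval_map_algebraMap ℚ_[p], h1, minpoly.aeval]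

theorem key {r : ℕ} (τ : K ≃ₐ[ℚ_[p]] K) (hr : r.Prime) (hpr : p ≠ r) (hτ : τ ^ r = 1) (x : K) :
    spectralNorm ℚ_[p] K (τ x - x) ≤ spectralNorm ℚ_[p] K (τ (τ x - x) - (τ x - x)) := by
  set z := τ x - x with hz
  have h0 : ∑ i ∈ Finset.range r, (τ ^ i) z = 0 := by
    have := Finset.sum_range_sub (fun i => (τ ^ i) x) r
    simp only [hτ, pow_zero, sub_self] at this
    rw [← this]
    refine Finset.sum_congr rfl fun i _ => ?_
    rw [hz, map_sub, pow_succ, AlgEquiv.mul_apply]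
  have h1 : algebraMap ℚ_[p] K (r : ℚ_[p]) * z = -∑ i ∈ Finset.range r, ((τ ^ i) z - z) := by
    rw [Finset.sum_sub_distrib, h0, map_natCast]
    simp
  have h2 : ‖(r : ℚ_[p])‖ = 1 :=
    Padic.norm_natCast_eq_one_iff.2 ((Nat.coprime_primes Fact.out hr).2 hpr)
  have h3 := mul (p := p) (algebraMap ℚ_[p] K (r : ℚ_[p])) z
  rw [spectralNorm_extends, h2, one_mul, h1, neg] at h3
  rw [← h3]
  exact sum_le _ (spectralNorm_nonneg _) (pow_le τ z) r

theorem key2 {r : ℕ} (τ : K ≃ₐ[ℚ_[p]] K) (hr : r.Prime) (hτ : τ ^ r = 1) (z : K) {i j : ℕ}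
    (hij : i < j) (hj : j < r) :
    spectralNorm ℚ_[p] K (τ z - z) ≤ spectralNorm ℚ_[p] K ((τ ^ j) z - (τ ^ i) z) := by
  obtain ⟨m, rfl⟩ := Nat.exists_eq_add_of_le hij.le
  have hm : m.Coprime r :=
    ((Nat.Prime.coprime_iff_not_dvd hr).2 (Nat.not_dvd_of_pos_of_lt (by omega) (by omega))).symm
  obtain ⟨k, -, hk⟩ := Nat.exists_mul_mod_eq_one_of_coprime hm hr.one_lt
  have h1 : (τ ^ m) ^ k = τ := by rw [← pow_mul, pow_eq_pow_mod _ hτ, hk, pow_one]
  have h2 := pow_le (τ ^ m) z k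
  rw [h1] at h2
  rw [pow_add, AlgEquiv.mul_apply, ← map_sub, aut]
  exact h2

end EpsP

theorem eps_ok : S_Eps := by
  intro p _ r K _ _ _ _ _ τ E hr hpr hτ hE ⟨x, hx, hne⟩
  set z := τ x - x with hz
  have hz0 : z ≠ 0 := sub_ne_zero.2 hne
  have hzE : z ∈ E := E.sub_mem (hE x hx) hx
  have hp := EpsP.pos (p := p) hz0
  have hpow : ∀ i : ℕ, (τ ^ i) z ∈ E := fun i => by
    induction i with
    | zero => exact hzE
    | succ i ih => rw [pow_succ', AlgEquiv.mul_apply]; exact hE _ ih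
  have hlt : ∀ i j : ℕ, i < j → j < r →
      spectralNorm ℚ_[p] K z ≤ spectralNorm ℚ_[p] K ((τ ^ j) z - (τ ^ i) z) :=
    fun i j hij hj => (EpsP.key τ hr hpr hτ x).trans (EpsP.key2 τ hr hτ z hij hj)
  have hne' : ∀ i j : Fin r, i ≠ j →
      spectralNorm ℚ_[p] K z ≤ spectralNorm ℚ_[p] K ((τ ^ (i : ℕ)) z - (τ ^ (j : ℕ)) z) := by
    intro i j hij
    rcases lt_or_gt_of_ne hij with h | h
    · rw [← neg_sub, EpsP.neg]
      exact hlt i j h j.2
    · exact hlt j i h i.2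
  have hdiv : ∀ a b : K, b ≠ 0 → spectralNorm ℚ_[p] K a ≤ spectralNorm ℚ_[p] K b →
      IsIntegral ℤ_[p] (a / b) := by
    intro a b hb h
    refine EpsP.integral ?_
    have h1 := EpsP.mul (p := p) (a / b) b
    rw [div_mul_cancel₀ _ hb] at h1
    have h2 := EpsP.pos (p := p) hb
    by_contra hc
    nlinarith [not_le.1 hc]
  refine ⟨fun i => (τ ^ (i : ℕ)) z / z, fun i => ⟨E.div_mem (hpow i) hzE,
    hdiv _ _ hz0 (EpsP.aut _ _).le⟩, fun i j hij => ?_⟩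
  have h := hne' i j hij
  have h0 : (τ ^ (i : ℕ)) z - (τ ^ (j : ℕ)) z ≠ 0 := fun h0 => by
    rw [h0, spectralNorm_zero] at h
    exact absurd h (not_le.2 hp)
  refine ⟨fun he => h0 (sub_eq_zero.2 ((div_left_inj' hz0).1 he)), ?_⟩
  rw [← sub_div, inv_div]
  exact hdiv _ _ h0 h

end Pool.Agent.P.MP_169bcc_al.BR
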