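import Pool.Agent.P.MP_169bcc_al.BR.Base

/-!
Package Ideal.
-/

open scoped commutatorElement TensorProduct
open LieAlgebra LieSubalgebra Module

noncomputable section

namespace Pool.Agent.P.MP_169bcc_al.BR

namespace IdealP

variable {p : ℕ} [Fact p.Prime] {g : Type} [LieRing g] [LieAlgebra ℚ_[p] g] [Module ℤ_[p] g]
  [IsScalarTower ℤ_[p] ℚ_[p] g] {G : Type} [Group G] {H S : Subgroup G}
  {ρ : G →* Module.End ℚ_[p] g} {Λ : Submodule ℤ_[p] g} {I : LieIdeal ℚ_[p] g}

/-- The action of the stabiliser on the ideal. -/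
def res (hS : ∀ a ∈ S, ∀ v ∈ I, ρ a v ∈ I) : S →* Module.End ℚ_[p] I where
  toFun a := (ρ a.1).restrict (p := I.toSubmodule) (q := I.toSubmodule) (hS a.1 a.2)
  map_one' := LinearMap.ext fun v => Subtype.ext (rep_one ρ v.1)
  map_mul' a b := LinearMap.ext fun v => Subtype.ext (rep_mul ρ a.1 b.1 v.1)

theorem act_res (hS : ∀ a ∈ S, ∀ v ∈ I, ρ a v ∈ I) (h : Act p H ρ Λ) :
    Act p (H.subgroupOf S) (res hS)
      (Λ.comap (I.incl.toLinearMap.restrictScalars ℤ_[p])) := by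
  have := h.normal
  refine ⟨inferInstance, ⟨?_, fun v => h.lat.span v.1⟩, fun a v hv => h.stab a.1 v.1 hv,
    fun a ha m => ?_⟩
  · have hi : Function.Injective (I.incl.toLinearMap.restrictScalars ℤ_[p]) := Subtype.val_injective
    refine Submodule.fg_of_fg_map_injective _ hi ?_
    have := isNoetherian_of_fg_of_noetherian _ h.lat.fg
    exact (isNoetherian_submodule.1 this) _ (Submodule.map_comap_le _ _)
  · obtain ⟨N, hN⟩ := h.uni a.1 ha m
    refine ⟨N, fun v hv => ?_⟩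
    obtain ⟨w, hw, e⟩ := hN v.1 hv
    have hI : w ∈ I.toSubmodule := mem_of_nsmul_mem (p := p) (k := m) (by
      rw [← sub_eq_iff_eq_add'.2 e]
      exact sub_mem (hS _ (S.pow_mem a.2 _) _ v.2) v.2)
    exact ⟨⟨w, hI⟩, hw, Subtype.ext e⟩

end IdealP

open IdealP

theorem ideal_ok (h1 : S_Chief) (h2 : S_Simple) : S_Ideal := by
  intro p _ r g _ _ _ _ _ _ G _ H σ ρ Λ u I S h hI hS hc hσ
  have ha := act_res hS h.act
  suffices e : u.comap I.incl = ⊤ from fun z hz =>
    show (⟨z, hz⟩ : I) ∈ u.comap I.incl from e ▸ LieSubalgebra.mem_top _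
  rcases hσ with hσ | hσ
  · have e := h1 p I S _ 1 _ _ (u.comap I.incl).toSubmodule {1} 1 (fun _ => 1) ha
      (by rintro _ rfl v hv; exact hv) (by rintro _ rfl a v hv; exact hv)
      (by rintro _ rfl a _; simp) (fun _ => rfl) (fun i j hij => (hij (Subsingleton.elim _ _)).elim)
      fun v => by
        obtain ⟨a, h3, h4⟩ := hc v.1 v.2
        refine ⟨0, one_pos, ⟨a, h3⟩, hσ h3, ?_⟩
        rw [pow_zero, one_mul]
        exact h4
    exact LieSubalgebra.toSubmodule_injective e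
  · have := IsSemisimple.isSimple_of_isAtom I hI
    have := h.dec.normal
    refine h2 p r I S (H.subgroupOf S) ⟨σ, hσ⟩ (res hS) _ _ ⟨h.prime, h.five, h.ne,
      ⟨inferInstance, Subtype.ext h.dec.pow, fun a => h.dec.dec a.1⟩, ha,
      fun a x y => Subtype.ext (h.lie a.1 x.1 y.1), fun z => ?_⟩
    obtain ⟨a, h3, h4⟩ := hc z.1 z.2
    exact ⟨⟨a, h3⟩, h4⟩

end Pool.Agent.P.MP_169bcc_al.BR
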