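import Pool.Agent.P.MP_169bcc_al.BR.Base

/-!
Package SS.
-/

open scoped commutatorElement TensorProduct
open LieAlgebra LieSubalgebra Module

noncomputable section

namespace Pool.Agent.P.MP_169bcc_al.BR

namespace SSP

variable {F g G : Type} [Field F] [LieRing g] [LieAlgebra F g] [Group G]
  (ρ : G →* Module.End F g) (hl : ∀ a (x y : g), ρ a ⁅x, y⁆ = ⁅ρ a x, ρ a y⁆)

/-- The image of an ideal under an automorphism. -/
def img (a : G) (I : LieIdeal F g) : LieIdeal F g where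
  __ := I.toSubmodule.comap (ρ a⁻¹)
  lie_mem := fun {x m} hm => by
    have hm' : ρ a⁻¹ m ∈ I := hm
    show ρ a⁻¹ ⁅x, m⁆ ∈ I
    rw [hl]
    exact I.lie_mem hm'

theorem mem_img (a : G) (I : LieIdeal F g) (v : g) : v ∈ img ρ hl a I ↔ ρ a⁻¹ v ∈ I := Iff.rfl

theorem img_one (I : LieIdeal F g) : img ρ hl 1 I = I := by
  ext v
  rw [mem_img, inv_one, rep_one]

theorem img_mul (a b : G) (I : LieIdeal F g) :
    img ρ hl (a * b) I = img ρ hl a (img ρ hl b I) := by
  ext v
  rw [mem_img, mem_img, mem_img, mul_inv_rev, rep_mul]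

/-- The image as an order isomorphism. -/
def imgIso (a : G) : LieIdeal F g ≃o LieIdeal F g where
  toFun := img ρ hl a
  invFun := img ρ hl a⁻¹
  left_inv I := by rw [← img_mul, inv_mul_cancel, img_one]
  right_inv I := by rw [← img_mul, mul_inv_cancel, img_one]
  map_rel_iff' := fun {I J} => by
    constructor
    · intro h v hv
      have h1 : ρ a v ∈ img ρ hl a I := by rwa [mem_img, rep_inv_left]
      have h2 : ρ a v ∈ img ρ hl a J := h h1
      rwa [mem_img, rep_inv_left] at h2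
    · intro h v hv
      exact h hv

theorem img_sub (a : G) (I : LieIdeal F g) :
    I.toSubmodule.map (ρ a) = (img ρ hl a I).toSubmodule := by
  ext v
  constructor
  · rintro ⟨w, hw, rfl⟩
    show ρ a⁻¹ (ρ a w) ∈ I
    rwa [rep_inv_left]
  · intro hv
    exact ⟨ρ a⁻¹ v, hv, rep_inv_right ρ a v⟩

/-- The action on the minimal ideals. -/
@[reducible] def act : MulAction G {I : LieIdeal F g // IsAtom I} where
  smul a I := ⟨img ρ hl a I.1, ((imgIso ρ hl a).isAtom_iff I.1).2 I.2⟩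
  one_smul I := Subtype.ext (img_one ρ hl I.1)
  mul_smul a b I := Subtype.ext (img_mul ρ hl a b I.1)

theorem finite_atoms [FiniteDimensional F g] [IsKilling F g] :
    Finite {I : LieIdeal F g // IsAtom I} :=
  (WellFoundedGT.finite_of_sSupIndep (IsSemisimple.sSupIndep_isAtom (R := F) (L := g))).to_subtype

/-- A minimal ideal is covered by its stabiliser. -/
theorem cover [FiniteDimensional F g] [IsKilling F g] (u : LieSubalgebra F g)
    (hc : ∀ c : Module.End F g, Cen c → ∀ v ∈ u, c v ∈ u) (hu : ∀ z, ∃ a, ρ a z ∈ u)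
    (j : LieIdeal F g) (hj : IsAtom j) (z : g) (hz : z ∈ j) :
    ∃ a, img ρ hl a j = j ∧ ρ a z ∈ u := by
  classical
  have := finite_atoms (F := F) (g := g)
  have hfin : (Set.range fun a => img ρ hl a j).Finite := by
    refine (Set.finite_range (Subtype.val : {I : LieIdeal F g // IsAtom I} → _)).subset ?_
    rintro _ ⟨a, rfl⟩
    exact ⟨⟨_, ((imgIso ρ hl a).isAtom_iff j).2 hj⟩, rfl⟩
  have hex : ∀ i : LieIdeal F g, ∃ b : G, i ∈ hfin.toFinset → img ρ hl b j = i := fun i => by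
    by_cases hi : i ∈ hfin.toFinset
    · obtain ⟨b, hb⟩ := hfin.mem_toFinset.1 hi
      exact ⟨b, fun _ => hb⟩
    · exact ⟨1, fun h => absurd h hi⟩
  choose b hb using hex
  obtain ⟨a, ha⟩ := hu (∑ i ∈ hfin.toFinset, ρ (b i) z)
  obtain ⟨e, he, -, he1, he2⟩ := exists_proj j
  have h0 : img ρ hl a⁻¹ j ∈ hfin.toFinset := hfin.mem_toFinset.2 ⟨_, rfl⟩
  have hst : img ρ hl (a * b (img ρ hl a⁻¹ j)) j = j := by
    rw [img_mul, hb _ h0, ← img_mul, mul_inv_cancel, img_one]
  have hmem : ∀ c : G, ρ c z ∈ img ρ hl c j := fun c => by rwa [mem_img, rep_inv_left]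
  refine ⟨_, hst, ?_⟩
  have key := hc e he _ ha
  rw [map_sum, map_sum, Finset.sum_eq_single_of_mem _ h0, ← rep_mul,
    he1 _ (hst.le (hmem _))] at key
  · exact key
  · intro i hi hne
    rw [← rep_mul]
    refine he2 _ (hj.disjoint_of_ne (((imgIso ρ hl _).isAtom_iff j).2 hj) fun h => hne ?_) _
      (hmem _)
    have h' : j = img ρ hl (a * b i) j := h
    rw [img_mul, hb i hi] at h'
    rw [h', ← img_mul, inv_mul_cancel, img_one]

end SSP

open SSP in
theorem ss_ok (h1 : S_Cen) (h2 : S_PG) (h3 : S_Orb) (h4 : S_Ideal) : S_SS := by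
  intro p _ r g _ _ _ _ _ _ G _ H σ ρ Λ u h
  have := finite_atoms (F := ℚ_[p]) (g := g)
  let _ := act ρ h.lie
  have hsm : ∀ (a : G) (j : {I : LieIdeal ℚ_[p] g // IsAtom I}),
      (a • j).1 = img ρ h.lie a j.1 := fun _ _ => rfl
  have hid : ∀ u' : LieSubalgebra ℚ_[p] g, Hyp p r H σ ρ Λ u' →
      ∀ j : {I : LieIdeal ℚ_[p] g // IsAtom I},
        (MulAction.stabilizer G j ≤ H ∨ σ ∈ MulAction.stabilizer G j) → ∀ z ∈ j.1, z ∈ u' := by
    intro u' h' j hS
    refine h4 p r g G H σ ρ Λ u' j.1 _ h' j.2 (fun a ha v hv => ?_) (fun z hz => ?_) hS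
    · have e : img ρ h.lie a j.1 = j.1 := congrArg Subtype.val (MulAction.mem_stabilizer_iff.1 ha)
      rw [← e, mem_img, rep_inv_left]
      exact hv
    · obtain ⟨a, ha, hz'⟩ := cover ρ h.lie u' (h1 _ g u' h'.covA) h'.cov j.1 j.2 z hz
      exact ⟨a, MulAction.mem_stabilizer_iff.2 (Subtype.ext ha), hz'⟩
  have hp : ∀ a ∈ H, ∀ j : {I : LieIdeal ℚ_[p] g // IsAtom I}, ∃ N : ℕ, a ^ p ^ N • j = j := by
    intro a ha j
    obtain ⟨N, hN⟩ := (h2 p g G H ρ Λ h.act a ha).1 j.1.toSubmodule (by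
      refine (Set.finite_range fun i : {I : LieIdeal ℚ_[p] g // IsAtom I} =>
        i.1.toSubmodule).subset ?_
      rintro _ ⟨n, rfl⟩
      exact ⟨a ^ n • j, (img_sub ρ h.lie _ _).symm⟩)
    rw [img_sub ρ h.lie] at hN
    exact ⟨N, Subtype.ext (LieSubmodule.toSubmodule_injective hN)⟩
  have hall : ∀ j : {I : LieIdeal ℚ_[p] g // IsAtom I}, ∀ z ∈ j.1, z ∈ u := by
    intro j z hz
    rcases h3 p r G H σ _ Fact.out h.prime h.ne h.dec hp j with hS | ⟨a, ha⟩
    · exact hid u h j (Or.inl fun b hb => hS b (MulAction.mem_stabilizer_iff.1 hb)) z hz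
    · obtain ⟨u', h', hu'⟩ := h.conj a⁻¹
      have := hid u' h' (a • j) (Or.inr (MulAction.mem_stabilizer_iff.2 ha)) (ρ a z)
        (by rw [hsm, mem_img, rep_inv_left]; exact hz)
      rwa [hu', rep_inv_left] at this
  refine eq_top_iff.2 fun z _ => ?_
  have hz : z ∈ ⨆ j : {I : LieIdeal ℚ_[p] g // IsAtom I}, j.1 := by
    have e := IsSemisimple.sSup_atoms_eq_top (R := ℚ_[p]) (L := g)
    rw [sSup_eq_iSup'] at e
    exact e.ge (LieSubmodule.mem_top z)
  exact LieSubmodule.iSup_induction _ (motive := fun z => z ∈ u) hz hall u.zero_mem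
    fun x y hx hy => u.add_mem hx hy

end Pool.Agent.P.MP_169bcc_al.BR
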