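import Pool.Agent.P.MP_169bcc_al.BR.Base

/-!
Package Simple.
-/

open scoped commutatorElement TensorProduct
open LieAlgebra LieSubalgebra Module

noncomputable section

namespace Pool.Agent.P.MP_169bcc_al.BR

namespace SimpleP

/-- A polynomial in `ad y` preserves every subalgebra that contains `y`. -/
theorem aeval_mem {F g : Type} [Field F] [LieRing g] [LieAlgebra F g] (u : LieSubalgebra F g)
    {y : g} (hy : y ∈ u) (P : Polynomial F) :
    ∀ v ∈ u, Polynomial.aeval (ad F g y) P v ∈ u := by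
  induction P using Polynomial.induction_on with
  | C a =>
    intro v hv
    rw [Polynomial.aeval_C, Module.algebraMap_end_apply]
    exact u.smul_mem a hv
  | add P Q hP hQ =>
    intro v hv
    rw [map_add, LinearMap.add_apply]
    exact u.add_mem (hP v hv) (hQ v hv)
  | monomial n a h =>
    intro v hv
    rw [pow_succ, ← mul_assoc, map_mul, Polynomial.aeval_X, Module.End.mul_apply]
    exact h _ (u.lie_mem hy hv)

end SimpleP

theorem simple_ok (h1 : S_Cent) (h2 : S_Cen) (h3 : S_Field) (h4 : S_Inner) (h5 : S_FR)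
    (h6 : S_GenH) (h7 : S_Chief) : S_Simple := by
  intro p _ r g _ _ _ _ _ _ G _ H σ ρ Λ u h
  obtain ⟨K, _, _, _, ι, φ, hφ, hcen⟩ := h1 ℚ_[p] g G ρ h.lie
  rcases h3 p r g G H σ ρ Λ K ι φ u.toSubmodule h.prime h.ne h.dec h.act hφ
    (fun c v hv => h2 _ g u h.covA (ι c) ((hcen _).2 ⟨c, rfl⟩) v hv) h.cov with hW | hσ
  · exact eq_top_iff.2 fun v _ => (hW.ge Submodule.mem_top : v ∈ u.toSubmodule)
  obtain ⟨x, hreg, hfix⟩ := h4 ℚ_[p] g (ρ σ) r h.prime h.five (h.aut σ)
    (by rw [← map_pow, h.dec.pow, map_one]) (fun c hc => by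
      obtain ⟨c, rfl⟩ := (hcen c).1 hc
      exact hσ c)
  obtain ⟨a, ha⟩ := h.cov x
  obtain ⟨u', h', hu'⟩ := h.conj a
  have hle : engel ℚ_[p] x ≤ u' := h5 ℚ_[p] g u' h'.covA x ((hu' x).2 ha) hreg
  obtain ⟨y, hy, hP⟩ := h6 ℚ_[p] g x hreg
  obtain ⟨P, hP⟩ := hP (ρ σ) 1 (fun v hv => by rw [hfix v hv, one_smul])
    (fun v hv z => by rw [h.lie, hfix v hv])
  have s1 : ∀ v ∈ u', ρ σ v ∈ u' := fun v hv => by
    rw [hP]
    exact SimpleP.aeval_mem u' (hle hy) P v hv
  have s2 : ∀ n : ℕ, ∀ v ∈ u', ρ (σ ^ n) v ∈ u' := by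
    intro n
    induction n with
    | zero => intro v hv; rwa [pow_zero, rep_one]
    | succ n ih => intro v hv; rw [pow_succ, rep_mul]; exact ih _ (s1 v hv)
  have top : u'.toSubmodule = ⊤ := by
    refine h7 p g G H σ ρ Λ u'.toSubmodule {1} 1 (fun _ => 1) h.act ?_ ?_ ?_ (fun _ => rfl)
      (fun i j hij => absurd (Subsingleton.elim i j) hij) fun v => ?_
    · rintro e rfl v hv
      exact hv
    · rintro e rfl b v hv
      exact hv
    · rintro e rfl b _
      rw [one_mul, mul_one]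
    · obtain ⟨b, hb⟩ := h'.cov v
      obtain ⟨i, hi, c, hc, rfl⟩ := h.dec.left h.prime.pos b
      refine ⟨0, Nat.one_pos, c, hc, ?_⟩
      have := s2 (r - i) _ hb
      rw [← rep_mul, ← mul_assoc, ← pow_add, Nat.sub_add_cancel hi.le, h.dec.pow] at this
      rwa [pow_zero]
  refine eq_top_iff.2 fun v _ => ?_
  have := (hu' (ρ a⁻¹ v)).1 (top.ge Submodule.mem_top : ρ a⁻¹ v ∈ u'.toSubmodule)
  rwa [rep_inv_right] at this

end Pool.Agent.P.MP_169bcc_al.BR
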