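import Pool.Agent.P.MP_169bcc_al.BR.Base

/-!
Package CalcA.
-/

open scoped commutatorElement TensorProduct
open LieAlgebra LieSubalgebra Module

noncomputable section

namespace Pool.Agent.P.MP_169bcc_al.BR

namespace CalcAP

variable {p : ℕ} {A : Type} [Group A] {P : ℕ → Subgroup A}

theorem c0 (h : Filt p P) (a s : ℕ) (x : A) (hx : x ∈ P a) : x ^ p ^ s ∈ P (a + s) := by
  induction s with
  | zero => simpa using hx
  | succ s ih =>
    rw [pow_succ, pow_mul]
    exact h.pow _ _ ih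

theorem mul_pow_cg (h : Filt p P) {a b : ℕ} {x y : A} (hx : x ∈ P a) (hy : y ∈ P b) (n : ℕ) :
    Cg (P (a + b + 2)) ((x * y) ^ n) (x ^ n * y ^ n) := by
  have hN := h.normal (a + b + 2)
  have hc := cg_comm hN (h.comm a b x hx y hy)
  rw [cg_iff'] at hc ⊢
  simp only [map_mul, map_pow] at hc ⊢
  exact Commute.mul_pow hc n

theorem pow_step (h : Filt p P) {a b : ℕ} {x y : A} (hx : x ∈ P a) (hxy : Cg (P b) x y) :
    Cg (P (b + 1)) (x ^ p) (y ^ p) := by
  have e : y = x * (x⁻¹ * y) := by group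
  have h1 := (mul_pow_cg h hx hxy p).mono (h.anti (b + 1) _ (by omega))
  rw [← e] at h1
  exact (cg_mul_right (h.pow b _ hxy)).trans h1.symm

theorem c2 (h : Filt p P) (a b s : ℕ) (x : A) (hx : x ∈ P a) (y : A) (hxy : Cg (P b) x y) :
    Cg (P (b + s)) (x ^ p ^ s) (y ^ p ^ s) := by
  induction s with
  | zero => simpa using hxy
  | succ s ih =>
    rw [pow_succ, pow_mul, pow_mul]
    exact pow_step h (c0 h a s x hx) ih

theorem c1 (h : Filt p P) (a s : ℕ) (x : A) (hx : x ∈ P a) (y : A) (hy : y ∈ P a) :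
    Cg (P (2 * a + s + 1)) ((x * y) ^ p ^ s) (x ^ p ^ s * y ^ p ^ s) := by
  induction s with
  | zero => exact Cg.of_eq (by simp)
  | succ s ih =>
    rw [pow_succ, pow_mul, pow_mul, pow_mul]
    exact (pow_step h (c0 h a s _ (mul_mem hx hy)) ih).trans
      ((mul_pow_cg h (c0 h a s x hx) (c0 h a s y hy) p).mono (h.anti _ _ (by omega)))

theorem root1 (h : Filt p P) {N : ℕ} {U : Subgroup A} (hU : ∀ j < N, Uon p P U j) (a s : ℕ) :
    ∀ y ∈ U, y ∈ P (a + s) → a + s ≤ N →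
      ∃ x ∈ U, x ∈ P a ∧ Cg (P (a + s + 1)) y (x ^ p ^ s) := by
  induction s with
  | zero => exact fun y hy hy' _ => ⟨y, hy, hy', Cg.of_eq (by simp)⟩
  | succ s ih =>
    intro y hy hy' hN
    obtain ⟨z, hz, hz', hyz⟩ := hU (a + s) (by omega) y hy hy'
    obtain ⟨x, hx, hx', hzx⟩ := ih z hz hz' (by omega)
    refine ⟨x, hx, hx', ?_⟩
    rw [pow_succ, pow_mul]
    exact hyz.trans (pow_step h hz' hzx)

theorem c5 (h : Filt p P) {N : ℕ} {U : Subgroup A} (hU : ∀ j < N, Uon p P U j) (a b s : ℕ)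
    (y : A) (hy : y ∈ U) (hy' : y ∈ P (a + s)) (hb : b ≤ 2 * a + 1) (hN : b + s ≤ N) :
    ∃ x ∈ U, x ∈ P a ∧ Cg (P (b + s)) y (x ^ p ^ s) := by
  induction b with
  | zero =>
    exact ⟨1, one_mem _, one_mem _,
      cg_of_mem (h.anti _ _ (by omega) hy') (by rw [one_pow]; exact one_mem _)⟩
  | succ b ih =>
    rcases lt_or_ge b a with hba | hba
    · exact ⟨1, one_mem _, one_mem _,
        cg_of_mem (h.anti _ _ (by omega) hy') (by rw [one_pow]; exact one_mem _)⟩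
    obtain ⟨x, hx, hx', hyx⟩ := ih (by omega) (by omega)
    obtain ⟨w, hw, hw', hd⟩ := root1 h hU b s ((x ^ p ^ s)⁻¹ * y)
      (mul_mem (inv_mem (pow_mem hx _)) hy) hyx.symm (by omega)
    have hwa := h.anti a b hba hw'
    refine ⟨x * w, mul_mem hx hw, mul_mem hx' hwa, ?_⟩
    have h1 := (Cg.refl _ (x ^ p ^ s)).mul (h.normal _) hd
    rw [mul_inv_cancel_left] at h1
    rw [show b + 1 + s = b + s + 1 by omega]
    exact h1.trans ((c1 h a s x hx' w hwa).mono (h.anti _ _ (by omega))).symm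

theorem inj1 (h : Filt p P) {N : ℕ} (hI : ∀ j < N, Inj p P j) {z : A} (hz : z ∈ P 0) (c : ℕ)
    (hc : c ≤ N) (hp : z ^ p ∈ P (c + 1)) : z ∈ P c := by
  induction c with
  | zero => exact hz
  | succ c ih => exact hI c (by omega) z (ih (by omega) (h.anti _ _ (by omega) hp)) hp

theorem c4 (h : Filt p P) {N : ℕ} (hI : ∀ j < N, Inj p P j) (b s : ℕ) (x : A) (hx : x ∈ P 0)
    (hN : b + s ≤ N) (hp : x ^ p ^ s ∈ P (b + s)) : x ∈ P b := by
  induction s with
  | zero => simpa using hp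
  | succ s ih =>
    rw [pow_succ, pow_mul] at hp
    exact ih (by omega) (inj1 h hI (pow_mem hx _) (b + s) (by omega) hp)

end CalcAP

theorem calcA_ok : S_CalcA := by
  intro p A _ P h
  refine ⟨CalcAP.c0 h, CalcAP.c1 h, fun a b s x hx y _ _ hxy => CalcAP.c2 h a b s x hx y hxy,
    fun a b s y hy hb => ?_⟩
  obtain ⟨x, -, hx, hxy⟩ := CalcAP.c5 h (N := b + s) (U := ⊤) (fun j _ z _ hz => by
    obtain ⟨x, hx, hxz⟩ := h.onto j z hz
    exact ⟨x, trivial, hx, hxz⟩) a b s y trivial hy hb le_rfl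
  exact ⟨x, hx, hxy⟩

theorem calcW_ok : S_CalcW := by
  intro p N A _ P U h _ hW
  exact ⟨CalcAP.c4 h fun j hj => (hW j hj).1, CalcAP.c5 h fun j hj => (hW j hj).2⟩

end Pool.Agent.P.MP_169bcc_al.BR
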