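import Pool.Agent.P.MP_169bcc_al.BR.Base

/-!
Package CalcB.
-/

open scoped commutatorElement TensorProduct
open LieAlgebra LieSubalgebra Module

noncomputable section

namespace Pool.Agent.P.MP_169bcc_al.BR

namespace CalcBP

variable {p : ℕ} {A : Type} [Group A] {P : ℕ → Subgroup A}

theorem comm_mul (x x' y : A) : ⁅x * x', y⁆ = x * ⁅x', y⁆ * x⁻¹ * ⁅x, y⁆ := by
  simp only [commutatorElement_def]
  group

theorem conj_eq (x u : A) : x * u * x⁻¹ = ⁅x, u⁆ * u := by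
  simp only [commutatorElement_def]
  group

theorem hall_witt (x y z : A) :
    ⁅⁅x, y⁆, y * z * y⁻¹⁆ * ⁅⁅y, z⁆, z * x * z⁻¹⁆ * ⁅⁅z, x⁆, x * y * x⁻¹⁆ = 1 := by
  simp only [commutatorElement_def]
  group

theorem c7 (h : Filt p P) (a b : ℕ) (x : A) (hx : x ∈ P a) (x' : A) (hx' : x' ∈ P a) (y : A)
    (hy : y ∈ P b) : Cg (P (2 * a + b + 4)) ⁅x * x', y⁆ (⁅x, y⁆ * ⁅x', y⁆) := by
  have h1 : ⁅x, y⁆ ∈ P (a + b + 2) := h.comm _ _ x hx y hy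
  have h2 : ⁅x', y⁆ ∈ P (a + b + 2) := h.comm _ _ x' hx' y hy
  have h3 : ⁅x, ⁅x', y⁆⁆ ∈ P (2 * a + b + 4) :=
    h.anti _ _ (by omega) (h.comm _ _ x hx _ h2)
  have h4 : ⁅⁅x', y⁆, ⁅x, y⁆⁆ ∈ P (2 * a + b + 4) :=
    h.anti _ _ (by omega) (h.comm _ _ _ h2 _ h1)
  rw [comm_mul, conj_eq, mul_assoc]
  exact (cg_mul_left (h.normal _) h3).symm.trans (cg_comm (h.normal _) h4)

theorem cl (h : Filt p P) (b c : ℕ) (x x' y : A) (hy : y ∈ P b) (hc : Cg (P c) x x') :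
    Cg (P (b + c + 2)) ⁅x, y⁆ ⁅x', y⁆ := by
  have e : x' = x * (x⁻¹ * x') := by group
  have h1 : ⁅x⁻¹ * x', y⁆ ∈ P (b + c + 2) :=
    h.anti _ _ (by omega) (h.comm _ _ _ hc y hy)
  rw [e, comm_mul]
  exact cg_mul_left (h.normal _) ((h.normal _).conj_mem _ h1 x)

theorem cr (h : Filt p P) (b c : ℕ) (x x' y : A) (hy : y ∈ P b) (hc : Cg (P c) x x') :
    Cg (P (b + c + 2)) ⁅y, x⁆ ⁅y, x'⁆ := by
  have := (cl h b c x x' y hy hc).inv (h.normal _)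
  rwa [commutatorElement_inv, commutatorElement_inv] at this

theorem pow_left (h : Filt p P) (a b : ℕ) (x : A) (hx : x ∈ P a) (y : A) (hy : y ∈ P b)
    (m : ℕ) : Cg (P (2 * a + b + 4)) ⁅x ^ m, y⁆ (⁅x, y⁆ ^ m) := by
  induction m with
  | zero =>
    rw [pow_zero, pow_zero, commutatorElement_one_left]
    exact Cg.refl _ _
  | succ m ih =>
    rw [pow_succ, pow_succ]
    exact (c7 h a b _ ((P a).pow_mem hx m) x hx y hy).trans
      (ih.mul (h.normal _) (Cg.refl _ _))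

theorem c6 (h : Filt p P) (hA : CalcA p P) (a b s : ℕ) (x : A) (hx : x ∈ P a) (y : A)
    (hy : y ∈ P b) : Cg (P (2 * a + b + s + 3)) ⁅x ^ p ^ s, y⁆ (⁅x, y⁆ ^ p ^ s) := by
  induction s with
  | zero =>
    rw [pow_zero, pow_one, pow_one]
    exact Cg.refl _ _
  | succ s ih =>
    have h1 : x ^ p ^ s ∈ P (a + s) := hA.c0 a s x hx
    have h2 : ⁅x ^ p ^ s, y⁆ ∈ P (a + s + b + 2) := h.comm _ _ _ h1 y hy
    have h3 := (pow_left h (a + s) b _ h1 y hy p).mono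
      (h.anti (2 * a + b + (s + 1) + 3) _ (by omega))
    have h4 := hA.c2 (a + s + b + 2) (2 * a + b + s + 3) 1 _ h2 _ (by omega) (by omega) ih
    rw [pow_one, show 2 * a + b + s + 3 + 1 = 2 * a + b + (s + 1) + 3 by omega] at h4
    rw [pow_succ, pow_mul, pow_mul]
    exact h3.trans h4

theorem c8 (h : Filt p P) (i : ℕ) (x : A) (hx : x ∈ P i) (y : A) (hy : y ∈ P i) (z : A)
    (hz : z ∈ P i) : ⁅⁅x, y⁆, z⁆ * ⁅⁅y, z⁆, x⁆ * ⁅⁅z, x⁆, y⁆ ∈ P (4 * i + 6) := by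
  have key : ∀ u ∈ P i, ∀ v ∈ P i, ∀ w ∈ P i,
      Cg (P (4 * i + 6)) ⁅⁅u, v⁆, v * w * v⁻¹⁆ ⁅⁅u, v⁆, w⁆ := by
    intro u hu v hv w hw
    have h1 : Cg (P (i + i + 2)) (v * w * v⁻¹) w := by
      rw [conj_eq]
      exact (cg_mul_left (h.normal _) (h.comm _ _ v hv w hw)).symm
    exact (cr h _ _ _ _ _ (h.comm _ _ u hu v hv) h1).mono (h.anti _ _ (by omega))
  have h2 := ((key x hx y hy z hz).mul (h.normal _) (key y hy z hz x hx)).mul (h.normal _)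
    (key z hz x hx y hy)
  rw [hall_witt] at h2
  exact cg_one.1 h2

end CalcBP

theorem calcB_ok : S_CalcB := by
  intro p A _ P h hA
  exact ⟨CalcBP.c6 h hA, CalcBP.c7 h, CalcBP.cl h, CalcBP.cr h, CalcBP.c8 h⟩

end Pool.Agent.P.MP_169bcc_al.BR
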