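import Pool.Agent.P.MP_169bcc_al.BR.Base

/-!
Package Cen: a covering subalgebra is stable under the centroid.
-/

open scoped commutatorElement TensorProduct
open LieAlgebra LieSubalgebra Module

noncomputable section

namespace Pool.Agent.P.MP_169bcc_al.BR

namespace CenP

variable {F g : Type} [Field F] [LieRing g] [LieAlgebra F g] [FiniteDimensional F g]

theorem cartan [CharZero F] {x : g} (hx : LieAlgebra.IsRegular F x) :
    IsCartanSubalgebra (engel F x) := by
  have h : (finrank F g : Cardinal) ≤ Cardinal.mk F :=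
    Cardinal.natCast_le_aleph0.trans <| Cardinal.infinite_iff.mp inferInstance
  refine ⟨?_, normalizer_engel _ _⟩
  apply isNilpotent_of_forall_le_engel
  intro y hy
  set Ex : {E : LieSubalgebra F g | ∃ z ∈ engel F x, engel F z = E} :=
    ⟨engel F x, x, self_mem_engel _ _, rfl⟩
  suffices IsBot Ex from @this ⟨engel F y, y, hy, rfl⟩
  apply engel_isBot_of_isMin h (engel F x) Ex le_rfl
  rintro ⟨_, y, hy, rfl⟩ hyx
  suffices finrank F (engel F x) ≤ finrank F (engel F y) by
    suffices engel F y = engel F x from this.ge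
    apply LieSubalgebra.toSubmodule_injective
    exact Submodule.eq_of_le_of_finrank_le hyx this
  rw [(isRegular_iff_finrank_engel_eq_rank F x).mp hx]
  apply rank_le_finrank_engel

theorem reg [CharZero F] [IsKilling F g] {x : g} (hx : LieAlgebra.IsRegular F x) : Reg F x := by
  have := cartan hx
  have hab : IsLieAbelian (engel F x) := inferInstance
  intro y hy z hz
  exact congrArg Subtype.val (hab.trivial (⟨y, hy⟩ : engel F x) (⟨z, hz⟩ : engel F x))

theorem aut {a : Module.End F g} (ha : IsAut a) {x : g} (hx : LieAlgebra.IsRegular F x) :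
    LieAlgebra.IsRegular F (a x) := by
  rw [isRegular_iff_finrank_engel_eq_rank] at hx ⊢
  refine le_antisymm ?_ (rank_le_finrank_engel F _)
  rw [← hx]
  have e : (engel F (a x)).toSubmodule = (engel F x).toSubmodule.map a := by
    ext y
    constructor
    · intro hy
      obtain ⟨w, rfl⟩ := ha.bij.2 y
      exact ⟨w, (ha.mem_engel x w).1 hy, rfl⟩
    · rintro ⟨w, hw, rfl⟩
      exact (ha.mem_engel x w).2 hw
  have := Submodule.finrank_map_le a (engel F x).toSubmodule
  rw [← e] at this
  exact this

attribute [local instance 100] LieRing.ofAssociativeRing in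
theorem line [CharZero F] {x : g} (hx : LieAlgebra.IsRegular F x) (v : g) :
    ∃ t : F, t ≠ 0 ∧ LieAlgebra.IsRegular F (x + t • v) := by
  classical
  let b := Module.Free.chooseBasis F g
  let P := (LinearMap.polyCharpoly (ad F g).toLinearMap b).coeff (rank F g)
  let q : Polynomial F := MvPolynomial.aeval
    (fun i => Polynomial.C (b.repr x i) + Polynomial.C (b.repr v i) * Polynomial.X) P
  have hq : ∀ t : F, q.eval t = MvPolynomial.eval (b.repr (x + t • v)) P := by
    intro t
    have aux : (fun i => b.repr x i + b.repr v i * t) = b.repr (x + t • v) := by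
      ext i
      simp [mul_comm t]
    rw [← aux, ← Polynomial.coe_aeval_eq_eval, ← AlgHom.comp_apply, MvPolynomial.comp_aeval]
    simp
  have h0 : q ≠ 0 := by
    intro h
    have := hq 0
    rw [h, zero_smul, add_zero, Polynomial.eval_zero] at this
    exact (isRegular_iff_coeff_polyCharpoly_rank_ne_zero F b x).1 hx this.symm
  have h1 : q * Polynomial.X ≠ 0 := mul_ne_zero h0 Polynomial.X_ne_zero
  obtain ⟨t, ht⟩ := Infinite.exists_notMem_finset (q * Polynomial.X).roots.toFinset
  rw [Multiset.mem_toFinset, Polynomial.mem_roots h1, Polynomial.IsRoot, Polynomial.eval_mul,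
    Polynomial.eval_X, mul_eq_zero, not_or] at ht
  refine ⟨t, ht.2, (isRegular_iff_coeff_polyCharpoly_rank_ne_zero F b _).2 ?_⟩
  rw [← hq]
  exact ht.1

end CenP

theorem cen_ok (h : S_FR) : S_Cen := by
  intro F g _ _ _ _ _ _ u hu c hc v hv
  have key : ∀ y ∈ u, LieAlgebra.IsRegular F y → c y ∈ u := by
    intro y hy hr
    refine h F g u hu y hy (CenP.reg hr) ?_
    rw [mem_engel_iff]
    refine ⟨1, ?_⟩
    rw [pow_one, ad_apply, ← hc, lie_self, map_zero]
  obtain ⟨z, hz⟩ := LieAlgebra.exists_isRegular F g
  obtain ⟨a, ha, hau⟩ := hu z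
  have h0 := CenP.aut ha hz
  obtain ⟨t, ht, h1⟩ := CenP.line h0 v
  have m0 := key _ hau h0
  have m1 := key _ (u.add_mem hau (u.smul_mem t hv)) h1
  have e : c v = t⁻¹ • (c (a z + t • v) - c (a z)) := by
    rw [map_add, map_smul, add_sub_cancel_left, smul_smul, inv_mul_cancel₀ ht, one_smul]
  rw [e]
  exact u.smul_mem _ (u.sub_mem m1 m0)

end Pool.Agent.P.MP_169bcc_al.BR
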