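import Pool.Agent.P.MP_169bcc_al.BR.Base

/-!
The centroid of a simple Lie algebra is a field.
-/

open scoped commutatorElement TensorProduct
open LieAlgebra LieSubalgebra Module

noncomputable section

namespace Pool.Agent.P.MP_169bcc_al.BR

namespace CentP

variable {F g : Type} [Field F] [LieRing g] [LieAlgebra F g]

variable (F g) in
/-- The centroid. -/
def cen : Subalgebra F (Module.End F g) where
  carrier := {c | Cen c}
  mul_mem' {c d} hc hd y z := by
    rw [Module.End.mul_apply, Module.End.mul_apply, hd y z, hc y]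
  add_mem' {c d} hc hd y z := by
    rw [LinearMap.add_apply, LinearMap.add_apply, hc y z, hd y z, lie_add]
  algebraMap_mem' r y z := by
    rw [Module.algebraMap_end_apply, Module.algebraMap_end_apply, lie_smul]

theorem mem_cen {c : Module.End F g} : c ∈ cen F g ↔ Cen c := Iff.rfl

/-- The kernel of an element of the centroid. -/
def kerI {c : Module.End F g} (h : Cen c) : LieIdeal F g where
  toSubmodule := LinearMap.ker c
  lie_mem {y z} hz := by
    have h1 : c z = 0 := hz
    change c ⁅y, z⁆ = 0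
    rw [h y z, h1, lie_zero]

theorem zero_or_inj [IsSimple F g] {c : Module.End F g} (h : Cen c) :
    c = 0 ∨ Function.Injective c := by
  rcases IsSimple.eq_bot_or_eq_top (R := F) (kerI h) with h1 | h1
  · refine Or.inr ((injective_iff_map_eq_zero c).2 fun v hv => ?_)
    have h2 : v ∈ kerI h := hv
    rwa [h1, LieSubmodule.mem_bot] at h2
  · refine Or.inl (LinearMap.ext fun v => ?_)
    have h2 : v ∈ kerI h := h1 ▸ LieSubmodule.mem_top v
    exact h2

theorem isField [FiniteDimensional F g] [IsSimple F g] : IsField (cen F g) where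
  exists_pair_ne := ⟨0, 1, fun h => IsSimple.non_abelian (R := F) (L := g) ⟨fun y z => by
    have h1 : (0 : Module.End F g) = 1 := congrArg Subtype.val h
    exact (LinearMap.congr_fun h1 ⁅y, z⁆).symm⟩⟩
  mul_comm c d := by
    have h0 : Cen ((c * d - d * c : cen F g) : Module.End F g) := (c * d - d * c).2
    rcases zero_or_inj h0 with h1 | h1
    · exact sub_eq_zero.1 (Subtype.ext h1)
    · refine absurd ⟨fun y z => h1 ?_⟩ (IsSimple.non_abelian (R := F) (L := g))
      have hc : Cen c.1 := c.2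
      have hd : Cen d.1 := d.2
      change c.1 (d.1 ⁅y, z⁆) - d.1 (c.1 ⁅y, z⁆) = _
      rw [map_zero, hd y z, hc.left y, hc.left y z, hd, sub_self]
  mul_inv_cancel {c} hc := by
    have h0 : Cen c.1 := c.2
    have h1 := (zero_or_inj h0).resolve_left fun h => hc (Subtype.ext h)
    let e := LinearEquiv.ofInjectiveEndo c.1 h1
    have h2 : ∀ v, c.1 (e.symm v) = v := e.apply_symm_apply
    refine ⟨⟨e.symm.toLinearMap, fun y z => h1 ?_⟩, Subtype.ext (LinearMap.ext h2)⟩
    change c.1 (e.symm ⁅y, z⁆) = c.1 ⁅y, e.symm z⁆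
    rw [h2, h0, h2]

variable {G : Type} [Group G] (ρ : G →* Module.End F g)
  (hρ : ∀ a (x y : g), ρ a ⁅x, y⁆ = ⁅ρ a x, ρ a y⁆)

theorem cancel (a : G) : ρ a⁻¹ * ρ a = 1 := by rw [← map_mul, inv_mul_cancel, map_one]

theorem cancel' (a : G) : ρ a * ρ a⁻¹ = 1 := by rw [← map_mul, mul_inv_cancel, map_one]

/-- Conjugation of the centroid by an automorphism. -/
def conj (a : G) : cen F g →ₐ[F] cen F g where
  toFun c := ⟨ρ a * c.1 * ρ a⁻¹, fun y z => by
    have hc : Cen c.1 := c.2
    have h1 : ρ a (ρ a⁻¹ y) = y := LinearMap.congr_fun (cancel' ρ a) y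
    simp only [Module.End.mul_apply]
    rw [hρ, hc, hρ, h1]⟩
  map_one' := Subtype.ext (by
    change ρ a * 1 * ρ a⁻¹ = 1
    rw [mul_one, cancel'])
  map_mul' c d := Subtype.ext (by
    change ρ a * (c.1 * d.1) * ρ a⁻¹ = ρ a * c.1 * ρ a⁻¹ * (ρ a * d.1 * ρ a⁻¹)
    simp only [mul_assoc]
    rw [← mul_assoc (ρ a⁻¹), cancel, one_mul])
  map_zero' := Subtype.ext (by
    change ρ a * 0 * ρ a⁻¹ = 0
    rw [mul_zero, zero_mul])
  map_add' c d := Subtype.ext (by
    change ρ a * (c.1 + d.1) * ρ a⁻¹ = ρ a * c.1 * ρ a⁻¹ + ρ a * d.1 * ρ a⁻¹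
    rw [mul_add, add_mul])
  commutes' r := Subtype.ext (by
    change ρ a * algebraMap F _ r * ρ a⁻¹ = algebraMap F _ r
    rw [← Algebra.commutes, mul_assoc, cancel', mul_one])

theorem conj_mul (a b : G) (c : cen F g) : conj ρ hρ (a * b) c = conj ρ hρ a (conj ρ hρ b c) :=
  Subtype.ext (by
    change ρ (a * b) * c.1 * ρ (a * b)⁻¹ = ρ a * (ρ b * c.1 * ρ b⁻¹) * ρ a⁻¹
    simp only [mul_inv_rev, map_mul, mul_assoc])

theorem conj_one (c : cen F g) : conj ρ hρ 1 c = c :=
  Subtype.ext (by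
    change ρ 1 * c.1 * ρ 1⁻¹ = c.1
    rw [inv_one, map_one, one_mul, mul_one])

/-- The action on the centroid. -/
def act : G →* (cen F g ≃ₐ[F] cen F g) where
  toFun a := AlgEquiv.ofAlgHom (conj ρ hρ a) (conj ρ hρ a⁻¹)
    (AlgHom.ext fun c => by
      rw [AlgHom.comp_apply, ← conj_mul, mul_inv_cancel, conj_one, AlgHom.id_apply])
    (AlgHom.ext fun c => by
      rw [AlgHom.comp_apply, ← conj_mul, inv_mul_cancel, conj_one, AlgHom.id_apply])
  map_one' := AlgEquiv.ext fun c => conj_one ρ hρ c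
  map_mul' a b := AlgEquiv.ext fun c => conj_mul ρ hρ a b c

end CentP

open CentP in
theorem cent_ok : S_Cent := by
  intro F g _ _ _ _ _ G _ ρ hρ
  refine ⟨cen F g, isField.toField, inferInstanceAs (Algebra F (cen F g)),
    inferInstanceAs (FiniteDimensional F (cen F g)), (cen F g).val, act ρ hρ, fun a c => ?_,
    fun e => ⟨fun h => ⟨⟨e, h⟩, rfl⟩, ?_⟩⟩
  · change ρ a * c.1 = ρ a * c.1 * ρ a⁻¹ * ρ a
    rw [mul_assoc, cancel, mul_one]
  · rintro ⟨c, rfl⟩
    exact c.2

end Pool.Agent.P.MP_169bcc_al.BR
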