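import Pool.Agent.P.MP_169bcc_al.BR.Base

/-!
Package FRM.
-/

open scoped commutatorElement TensorProduct
open LieAlgebra LieSubalgebra Module

noncomputable section

namespace Pool.Agent.P.MP_169bcc_al.BR

namespace FRMP

open MvPolynomial Matrix

set_option linter.unusedSectionVars false

variable {F : Type} [Field F] {n : ℕ} {σ : Type} [Fintype σ]

/-- the generic element of the span -/
def gen (M : σ → Matrix (Fin n) (Fin n) F) : Matrix (Fin n) (Fin n) (MvPolynomial σ F) :=
  ∑ j, (X j : MvPolynomial σ F) • (M j).map C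

theorem eval_gen (M : σ → Matrix (Fin n) (Fin n) F) (s : σ → F) :
    (eval s).mapMatrix (gen M) = ∑ j, s j • M j := by
  ext a b
  simp [gen, Matrix.sum_apply]

theorem eval_trace (s : σ → F) (A : Matrix (Fin n) (Fin n) (MvPolynomial σ F)) :
    eval s A.trace = ((eval s).mapMatrix A).trace := by
  simp [Matrix.trace]

theorem eval_gen_pow (M : σ → Matrix (Fin n) (Fin n) F) (s : σ → F) (k : ℕ) :
    eval s (gen M ^ k).trace = ((∑ j, s j • M j) ^ k).trace := by
  rw [eval_trace, map_pow, eval_gen]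

theorem map_mul_der (j : σ) (A B : Matrix (Fin n) (Fin n) (MvPolynomial σ F)) :
    (A * B).map (pderiv j) = A * B.map (pderiv j) + A.map (pderiv j) * B := by
  ext1 a b
  simp [Matrix.mul_apply, Finset.sum_add_distrib, mul_comm]

theorem der_pow (j : σ) (A : Matrix (Fin n) (Fin n) (MvPolynomial σ F)) (k : ℕ) : ∀ i : ℕ,
    ((A ^ (k + 1)).map (pderiv j) * A ^ i).trace =
      (k + 1 : ℕ) * (A ^ (k + i) * A.map (pderiv j)).trace := by
  induction k with
  | zero => intro i; simp [trace_mul_comm (A ^ i)]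
  | succ k ih =>
    intro i
    rw [pow_succ, map_mul_der, add_mul, trace_add, mul_assoc _ A, ← pow_succ', ih,
      trace_mul_comm, ← mul_assoc, ← pow_add, show i + (k + 1) = k + 1 + i by omega,
      show k + (i + 1) = k + 1 + i by omega]
    push_cast
    ring

theorem der_gen (M : σ → Matrix (Fin n) (Fin n) F) (j : σ) :
    (gen M).map (pderiv j) = (M j).map C := by
  classical
  ext1 a b
  simp [gen, Matrix.sum_apply, pderiv_X, Pi.single_apply]

theorem eval_der (M : σ → Matrix (Fin n) (Fin n) F) (s : σ → F) (k : ℕ) (j : σ) :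
    eval s (pderiv j (gen M ^ (k + 1)).trace) =
      (k + 1 : ℕ) * ((∑ j, s j • M j) ^ k * M j).trace := by
  have e : pderiv j (gen M ^ (k + 1)).trace = ((gen M ^ (k + 1)).map (pderiv j)).trace := by
    simp [Matrix.trace]
  have e1 := der_pow j (gen M) k 0
  rw [pow_zero, mul_one, add_zero, der_gen] at e1
  have e2 : (eval s).mapMatrix ((M j).map (C : F → MvPolynomial σ F)) = M j := by
    ext a b; simp
  rw [e, e1, map_mul, map_natCast, eval_trace, map_mul, map_pow, eval_gen, e2]

theorem jac [CharZero F] {ι : Type} [Fintype ι] [DecidableEq ι] (M : σ → Matrix (Fin n) (Fin n) F)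
    (s : σ → F) (k : ι → ℕ) (l : ι → σ) :
    eval s (Matrix.of fun i j => pderiv (l j) (gen M ^ (k i + 1)).trace).det ≠ 0 ↔
      LinearIndependent F fun i j => ((∑ j, s j • M j) ^ k i * M (l j)).trace := by
  have e : (eval s).mapMatrix (Matrix.of fun i j => pderiv (l j) (gen M ^ (k i + 1)).trace) =
      Matrix.of fun i j => ((k i + 1 : ℕ) : F) *
        (Matrix.of fun i j => ((∑ j, s j • M j) ^ k i * M (l j)).trace) i j := by
    ext i j
    exact eval_der M s (k i) (l j)
  rw [RingHom.map_det, e, det_mul_column, mul_ne_zero_iff_left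
    (Finset.prod_ne_zero_iff.2 fun i _ => Nat.cast_ne_zero.2 (Nat.succ_ne_zero _)),
    ← isUnit_iff_ne_zero, ← isUnit_iff_isUnit_det, ← linearIndependent_rows_iff_isUnit]
  rfl

theorem exists_basis {l : ℕ} (w : ℕ → Fin l → F)
    (h : ∀ v : Fin l → F, (∀ k, ∑ j, v j * w k j = 0) → v = 0) :
    ∃ k : Fin l → ℕ, LinearIndependent F fun i => w (k i) := by
  have ht : Submodule.span F (Set.range w) = ⊤ := by
    by_contra hc
    obtain ⟨φ, h0, hφ⟩ := Submodule.exists_le_ker_of_lt_top _ (lt_top_iff_ne_top.2 hc)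
    have := h (fun j => φ fun i => if j = i then 1 else 0) fun k => by
      have e : φ (w k) = 0 := hφ (Submodule.subset_span ⟨k, rfl⟩)
      rw [LinearMap.pi_apply_eq_sum_univ] at e
      simpa [mul_comm] using e
    refine h0 (LinearMap.ext fun x => ?_)
    rw [LinearMap.pi_apply_eq_sum_univ]
    exact Finset.sum_eq_zero fun j _ => by rw [congrFun this j]; simp
  obtain ⟨κ, a, -, hs, hi⟩ := exists_linearIndependent' F w
  let e := (Basis.mk hi (hs.trans ht).ge).indexEquiv (Pi.basisFun F (Fin l))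
  exact ⟨a ∘ e.symm, hi.comp e.symm e.symm.injective⟩

end FRMP

open FRMP MvPolynomial in
theorem frm_ok (h : S_Jac) : S_FRM := by
  rintro F _ _ n l m M N δ hδ h1 ⟨x, hx⟩
  obtain ⟨k, hk⟩ := exists_basis (fun k j => ((∑ j, x j • M j) ^ k * M j).trace) fun v hv =>
    hx v fun k => by simpa [Finset.mul_sum, Matrix.trace_sum] using hv k
  have hp : AlgebraicIndependent F fun i => (gen M ^ (k i + 1)).trace :=
    (h F _ _ _).2 ⟨id, fun e => (jac M x k id).2 hk (by rw [e, map_zero])⟩
  have hq : AlgebraicIndependent F fun i => (gen N ^ (k i + 1)).trace := by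
    rw [algebraicIndependent_iff] at hp ⊢
    refine fun P hP => hp P (MvPolynomial.funext fun τ => ?_)
    obtain ⟨s, hs⟩ := h1 τ
    have e := congrArg (eval s) hP
    simp only [aeval_def, algebraMap_eq, ← eval_assoc, Function.comp_def, eval_gen_pow, map_zero,
      hs] at e ⊢
    exact e
  obtain ⟨r, hr⟩ := (h F _ _ _).1 hq
  have : ¬ ∀ s : Fin m → F, eval s (δ * _) = eval s 0 := fun e =>
    mul_ne_zero hδ hr (MvPolynomial.funext e)
  obtain ⟨s, hs⟩ := not_forall.1 this
  rw [map_mul, map_zero, ← Ne, mul_ne_zero_iff] at hs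
  exact ⟨s, hs.1, k, LinearIndependent.of_comp (LinearMap.funLeft F F r) ((jac N s k r).1 hs.2)⟩

end Pool.Agent.P.MP_169bcc_al.BR
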