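import Pool.Agent.P.MP_169bcc_al.BR.BC

/-!
Package GenH.
-/

open scoped commutatorElement TensorProduct
open LieAlgebra LieSubalgebra Module

noncomputable section

namespace Pool.Agent.P.MP_169bcc_al.BR

namespace GenHP

section Split

variable {k L : Type} [Field k] [CharZero k] [LieRing L] [LieAlgebra k L] [FiniteDimensional k L]
  [IsKilling k L] {H : LieSubalgebra k L} [H.IsCartanSubalgebra]
  [LieModule.IsTriangularizable k H L]

theorem mem_root {α : H → k} {z : L} (hz : ∀ v : H, ⁅(v : L), z⁆ = α v • z) :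
    z ∈ rootSpace H α := by
  rw [rootSpace, LieModule.mem_genWeightSpace]
  intro v
  refine ⟨1, ?_⟩
  have : ⁅v, z⁆ = α v • z := hz v
  simp [this]

/-- An endomorphism that commutes with `H` and is a scalar on `H` is a scalar on each root
space. -/
theorem scalar (ψ : Module.End k L) (c : k) (h1 : ∀ v ∈ H, ψ v = c • v)
    (h2 : ∀ v ∈ H, ∀ z, ψ ⁅v, z⁆ = ⁅v, ψ z⁆) (α : LieModule.Weight k H L) :
    ∃ e : k, ∀ z ∈ rootSpace H α, ψ z = e • z := by
  by_cases hα : α.IsNonZero
  · obtain ⟨y, hy, hy0⟩ := α.exists_ne_zero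
    have hy' : y ∈ rootSpace H α := hy
    have hone := (finrank_eq_one_iff_of_nonzero' (⟨y, hy'⟩ : rootSpace H α)
      (by simpa using hy0)).mp (IsKilling.finrank_rootSpace_eq_one α hα)
    have hψ : ψ y ∈ rootSpace H α := by
      refine mem_root fun v => ?_
      have : ⁅(v : L), y⁆ = α v • y := IsKilling.lie_eq_smul_of_mem_rootSpace hy' v
      rw [← h2 v v.2, this, map_smul]
    obtain ⟨e, he⟩ := hone ⟨ψ y, hψ⟩
    have he' : e • y = ψ y := by simpa using congrArg Subtype.val he
    refine ⟨e, fun z hz => ?_⟩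
    obtain ⟨t, ht⟩ := hone ⟨z, hz⟩
    have ht' : t • y = z := by simpa using congrArg Subtype.val ht
    rw [← ht', map_smul, ← he', smul_comm]
  · refine ⟨c, fun z hz => h1 z ?_⟩
    have h0 : (α : H → k) = 0 := by
      have : α.IsZero := not_not.1 hα
      exact this.eq
    rw [h0, rootSpace_zero_eq k L H] at hz
    exact hz

theorem interp (h : H) (hh : Function.Injective fun α : LieModule.Weight k H L => α h)
    (ψ : Module.End k L) (c : k) (h1 : ∀ v ∈ H, ψ v = c • v)
    (h2 : ∀ v ∈ H, ∀ z, ψ ⁅v, z⁆ = ⁅v, ψ z⁆) :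
    ∃ Q : Polynomial k, ψ = Polynomial.aeval (ad k L h) Q := by
  classical
  choose e he using scalar ψ c h1 h2
  refine ⟨Lagrange.interpolate Finset.univ (fun α : LieModule.Weight k H L => α h) e, ?_⟩
  ext z
  have hz : z ∈ ⨆ α : LieModule.Weight k H L, LieModule.genWeightSpace L α := by
    rw [LieModule.iSup_genWeightSpace_eq_top' k H L]
    trivial
  induction hz using LieSubmodule.iSup_induction' with
  | mem α z hz =>
    have hz' : z ∈ rootSpace H α := hz
    have h3 : ad k L h z = α h • z := IsKilling.lie_eq_smul_of_mem_rootSpace hz' h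
    rw [Module.End.aeval_apply_of_mem_apply_eq_smul h3, he α z hz',
      Lagrange.eval_interpolate_at_node e hh.injOn (Finset.mem_univ α)]
  | zero => simp
  | add x y _ _ hx hy => rw [map_add, map_add, hx, hy]

end Split

variable {F k g : Type} [Field F] [Field k] [Algebra F k] [LieRing g] [LieAlgebra F g]

theorem descend (φ : Module.End F g) (h : g) (Q : Polynomial k)
    (hQ : φ.baseChange k = Polynomial.aeval (ad k (k ⊗[F] g) ((1 : k) ⊗ₜ[F] h)) Q) :
    ∃ P : Polynomial F, φ = Polynomial.aeval (ad F g h) P := by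
  obtain ⟨l, hl⟩ := exists_form_one F k
  refine ⟨∑ n ∈ Q.support, Polynomial.monomial n (l (Q.coeff n)), ?_⟩
  ext z
  have h1 : φ z = pr l (φ.baseChange k ((1 : k) ⊗ₜ[F] z)) := by
    rw [pr_baseChange, pr_tmul, hl, one_smul]
  rw [h1, hQ, Polynomial.aeval_def, Polynomial.eval₂_eq_sum, Polynomial.sum_def,
    LinearMap.sum_apply, map_sum, map_sum, LinearMap.sum_apply]
  refine Finset.sum_congr rfl fun n _ => ?_
  rw [Polynomial.aeval_monomial, Module.End.mul_apply, Module.End.mul_apply, ad_tmul,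
    ← LinearMap.baseChange_pow, LinearMap.baseChange_tmul, Module.algebraMap_end_apply,
    Module.algebraMap_end_apply, TensorProduct.smul_tmul', smul_eq_mul, mul_one, pr_tmul]

/-- The inclusion of the Engel subalgebra into its extension of scalars. -/
def inc (x : g) : engel F x →ₗ[F] engel k ((1 : k) ⊗ₜ[F] x) where
  toFun v := ⟨(1 : k) ⊗ₜ[F] (v : g), tmul_mem_engel.2 v.2⟩
  map_add' _ _ := Subtype.ext (TensorProduct.tmul_add _ _ _)
  map_smul' _ _ := Subtype.ext (TensorProduct.tmul_smul _ _ _)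

theorem form_eq_zero (x : g) (f : engel k ((1 : k) ⊗ₜ[F] x) →ₗ[k] k)
    (hf : ∀ v : engel F x, f (inc x v) = 0) : f = 0 := by
  ext ⟨z, hz⟩
  have hz' := mem_span_engel hz
  induction hz' using Submodule.span_induction with
  | mem y hy =>
    obtain ⟨y, hy, rfl⟩ := hy
    exact hf ⟨y, hy⟩
  | zero => exact map_zero f
  | add a b ha hb iha ihb =>
    have hle : Submodule.span k ((fun y => (1 : k) ⊗ₜ[F] y) '' (engel F x : Set g)) ≤
        (engel k ((1 : k) ⊗ₜ[F] x)).toSubmodule :=
      Submodule.span_le.2 (by rintro _ ⟨y, hy, rfl⟩; exact tmul_mem_engel.2 hy)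
    have := map_add f ⟨a, hle ha⟩ ⟨b, hle hb⟩
    rw [iha (hle ha), ihb (hle hb)] at this
    simpa using this
  | smul a b hb ihb =>
    have hle : Submodule.span k ((fun y => (1 : k) ⊗ₜ[F] y) '' (engel F x : Set g)) ≤
        (engel k ((1 : k) ⊗ₜ[F] x)).toSubmodule :=
      Submodule.span_le.2 (by rintro _ ⟨y, hy, rfl⟩; exact tmul_mem_engel.2 hy)
    have := map_smul f a ⟨b, hle hb⟩
    rw [ihb (hle hb)] at this
    simpa using this

theorem separate [Infinite F] (x : g) {ι : Type} [Finite ι]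
    (f : ι → engel k ((1 : k) ⊗ₜ[F] x) →ₗ[k] k) (hf : Function.Injective f) :
    ∃ h : engel F x, Function.Injective fun i => f i (inc x h) := by
  obtain ⟨h, hh⟩ := Submodule.exists_forall_notMem_of_forall_ne_top
    (fun q : {q : ι × ι // q.1 ≠ q.2} =>
      LinearMap.ker (((f q.1.1 - f q.1.2).restrictScalars F) ∘ₗ inc (k := k) x)) (by
      intro q hq
      refine q.2 (hf (sub_eq_zero.1 (form_eq_zero x _ fun v => ?_)))
      have : v ∈ LinearMap.ker (((f q.1.1 - f q.1.2).restrictScalars F) ∘ₗ inc (k := k) x) := by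
        rw [hq]; trivial
      exact this)
  refine ⟨h, fun i j hij => ?_⟩
  by_contra hne
  refine hh ⟨(i, j), hne⟩ ?_
  have hij' : f i (inc x h) = f j (inc x h) := hij
  simp [hij']

theorem bc_scalar (x : g) (φ : Module.End F g) (c : F) (h1 : ∀ v ∈ engel F x, φ v = c • v) :
    ∀ v ∈ engel k ((1 : k) ⊗ₜ[F] x), φ.baseChange k v = algebraMap F k c • v := by
  intro v hv
  have hv' := mem_span_engel hv
  clear hv
  induction hv' using Submodule.span_induction with
  | mem y hy =>
    obtain ⟨y, hy, rfl⟩ := hy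
    rw [LinearMap.baseChange_tmul, h1 y hy, TensorProduct.tmul_smul, algebraMap_smul]
  | zero => simp
  | add a b _ _ ha hb => rw [map_add, ha, hb, smul_add]
  | smul a b _ hb => rw [map_smul, hb, smul_comm]

theorem bc_comm (x : g) (φ : Module.End F g)
    (h2 : ∀ v ∈ engel F x, ∀ z, φ ⁅v, z⁆ = ⁅v, φ z⁆) :
    ∀ v ∈ engel k ((1 : k) ⊗ₜ[F] x), ∀ z, φ.baseChange k ⁅v, z⁆ = ⁅v, φ.baseChange k z⁆ := by
  intro v hv z
  have hv' := mem_span_engel hv
  clear hv
  induction hv' using Submodule.span_induction with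
  | mem y hy =>
    obtain ⟨y, hy, rfl⟩ := hy
    refine sub_eq_zero.1 (eq_zero_of_pr fun l => ?_)
    rw [map_sub, pr_baseChange, pr_lie, pr_lie, pr_baseChange, h2 y hy, sub_self]
  | zero => simp
  | add a b _ _ ha hb => rw [add_lie, map_add, ha, hb, add_lie]
  | smul a b _ hb => rw [smul_lie, map_smul, hb, smul_lie]

end GenHP

theorem genH_ok : S_GenH := by
  intro F g _ _ _ _ _ _ x hx
  let k := AlgebraicClosure F
  have : IsKilling k (k ⊗[F] g) := isKilling_baseChange k
  have : (engel k ((1 : k) ⊗ₜ[F] x)).IsCartanSubalgebra := (reg_tmul.2 hx).cartan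
  obtain ⟨h, hh⟩ := GenHP.separate (k := k) x
    (fun α : LieModule.Weight k (engel k ((1 : k) ⊗ₜ[F] x)) (k ⊗[F] g) => α.toLinear)
    (fun α β hαβ => LieModule.Weight.ext fun v => LinearMap.congr_fun hαβ v)
  refine ⟨h, h.2, fun φ c h1 h2 => ?_⟩
  obtain ⟨Q, hQ⟩ := GenHP.interp (GenHP.inc (k := k) x h) hh (φ.baseChange k) (algebraMap F k c)
    (GenHP.bc_scalar x φ c h1) (GenHP.bc_comm x φ h2)
  exact GenHP.descend φ h Q hQ

end Pool.Agent.P.MP_169bcc_al.BR
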