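import Pool.Agent.P.MP_169bcc_al.BR.Base

/-!
Package Graph.
-/

open Finset

noncomputable section

namespace Pool.Agent.P.MP_169bcc_al.BR

namespace GraphP

variable {C : Type} [Fintype C] {B : C → C → ℝ}

/-- The graph of the nonzero entries off the diagonal. -/
def gr (B : C → C → ℝ) (hs : ∀ i j, B i j = B j i) : SimpleGraph C where
  Adj i j := i ≠ j ∧ B i j ≠ 0
  symm := ⟨fun i j h => ⟨h.1.symm, hs i j ▸ h.2⟩⟩
  loopless := ⟨fun _ h => h.1 rfl⟩

theorem diag_pos (hp : ∀ c : C → ℝ, c ≠ 0 → 0 < ∑ i, ∑ j, c i * c j * B i j) (i : C) :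
    0 < B i i := by
  classical
  have := hp (Pi.single i 1) (by simp)
  simpa [Pi.single_apply] using this

/-- The adjacency form is smaller than twice the standard form. -/
theorem norm (hp : ∀ c : C → ℝ, c ≠ 0 → 0 < ∑ i, ∑ j, c i * c j * B i j)
    (hn : ∀ i j, i ≠ j → B i j ≤ 0) (h4 : ∀ i j, B i j ≠ 0 → B i i * B j j ≤ 4 * B i j ^ 2)
    {x : C → ℝ} (hx : ∀ i, 0 ≤ x i) (h0 : x ≠ 0) {P : Finset (C × C)}
    (hP : ∀ p ∈ P, p.1 ≠ p.2 ∧ B p.1 p.2 ≠ 0) :
    ∑ p ∈ P, x p.1 * x p.2 < 2 * ∑ i, x i ^ 2 := by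
  classical
  have sp : ∀ i, 0 < √(B i i) := fun i => Real.sqrt_pos.2 (diag_pos hp i)
  have sq : ∀ i, √(B i i) ^ 2 = B i i := fun i => Real.sq_sqrt (diag_pos hp i).le
  have h1 := hp (fun i => x i / √(B i i)) fun h => h0 (funext fun i => by
    have := congrFun h i
    simpa [(sp i).ne'] using this)
  have h2 : ∀ i j, x i / √(B i i) * (x j / √(B j j)) * B i j ≤
      (if i = j then x i ^ 2 else 0) - (if (i, j) ∈ P then x i * x j else 0) / 2 := by
    intro i j
    have a1 := sp i
    have a2 := sp j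
    have a3 : 0 ≤ x i / √(B i i) * (x j / √(B j j)) :=
      mul_nonneg (div_nonneg (hx i) a1.le) (div_nonneg (hx j) a2.le)
    by_cases hij : i = j
    · subst hij
      rw [if_pos rfl, if_neg fun h => (hP _ h).1 rfl]
      have : x i / √(B i i) * (x i / √(B i i)) * √(B i i) ^ 2 = x i ^ 2 := by field_simp
      rw [sq] at this
      linarith
    rw [if_neg hij]
    split_ifs with h
    · have b1 := h4 i j (hP _ h).2
      have b2 := hn i j hij
      have b3 : √(B i i) * √(B j j) ≤ -2 * B i j := by
        refine abs_le_of_sq_le_sq' ?_ (by linarith) |>.2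
        rw [mul_pow, sq, sq]
        linarith
      have b4 : x i / √(B i i) * (x j / √(B j j)) * (√(B i i) * √(B j j)) = x i * x j := by
        field_simp
      nlinarith [mul_le_mul_of_nonneg_left b3 a3]
    · have := mul_nonpos_of_nonneg_of_nonpos a3 (hn i j hij)
      linarith
  have h3 := h1.trans_le (sum_le_sum fun i _ => sum_le_sum fun j _ => h2 i j)
  have h5 : ∑ i, ∑ j, (if (i, j) ∈ P then x i * x j else 0) = ∑ p ∈ P, x p.1 * x p.2 := by
    rw [← sum_product', univ_product_univ, sum_ite_mem, univ_inter]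
  simp only [sum_sub_distrib, sum_ite_eq, mem_univ, if_true, ← sum_div] at h3
  rw [h5] at h3
  linarith

/-- A vertex has at most three neighbours. -/
theorem star (hs : ∀ i j, B i j = B j i)
    (hp : ∀ c : C → ℝ, c ≠ 0 → 0 < ∑ i, ∑ j, c i * c j * B i j)
    (hn : ∀ i j, i ≠ j → B i j ≤ 0) (h4 : ∀ i j, B i j ≠ 0 → B i i * B j j ≤ 4 * B i j ^ 2)
    {S : Finset C} {v : C} (hS : ∀ s ∈ S, s ≠ v ∧ B s v ≠ 0) : S.card < 4 := by
  classical
  have hv : v ∉ S := fun h => (hS v h).1 rfl
  let x : C → ℝ := fun i => if i = v then 2 else if i ∈ S then 1 else 0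
  have xv : x v = 2 := if_pos rfl
  have xs : ∀ s ∈ S, x s = 1 := fun s h => by
    simp only [x]
    rw [if_neg (hS s h).1, if_pos h]
  have h := norm hp hn h4 (x := x) (fun i => by simp only [x]; split_ifs <;> norm_num)
    (fun h => by have := congrFun h v; rw [xv] at this; simp at this)
    (P := S ×ˢ {v} ∪ {v} ×ˢ S) (by
      rintro ⟨a, b⟩ h
      simp only [mem_union, mem_product, mem_singleton] at h
      rcases h with ⟨h, rfl⟩ | ⟨rfl, h⟩
      · exact hS a h
      · exact ⟨(hS b h).1.symm, hs b a ▸ (hS b h).2⟩)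
  have e1 : ∑ i, x i ^ 2 = 4 + S.card := by
    rw [← sum_subset (subset_univ (insert v S)), sum_insert hv, xv,
      sum_congr rfl fun s h => by rw [xs s h]]
    · simp
      norm_num
    · intro i _ hi
      simp only [mem_insert, not_or] at hi
      simp [x, hi.1, hi.2]
  have e2 : ∑ p ∈ S ×ˢ {v} ∪ {v} ×ˢ S, x p.1 * x p.2 = 4 * S.card := by
    rw [sum_union, sum_product, sum_product]
    · simp only [sum_singleton]
      have b1 : ∑ s ∈ S, x s * x v = ∑ _s ∈ S, (2 : ℝ) :=
        sum_congr rfl fun s h => by rw [xs s h, xv, one_mul]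
      have b2 : ∑ s ∈ S, x v * x s = ∑ _s ∈ S, (2 : ℝ) :=
        sum_congr rfl fun s h => by rw [xs s h, xv, mul_one]
      rw [b1, b2, sum_const, nsmul_eq_mul]
      ring
    · rw [disjoint_left]
      rintro ⟨a, b⟩ h1 h2
      simp only [mem_product, mem_singleton] at h1 h2
      exact hv (h2.1 ▸ h1.1)
  rw [e1, e2] at h
  have : (S.card : ℝ) < 4 := by linarith
  exact_mod_cast this

/-- Without fixed points the prime divides the size of an invariant set. -/
theorem dvd_card {α : Type} [Fintype α] {σ : Equiv.Perm α} {r : ℕ} (hr : r.Prime)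
    (hσ : σ ^ r = 1) {p : α → Prop} (h : ∀ x, p (σ x) ↔ p x) (nf : ∀ x, p x → σ x ≠ x) :
    r ∣ Nat.card {x // p x} := by
  classical
  have := Fact.mk hr
  by_contra hn
  rw [Nat.card_eq_fintype_card] at hn
  obtain ⟨a, ha⟩ := Equiv.Perm.exists_fixed_point_of_prime (n := 1) hn (σ := σ.subtypePerm h) (by
    rw [pow_one, Equiv.Perm.subtypePerm_pow]
    ext a
    simp [hσ])
  exact nf a a.2 (congrArg Subtype.val ha)

theorem edge {α : Type} {R : α → α → Prop} {p : α → Prop} {a b : α}
    (h : Relation.ReflTransGen R a b) (ha : ¬ p a) (hb : p b) : ∃ x y, ¬ p x ∧ p y ∧ R x y := by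
  induction h with
  | refl => exact absurd hb ha
  | @tail b c _ h ih =>
    by_cases hb' : p b
    exacts [ih hb', ⟨b, c, hb', hb, h⟩]

end GraphP

open GraphP in
theorem graph_ok : S_Graph := by
  classical
  intro C _ B π r hr h5 hπ hs hp hn h4 hi hc
  by_contra hne
  obtain ⟨x, hx⟩ : ∃ x, π x ≠ x := by
    by_contra h
    exact hne (Equiv.ext fun x => by_contra fun h' => h ⟨x, h'⟩)
  have hik : ∀ k : ℕ, ∀ i j, B ((π ^ k) i) ((π ^ k) j) = B i j := by
    intro k
    induction k with
    | zero => intro i j; rfl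
    | succ k ih => intro i j; rw [pow_succ', Equiv.Perm.mul_apply, Equiv.Perm.mul_apply, hi, ih]
  let G := gr B hs
  have rc : ∀ a b, Relation.ReflTransGen (fun a b => B a b ≠ 0) a b → G.Reachable a b := by
    intro a b h
    induction h with
    | refl => rfl
    | @tail b c _ h ih =>
      by_cases e : b = c
      · exact e ▸ ih
      · exact ih.trans (SimpleGraph.Adj.reachable ⟨e, h⟩)
  have nf : ∀ z, G.Reachable x z → π z ≠ z := by
    intro z hz hf
    obtain ⟨a, v, ha, hv, hav⟩ := edge (p := fun y => π y = y)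
      ((SimpleGraph.reachable_iff_reflTransGen _ _).1 hz) hx hf
    have := Fact.mk hr
    have hm : Function.minimalPeriod π a = r :=
      Function.minimalPeriod_eq_prime (by
        rw [Function.IsPeriodicPt, Function.IsFixedPt, Equiv.Perm.iterate_eq_pow, hπ]; rfl) ha
    have hk : ∀ k : ℕ, (π ^ k) v = v := fun k => Equiv.Perm.pow_apply_eq_self_of_apply_eq_self hv k
    have := star hs hp hn h4 (S := (range r).image fun k => (π ^ k) a) (v := v) (by
      intro s h
      obtain ⟨k, -, rfl⟩ := mem_image.1 h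
      refine ⟨fun e => hav.1 ((π ^ k).injective (e.trans (hk k).symm)), ?_⟩
      rw [← hk k, hik]
      exact hav.2)
    rw [card_image_of_injOn, card_range] at this
    · omega
    · intro k hk l hl e
      refine Function.iterate_injOn_Iio_minimalPeriod (f := π) (x := a) ?_ ?_ ?_
      · rw [hm]; simpa using hk
      · rw [hm]; simpa using hl
      · simpa [Equiv.Perm.iterate_eq_pow] using e
  have st : ∀ z, G.Reachable x (π z) ↔ G.Reachable x z := fun z =>
    ⟨fun h => h.trans (rc _ _ (hc z)).symm, fun h => h.trans (rc _ _ (hc z))⟩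
  have d1 := dvd_card hr hπ st nf
  have d2 := dvd_card (σ := π.prodCongr π) hr (by
      have : ∀ k : ℕ, ∀ p : C × C, ((π.prodCongr π : Equiv.Perm (C × C)) ^ k) p =
          ((π ^ k) p.1, (π ^ k) p.2) := by
        intro k
        induction k with
        | zero => intro p; rfl
        | succ k ih => intro p; rw [pow_succ', Equiv.Perm.mul_apply, ih, pow_succ']; rfl
      ext1 p
      rw [this, hπ]
      rfl)
    (p := fun p => G.Reachable x p.1 ∧ G.Adj p.1 p.2)
    (fun p => and_congr (st p.1) (and_congr π.injective.ne_iff (by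
      show B (π p.1) (π p.2) ≠ 0 ↔ _
      rw [hi])))
    (fun p h e => nf p.1 h.1 (congrArg Prod.fst e))
  set V := Nat.card {z // G.Reachable x z} with hV
  set d := Nat.card {p : C × C // G.Reachable x p.1 ∧ G.Adj p.1 p.2} with hd
  have up : d < 2 * V := by
    have h := norm hp hn h4 (x := fun i => if G.Reachable x i then 1 else 0)
      (fun i => by split_ifs <;> norm_num)
      (fun h => by simpa using congrFun h x)
      (P := univ.filter fun p => G.Reachable x p.1 ∧ G.Adj p.1 p.2)
      (fun p h => (mem_filter.1 h).2.2)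
    rw [sum_congr rfl (g := fun _ => (1 : ℝ)) fun p h => by
      have h1 := (mem_filter.1 h).2
      rw [if_pos h1.1, if_pos (h1.1.trans h1.2.reachable), mul_one]] at h
    simp only [ite_pow, one_pow, ne_eq, OfNat.ofNat_ne_zero, not_false_eq_true, zero_pow,
      sum_boole, sum_const, nsmul_eq_mul, mul_one] at h
    rw [hV, hd, Nat.card_eq_fintype_card, Nat.card_eq_fintype_card, Fintype.card_subtype,
      Fintype.card_subtype]
    exact_mod_cast h
  have lo : 2 * V ≤ d + 2 := by
    let K := G.connectedComponentMk x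
    have mem : ∀ z, z ∈ K.supp ↔ G.Reachable x z := fun z => by
      rw [SimpleGraph.ConnectedComponent.mem_supp_iff, SimpleGraph.ConnectedComponent.eq]
      exact SimpleGraph.reachable_comm
    have a1 := K.connected_toSimpleGraph.card_vert_le_card_edgeSet_add_one
    have a2 := K.toSimpleGraph.dart_card_eq_twice_card_edges
    rw [SimpleGraph.edgeFinset_card, ← Nat.card_eq_fintype_card, ← Nat.card_eq_fintype_card] at a2
    have a3 : Nat.card K = V := Nat.card_congr (Equiv.subtypeEquivRight mem)
    have a4 : Nat.card K.toSimpleGraph.Dart ≤ d :=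
      Nat.card_le_card_of_injective
        (fun e => ⟨(e.fst.1, e.snd.1), (mem _).1 e.fst.2, e.adj⟩) fun e e' h => by
          have h' := congrArg Subtype.val h
          exact SimpleGraph.Dart.ext _ _
            (Prod.ext (Subtype.ext (congrArg Prod.fst h')) (Subtype.ext (congrArg Prod.snd h')))
    omega
  have d3 : r ∣ 2 * V - d := Nat.dvd_sub (d1.mul_left 2) d2
  have := Nat.le_of_dvd (by omega) d3
  omega

end Pool.Agent.P.MP_169bcc_al.BR
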