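import Pool.Agent.P.MP_169bcc_al.BR.Base
import Pool.Agent.P.MP_08e617_lc.D4.Jac

/-!
The Jacobian criterion over a field of characteristic zero.
-/

open MvPolynomial

noncomputable section

namespace Pool.Agent.P.MP_169bcc_al.BR

namespace JacP

open MP_08e617_lc.D4

/-- Algebraically independent polynomials have a nonzero Jacobian minor. -/
theorem det_of_indep {F τ ι : Type} [Field F] [CharZero F] [Fintype τ] [Fintype ι] [DecidableEq ι]
    (c : ι → MvPolynomial τ F) (hc : AlgebraicIndependent F c) :
    ∃ l : ι → τ, Function.Injective l ∧ (Matrix.of fun i j => pderiv (l j) (c i)).det ≠ 0 := by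
  classical
  have hX : (AlgebraicIndependent.matroid F (MvPolynomial τ F)).IsBase (Set.range X) :=
    AlgebraicIndependent.matroid_isBase_iff.2
      (IsTranscendenceBasis.mvPolynomial τ F).to_subtype_range
  have hI : (AlgebraicIndependent.matroid F (MvPolynomial τ F)).Indep (Set.range c) :=
    AlgebraicIndependent.matroid_indep_iff.2 hc.to_subtype_range
  obtain ⟨u, hu, h1, h2⟩ := hI.exists_isBase_subset_union_isBase hX
  let I : Set τ := {i | X i ∈ u \ Set.range c}
  have hu' : u = Set.range c ∪ X '' I := by
    refine Set.Subset.antisymm (fun x hx => ?_) (Set.union_subset h1 ?_)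
    · by_cases h : x ∈ Set.range c
      · exact Or.inl h
      · obtain ⟨i, rfl⟩ := (h2 hx).resolve_left h
        exact Or.inr ⟨i, ⟨hx, h⟩, rfl⟩
    · rintro _ ⟨i, hi, rfl⟩
      exact hi.1
  have hcard : Fintype.card ι = Fintype.card ↥Iᶜ := by
    have e1 := hu.ncard_eq_ncard_of_isBase hX
    rw [hu', Set.ncard_union_eq (Set.disjoint_left.2 (by
      rintro _ h ⟨i, hi, rfl⟩
      exact hi.2 h)), Set.ncard_range_of_injective hc.injective,
      Set.ncard_range_of_injective (X_injective (R := F)),
      Set.ncard_image_of_injective _ (X_injective (R := F))] at e1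
    have e2 := Set.ncard_add_ncard_compl I
    rw [← Nat.card_eq_fintype_card, ← Nat.card_eq_fintype_card, Nat.card_coe_set_eq]
    omega
  let e := Fintype.equivOfCardEq hcard
  have hl : Function.Injective fun j => (e j : τ) := Subtype.val_injective.comp e.injective
  refine ⟨fun j => e j, hl, fun h0 => ?_⟩
  obtain ⟨v, hv, h3⟩ := Matrix.exists_mulVec_eq_zero_iff.2 h0
  have halg := (AlgebraicIndependent.matroid_isBase_iff.1 hu).isAlgebraic
  rw [Subtype.range_val] at halg
  refine hv (funext fun j => ?_)
  have := kill (∑ j, v j • pderiv (e j : τ)) _ (kill_adjoin _ ?_) (halg.1 (X (e j : τ)))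
  · rw [der_sum, Finset.sum_eq_single j] at this
    · simpa using this
    · intro j' _ hj
      rw [Derivation.smul_apply, pderiv_X_of_ne (fun h => hj (hl h).symm), smul_zero]
    · simp
  · rw [hu']
    rintro _ (⟨i, rfl⟩ | ⟨i, hi, rfl⟩)
    · have := congrFun h3 i
      rw [der_sum]
      simp only [Matrix.mulVec, dotProduct, Matrix.of_apply, Pi.zero_apply] at this
      rw [← this]
      exact Finset.sum_congr rfl fun j _ => by rw [Derivation.smul_apply, smul_eq_mul, mul_comm]
    · rw [der_sum]
      refine Finset.sum_eq_zero fun j _ => ?_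
      rw [Derivation.smul_apply, pderiv_X_of_ne, smul_zero]
      rintro rfl
      exact (e j).2 hi

end JacP

theorem jac_ok : S_Jac := fun F _ _ τ _ _ _ _ c =>
  ⟨fun h => (JacP.det_of_indep c h).imp fun _ h => h.2, fun ⟨l, hl⟩ =>
    MP_08e617_lc.D4.indep_of_det (C_injective τ F) c (fun j => pderiv (l j)) hl⟩

end Pool.Agent.P.MP_169bcc_al.BR
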