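import Pool.Agent.P.MP_169bcc_al.BR.Base

/-!
Package LW.
-/

open scoped commutatorElement TensorProduct
open LieAlgebra LieSubalgebra Module

noncomputable section

namespace Pool.Agent.P.MP_169bcc_al.BR

namespace LWP

variable {A : Type} [Group A]

/-- An additive model of the window. -/
structure Pre (i : ℕ) (P : ℕ → Subgroup A) {L : Type} [AddCommGroup L] (π : A → L) : Prop where
  mul : ∀ x ∈ P i, ∀ y ∈ P i, π (x * y) = π x + π y
  surj : ∀ v, ∃ x ∈ P i, π x = v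
  eq : ∀ x ∈ P i, ∀ y ∈ P i, π x = π y ↔ Cg (P (2 * i)) x y

theorem exists_pre {p : ℕ} {P : ℕ → Subgroup A} (hF : Filt p P) (i : ℕ) :
    ∃ (L : Type) (_ : AddCommGroup L) (π : A → L), Pre i P π := by
  classical
  haveI hN : (P (2 * i)).Normal := hF.normal _
  let K : Subgroup (A ⧸ P (2 * i)) := (P i).map (QuotientGroup.mk' (P (2 * i)))
  have hc : ∀ a b : K, a * b = b * a := by
    rintro ⟨_, x, hx, rfl⟩ ⟨_, y, hy, rfl⟩
    apply Subtype.ext
    show QuotientGroup.mk' _ x * QuotientGroup.mk' _ y =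
      QuotientGroup.mk' _ y * QuotientGroup.mk' _ x
    rw [← map_mul, ← map_mul, ← cg_iff']
    exact cg_comm hN (hF.anti _ _ (by omega) (hF.comm i i x hx y hy))
  letI : CommGroup K := { (inferInstance : Group K) with mul_comm := hc }
  let π : A → Additive K := fun x =>
    if h : x ∈ P i then Additive.ofMul ⟨QuotientGroup.mk' _ x, x, h, rfl⟩ else 0
  have hπ : ∀ x (h : x ∈ P i), π x = Additive.ofMul ⟨QuotientGroup.mk' _ x, x, h, rfl⟩ :=
    fun x h => dif_pos h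
  refine ⟨Additive K, inferInstance, π, ⟨?_, ?_, ?_⟩⟩
  · intro x hx y hy
    rw [hπ x hx, hπ y hy, hπ _ ((P i).mul_mem hx hy), ← ofMul_mul]
    congr 1
  · rintro ⟨_, x, hx, rfl⟩
    exact ⟨x, hx, hπ x hx⟩
  · intro x hx y hy
    rw [hπ x hx, hπ y hy, cg_iff', Additive.ofMul.injective.eq_iff, Subtype.ext_iff]

section

variable {i : ℕ} {P : ℕ → Subgroup A} {L : Type} [AddCommGroup L] {π : A → L}

theorem Pre.one (h : Pre i P π) : π 1 = 0 := by
  have := h.mul 1 (P i).one_mem 1 (P i).one_mem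
  rw [one_mul] at this
  exact left_eq_add.1 this

theorem Pre.inv (h : Pre i P π) {x : A} (hx : x ∈ P i) : π x⁻¹ = -π x := by
  have := h.mul x hx x⁻¹ ((P i).inv_mem hx)
  rw [mul_inv_cancel, h.one] at this
  exact (neg_eq_of_add_eq_zero_right this.symm).symm

theorem Pre.pow (h : Pre i P π) {x : A} (hx : x ∈ P i) (n : ℕ) : π (x ^ n) = n • π x := by
  induction n with
  | zero => rw [pow_zero, h.one, zero_nsmul]
  | succ n ih => rw [pow_succ, h.mul _ ((P i).pow_mem hx n) _ hx, ih, succ_nsmul]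

theorem Pre.zero (h : Pre i P π) {x : A} (hx : x ∈ P i) (h2 : x ∈ P (2 * i)) : π x = 0 := by
  rw [← h.one, eq_comm, h.eq _ (P i).one_mem _ hx, cg_one]
  exact h2

theorem Pre.tors {p : ℕ} (h : Pre i P π) (hC : CalcA p P) (v : L) : p ^ i • v = 0 := by
  obtain ⟨x, hx, rfl⟩ := h.surj v
  rw [← h.pow hx]
  exact h.zero ((P i).pow_mem hx _) (by rw [two_mul]; exact hC.c0 i i x hx)

/-- The bracket exists as a function. -/
theorem Pre.exists_br {p : ℕ} {U : Subgroup A} (h : Pre i P π) (hR : RelA p i P U) :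
    ∃ b : L → L → L, ∀ x ∈ P i, ∀ y ∈ P i, ∀ w, Rl p i P x y w → b (π x) (π y) = π w := by
  choose r hr hr' using h.surj
  choose c hc using fun u v : L => hR.ex (r u) (hr u) (r v) (hr v)
  refine ⟨fun u v => π (c u v), fun x hx y hy w hw => ?_⟩
  show π (c (π x) (π y)) = π w
  rw [h.eq _ (hc _ _).1 _ hw.1]
  exact hR.uniq _ (hr _) _ (hr _) x hx y hy _ _ ((h.eq _ (hr _) _ hx).1 (hr' _))
    ((h.eq _ (hr _) _ hy).1 (hr' _)) (hc _ _) hw

/-- The action exists as a family of additive maps. -/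
theorem Pre.exists_act {p : ℕ} (h : Pre i P π) (hF : Filt p P) :
    ∃ f : A → L →+ L, ∀ a, ∀ x ∈ P i, f a (π x) = π (a * x * a⁻¹) := by
  choose r hr hr' using h.surj
  have hm : ∀ a, ∀ x ∈ P i, a * x * a⁻¹ ∈ P i := fun a x hx => (hF.normal i).conj_mem x hx a
  have key : ∀ a, ∀ x ∈ P i, π (a * r (π x) * a⁻¹) = π (a * x * a⁻¹) := by
    intro a x hx
    rw [h.eq _ (hm _ _ (hr _)) _ (hm _ _ hx)]
    exact Cg.conj (hF.normal _) ((h.eq _ (hr _) _ hx).1 (hr' _)) a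
  refine ⟨fun a => AddMonoidHom.mk' (fun v => π (a * r v * a⁻¹)) ?_, key⟩
  intro u v
  obtain ⟨x, hx, rfl⟩ := h.surj u
  obtain ⟨y, hy, rfl⟩ := h.surj v
  show π (a * r (π x + π y) * a⁻¹) = π (a * r (π x) * a⁻¹) + π (a * r (π y) * a⁻¹)
  rw [← h.mul x hx y hy, key a _ ((P i).mul_mem hx hy), key a x hx, key a y hy,
    ← h.mul _ (hm a x hx) _ (hm a y hy)]
  congr 1
  group

section

variable {p : ℕ} {U : Subgroup A} {b : L → L → L}

theorem br_add (h : Pre i P π) (hR : RelA p i P U)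
    (hb : ∀ x ∈ P i, ∀ y ∈ P i, ∀ w, Rl p i P x y w → b (π x) (π y) = π w) (u v w : L) :
    b (u + v) w = b u w + b v w := by
  obtain ⟨x, hx, rfl⟩ := h.surj u
  obtain ⟨y, hy, rfl⟩ := h.surj v
  obtain ⟨z, hz, rfl⟩ := h.surj w
  obtain ⟨s, hs⟩ := hR.ex x hx z hz
  obtain ⟨t, ht⟩ := hR.ex y hy z hz
  rw [← h.mul x hx y hy, hb _ ((P i).mul_mem hx hy) z hz _ (hR.mul x hx y hy z hz s t hs ht),
    hb x hx z hz s hs, hb y hy z hz t ht, h.mul s hs.1 t ht.1]

theorem br_skew (h : Pre i P π) (hR : RelA p i P U)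
    (hb : ∀ x ∈ P i, ∀ y ∈ P i, ∀ w, Rl p i P x y w → b (π x) (π y) = π w) (u v : L) :
    b u v = -b v u := by
  obtain ⟨x, hx, rfl⟩ := h.surj u
  obtain ⟨y, hy, rfl⟩ := h.surj v
  obtain ⟨s, hs⟩ := hR.ex y hy x hx
  rw [hb y hy x hx s hs, hb x hx y hy _ (hR.skew y x s hs), h.inv hs.1]

theorem br_self (h : Pre i P π) (hR : RelA p i P U)
    (hb : ∀ x ∈ P i, ∀ y ∈ P i, ∀ w, Rl p i P x y w → b (π x) (π y) = π w) (u : L) :
    b u u = 0 := by
  obtain ⟨x, hx, rfl⟩ := h.surj u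
  rw [hb x hx x hx 1 (hR.self x), h.one]

theorem br_jac (h : Pre i P π) (hR : RelA p i P U)
    (hb : ∀ x ∈ P i, ∀ y ∈ P i, ∀ w, Rl p i P x y w → b (π x) (π y) = π w) (u v w : L) :
    b (b u v) w + b (b v w) u + b (b w u) v = 0 := by
  obtain ⟨x, hx, rfl⟩ := h.surj u
  obtain ⟨y, hy, rfl⟩ := h.surj v
  obtain ⟨z, hz, rfl⟩ := h.surj w
  obtain ⟨w₁, hw₁⟩ := hR.ex x hx y hy
  obtain ⟨v₁, hv₁⟩ := hR.ex w₁ hw₁.1 z hz
  obtain ⟨w₂, hw₂⟩ := hR.ex y hy z hz
  obtain ⟨v₂, hv₂⟩ := hR.ex w₂ hw₂.1 x hx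
  obtain ⟨w₃, hw₃⟩ := hR.ex z hz x hx
  obtain ⟨v₃, hv₃⟩ := hR.ex w₃ hw₃.1 y hy
  have h12 := (P i).mul_mem hv₁.1 hv₂.1
  rw [hb x hx y hy _ hw₁, hb _ hw₁.1 z hz _ hv₁, hb y hy z hz _ hw₂, hb _ hw₂.1 x hx _ hv₂,
    hb z hz x hx _ hw₃, hb _ hw₃.1 y hy _ hv₃, ← h.mul _ hv₁.1 _ hv₂.1, ← h.mul _ h12 _ hv₃.1]
  exact h.zero ((P i).mul_mem h12 hv₃.1)
    (hR.jac x hx y hy z hz _ _ _ _ _ _ hw₁ hv₁ hw₂ hv₂ hw₃ hv₃)

end

end

/-- A Lie ring from a bracket function. -/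
@[reducible] def mkRing {L : Type} [inst : AddCommGroup L] (b : L → L → L)
    (add : ∀ u v w, b (u + v) w = b u w + b v w) (skew : ∀ u v, b u v = -b v u)
    (self : ∀ u, b u u = 0) (jac : ∀ u v w, b (b u v) w + b (b v w) u + b (b w u) v = 0) :
    LieRing L :=
  { inst with
    bracket := b
    add_lie := add
    lie_add := fun u v w => by
      show b u (v + w) = b u v + b u w
      rw [skew u (v + w), add, skew u v, skew u w, neg_add]
    lie_self := self
    leibniz_lie := fun u v w => by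
      show b u (b v w) = b (b u v) w + b v (b u w)
      have hn : ∀ x y, b (-x) y = -b x y := by
        intro x y
        have h0 : b 0 y = 0 := by
          have := add 0 0 y
          rw [add_zero] at this
          exact left_eq_add.1 this
        have := add x (-x) y
        rw [add_neg_cancel, h0] at this
        exact (neg_eq_of_add_eq_zero_right this.symm).symm
      have j := jac u v w
      rw [skew w u, hn] at j
      rw [skew u (b v w), skew v (b u w)]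
      rw [neg_eq_iff_add_eq_zero, ← j]
      abel }

theorem exists_alg (p i : ℕ) [Fact p.Prime] (L : Type) [LieRing L] (h : ∀ v : L, p ^ i • v = 0) :
    ∃ alg : LieAlgebra ℤ_[p] L, ∀ c : ℤ_[p], ∃ n : ℕ, ∀ v : L, c • v = n • v := by
  haveI : NeZero (p ^ i) := ⟨pow_ne_zero _ (Fact.out : p.Prime).ne_zero⟩
  letI m1 : Module (ZMod (p ^ i)) L := AddCommGroup.zmodModule h
  letI m2 : Module ℤ_[p] L := Module.compHom L (PadicInt.toZModPow i)
  have hs : ∀ c : ℤ_[p], ∃ n : ℕ, ∀ v : L, c • v = n • v := by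
    intro c
    refine ⟨(PadicInt.toZModPow i c).val, fun v => ?_⟩
    show (PadicInt.toZModPow i c) • v = _
    rw [← Nat.cast_smul_eq_nsmul (ZMod (p ^ i)), ZMod.natCast_zmod_val]
  refine ⟨{ m2 with lie_smul := fun c x y => ?_ }, hs⟩
  obtain ⟨n, hn⟩ := hs c
  rw [hn, hn, lie_nsmul]

theorem final {p : ℕ} [Fact p.Prime] {i : ℕ} {P : ℕ → Subgroup A} {L : Type} [LieRing L]
    {π : A → L} (hF : Filt p P) (hC : CalcA p P) (h : Pre i P π)
    (hb : ∀ x ∈ P i, ∀ y ∈ P i, ∀ w, Rl p i P x y w → ⁅π x, π y⁆ = π w) :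
    Nonempty (LW p i A P) := by
  obtain ⟨alg, hs⟩ := exists_alg p i L (h.tors hC)
  obtain ⟨f, hf⟩ := h.exists_act hF
  have hm : ∀ a, ∀ x ∈ P i, a * x * a⁻¹ ∈ P i := fun a x hx => (hF.normal i).conj_mem x hx a
  let g : A → Module.End ℤ_[p] L := fun a =>
    { toFun := f a
      map_add' := (f a).map_add
      map_smul' := fun c v => by
        obtain ⟨n, hn⟩ := hs c
        rw [RingHom.id_apply, hn, hn, map_nsmul] }
  have hg : ∀ a, ∀ x ∈ P i, g a (π x) = π (a * x * a⁻¹) := hf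
  let ρ : A →* Module.End ℤ_[p] L :=
    { toFun := g
      map_one' := by
        ext v
        obtain ⟨x, hx, rfl⟩ := h.surj v
        rw [hg 1 x hx, one_mul, inv_one, mul_one, Module.End.one_apply]
      map_mul' := fun a a' => by
        ext v
        obtain ⟨x, hx, rfl⟩ := h.surj v
        rw [Module.End.mul_apply, hg a' x hx, hg a _ (hm a' x hx), hg _ x hx]
        congr 1
        group }
  exact ⟨{
    L := L
    π := π
    π_mul := h.mul
    π_surj := h.surj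
    π_eq := h.eq
    smul := fun c v => (hs c).imp fun _ hn => hn v
    ρ := ρ
    ρ_π := hg
    br := hb }⟩

end LWP

theorem lw_ok : S_LW := by
  intro p _ i A _ P U hF hC hR
  obtain ⟨L, inst, π, h⟩ := LWP.exists_pre hF i
  obtain ⟨b, hb⟩ := h.exists_br hR
  exact @LWP.final A _ p _ i P L
    (LWP.mkRing b (LWP.br_add h hR hb) (LWP.br_skew h hR hb) (LWP.br_self h hR hb)
      (LWP.br_jac h hR hb)) π hF hC h hb

end Pool.Agent.P.MP_169bcc_al.BR
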