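import Pool.Agent.P.MP_169bcc_al.BR.Base

/-!
Package Lat.
-/

open scoped commutatorElement TensorProduct
open LieAlgebra LieSubalgebra Module

noncomputable section

namespace Pool.Agent.P.MP_169bcc_al.BR

theorem lat_ok : S_Lat := by
  intro p _ V _ _ _ _ G _ H ρ Λ K _ _ _ _ ι φ S hA hρ hS hint hφ
  let O : Subalgebra ℤ_[p] K := Algebra.adjoin ℤ_[p] S
  have hO : (Subalgebra.toSubmodule O).FG := fg_adjoin_of_finite hS hint
  let β : K →ₗ[ℤ_[p]] V →ₗ[ℤ_[p]] V := LinearMap.mk₂ ℤ_[p] (fun c v => ι c v)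
    (fun c c' v => by rw [map_add, LinearMap.add_apply])
    (fun r c v => by
      rw [← algebraMap_smul ℚ_[p] r c, map_smul, LinearMap.smul_apply, algebraMap_smul])
    (fun c v v' => by rw [map_add])
    (fun r c v => by rw [LinearMap.map_smul_of_tower])
  let Λ' : Submodule ℤ_[p] V := Submodule.map₂ β (Subalgebra.toSubmodule O) Λ
  have hmem : ∀ c ∈ O, ∀ v ∈ Λ, ι c v ∈ Λ' := fun c hc v hv =>
    Submodule.apply_mem_map₂ β (show c ∈ Subalgebra.toSubmodule O from hc) hv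
  have hle : ∀ v ∈ Λ, v ∈ Λ' := fun v hv => by
    have h := hmem 1 (one_mem O) v hv
    rwa [map_one] at h
  have hst : ∀ T : Module.End ℚ_[p] V, (∀ c ∈ O, ∀ v ∈ Λ, T (ι c v) ∈ Λ') →
      ∀ v ∈ Λ', T v ∈ Λ' := by
    intro T hT v hv
    have h : Λ' ≤ Λ'.comap (T.restrictScalars ℤ_[p]) :=
      Submodule.map₂_le.2 fun c hc w hw => hT c hc w hw
    exact h hv
  have hφO : ∀ a, ∀ c ∈ O, φ a c ∈ O := by
    intro a c hc
    induction hc using Algebra.adjoin_induction with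
    | mem x hx => exact Algebra.subset_adjoin (hφ a x hx)
    | algebraMap r =>
      rw [IsScalarTower.algebraMap_apply ℤ_[p] ℚ_[p] K, AlgEquiv.commutes,
        ← IsScalarTower.algebraMap_apply]
      exact O.algebraMap_mem r
    | add x y _ _ hx hy => rw [map_add]; exact add_mem hx hy
    | mul x y _ _ hx hy => rw [map_mul]; exact mul_mem hx hy
  have hfg : Λ'.FG := hO.map₂ β hA.lat.fg
  refine ⟨Λ', ⟨hA.normal, ⟨hfg, fun v => ?_⟩, fun a => hst _ fun c hc v hv => ?_,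
    fun h hh m => ?_⟩, fun c hc => hst _ fun c' hc' v hv => ?_⟩
  · obtain ⟨k, hk⟩ := hA.lat.span v
    exact ⟨k, hle _ hk⟩
  · rw [← Module.End.mul_apply, hρ, Module.End.mul_apply]
    exact hmem _ (hφO a c hc) _ (hA.stab a v hv)
  · obtain ⟨c, hc⟩ := hA.lat.exists_le hfg
    obtain ⟨N, hN⟩ := hA.uni h hh (c + m)
    refine ⟨N, fun v hv => ?_⟩
    obtain ⟨w, hw, e⟩ := hN _ (hc v hv)
    refine ⟨w, hle w hw, nsmul_cancel (p := p) (k := c) ?_⟩
    rw [← map_nsmul, e, smul_add, pow_add, mul_smul]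
  · rw [← Module.End.mul_apply, ← map_mul]
    exact hmem _ (mul_mem (Algebra.subset_adjoin hc) hc') v hv

end Pool.Agent.P.MP_169bcc_al.BR
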