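import Pool.Agent.P.MP_169bcc_al.BR.Base

/-!
Package Mu.
-/

open scoped commutatorElement TensorProduct
open LieAlgebra LieSubalgebra Module

noncomputable section

namespace Pool.Agent.P.MP_169bcc_al.BR

namespace MuP

variable {p : ℕ} {A : Type} [Group A] {P : ℕ → Subgroup A}

theorem pw (h : Filt p P) (j : ℕ) {x y : A} (hx : x ∈ P j) (hy : y ∈ P j) :
    Cg (P (j + 2)) ((x * y) ^ p) (x ^ p * y ^ p) := by
  have hn := h.normal (j + 2)
  have hc : Cg (P (j + 2)) (x * y) (y * x) :=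
    cg_comm hn (h.anti _ _ (by omega) (h.comm j j x hx y hy))
  rw [cg_iff'] at hc ⊢
  simp only [map_mul, map_pow] at hc ⊢
  exact Commute.mul_pow hc p

theorem pw2 (h : Filt p P) (j : ℕ) {u w : A} (hu : u ∈ P j) (hw : w ∈ P (j + 1)) :
    Cg (P (j + 2)) (u ^ p) ((u * w) ^ p) :=
  (cg_mul_right (h.pow (j + 1) w hw)).trans (pw h j hu (h.anti _ _ (by omega) hw)).symm

theorem key [Finite A] (h : Filt p P) (j : ℕ) (S T : Subgroup A) (hT : P (j + 2) ≤ T)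
    (hS : ∀ x ∈ S, x ∈ P j → x ^ p ∈ T) :
    T.relIndex (P (j + 1)) ≤ S.relIndex (P j) ∧
      (T.relIndex (P (j + 1)) = S.relIndex (P j) → ∀ x ∈ P j, x ^ p ∈ T → x ∈ S) := by
  have hn := h.normal (j + 2)
  obtain ⟨ψ, hψ⟩ : ∃ ψ : P j →* A ⧸ P (j + 2), ∀ x, ψ x = QuotientGroup.mk' _ ((x : A) ^ p) := by
    refine ⟨MonoidHom.mk' (fun x => QuotientGroup.mk' _ ((x : A) ^ p)) fun x y => ?_,
      fun _ => rfl⟩
    rw [← map_mul]
    exact cg_iff'.1 (pw h j x.2 y.2)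
  have hr : ψ.range = (P (j + 1)).map (QuotientGroup.mk' (P (j + 2))) := by
    ext z
    constructor
    · rintro ⟨x, rfl⟩
      exact ⟨_, h.pow j x x.2, (hψ x).symm⟩
    · rintro ⟨y, hy, rfl⟩
      obtain ⟨x, hx, e⟩ := h.onto j y hy
      exact ⟨⟨x, hx⟩, (hψ _).trans (cg_iff'.1 e).symm⟩
  have hc : (T.map (QuotientGroup.mk' (P (j + 2)))).comap (QuotientGroup.mk' (P (j + 2))) = T :=
    Subgroup.comap_map_eq_self (by rw [QuotientGroup.ker_mk']; exact hT)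
  have hm : ∀ x : P j, x ∈ (T.map (QuotientGroup.mk' (P (j + 2)))).comap ψ ↔ (x : A) ^ p ∈ T := by
    intro x
    rw [Subgroup.mem_comap, hψ, ← Subgroup.mem_comap, hc]
  have hi : ((T.map (QuotientGroup.mk' (P (j + 2)))).comap ψ).index = T.relIndex (P (j + 1)) := by
    rw [Subgroup.index_comap, hr, ← Subgroup.relIndex_comap, hc]
  have hle : S.subgroupOf (P j) ≤ (T.map (QuotientGroup.mk' (P (j + 2)))).comap ψ :=
    fun x hx => (hm x).2 (hS x hx x.2)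
  have hmul := Subgroup.relIndex_mul_index hle
  have h0 : (S.subgroupOf (P j)).index ≠ 0 := Subgroup.index_ne_zero_of_finite
  rw [hi] at hmul
  change _ = S.relIndex (P j) at hmul
  change S.relIndex (P j) ≠ 0 at h0
  constructor
  · exact Nat.le_of_dvd (Nat.pos_of_ne_zero h0) (Dvd.intro_left _ hmul)
  · intro e x hx hxT
    rw [e] at hmul
    have h1 := (Nat.mul_eq_right h0).1 hmul
    exact Subgroup.relIndex_eq_one.1 h1 ((hm ⟨x, hx⟩).2 hxT)

theorem dec (h : Filt p P) (U : Subgroup A) (j : ℕ) {x : A} (hx : x ∈ (U ⊓ P j) ⊔ P (j + 1)) :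
    ∃ u ∈ U, u ∈ P j ∧ Cg (P (j + 2)) (u ^ p) (x ^ p) := by
  have hn := h.normal (j + 1)
  obtain ⟨u, hu, w, hw, rfl⟩ := Subgroup.mem_sup_of_normal_right.1 hx
  exact ⟨u, hu.1, hu.2, pw2 h j hu.2 hw⟩

theorem keyU [Finite A] (h : Filt p P) (U : Subgroup A) (j : ℕ) :
    ((U ⊓ P (j + 1)) ⊔ P (j + 2)).relIndex (P (j + 1)) ≤ ((U ⊓ P j) ⊔ P (j + 1)).relIndex (P j) ∧
      (((U ⊓ P (j + 1)) ⊔ P (j + 2)).relIndex (P (j + 1)) =
        ((U ⊓ P j) ⊔ P (j + 1)).relIndex (P j) → Uon p P U j) := by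
  have hmem : ∀ y z : A, y ∈ U → y ∈ P (j + 1) → Cg (P (j + 2)) y z →
      z ∈ (U ⊓ P (j + 1)) ⊔ P (j + 2) := fun y z h1 h2 h3 =>
    (h3.mono le_sup_right).mem (Subgroup.mem_sup_left ⟨h1, h2⟩)
  obtain ⟨k1, k2⟩ := key h j ((U ⊓ P j) ⊔ P (j + 1)) ((U ⊓ P (j + 1)) ⊔ P (j + 2)) le_sup_right
    (fun x hx _ => by
      obtain ⟨u, hu, huj, e⟩ := dec h U j hx
      exact hmem _ _ (U.pow_mem hu p) (h.pow j u huj) e)
  refine ⟨k1, fun e y hy hyj => ?_⟩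
  obtain ⟨x, hx, c⟩ := h.onto j y hyj
  obtain ⟨u, hu, huj, c'⟩ := dec h U j (k2 e x hx (hmem _ _ hy hyj c))
  exact ⟨u, hu, huj, c.trans c'.symm⟩

theorem full_succ (h : Filt p P) (U : Subgroup A) (j : ℕ) (hf : Full P U j) :
    Full P U (j + 1) := by
  intro z hz
  obtain ⟨x, hx, c⟩ := h.onto j z hz
  obtain ⟨u, hu, huj, c'⟩ := hf x hx
  have e := pw2 h j huj c'
  rw [mul_inv_cancel_left] at e
  exact ⟨u ^ p, U.pow_mem hu p, h.pow j u huj, e.trans c.symm⟩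

theorem full_add (h : Filt p P) (U : Subgroup A) (j : ℕ) (hf : Full P U j) (k : ℕ) :
    Full P U (j + k) := by
  induction k with
  | zero => exact hf
  | succ k ih => exact full_succ h U _ ih

theorem approx (h : Filt p P) (U : Subgroup A) (j : ℕ) (hf : Full P U j) (k : ℕ) {z : A}
    (hz : z ∈ P j) : ∃ u ∈ U, Cg (P (j + k)) u z := by
  induction k with
  | zero => exact ⟨1, U.one_mem, cg_one.2 hz⟩
  | succ k ih =>
    obtain ⟨u, hu, c⟩ := ih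
    obtain ⟨v, hv, -, c'⟩ := full_add h U j hf k _ c
    refine ⟨u * v, U.mul_mem hu hv, ?_⟩
    simpa [Cg, mul_assoc, ← Nat.add_assoc] using c'

end MuP

theorem mu_ok : S_Mu := by
  intro p A _ _ P U h
  refine ⟨⟨fun j => (P (j + 1)).relIndex (P j) + ((U ⊓ P j) ⊔ P (j + 1)).relIndex (P j),
    ?_, fun j => ?_, fun j e => ?_⟩, fun j n hf hn z hz => ?_⟩
  · have : ((U ⊓ P 0) ⊔ P 1).relIndex (P 0) ≤ (P 1).relIndex (P 0) :=
      Subgroup.relIndex_le_of_le_left le_sup_right Subgroup.index_ne_zero_of_finite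
    simp only [Nat.zero_add]
    omega
  · exact Nat.add_le_add (MuP.key h j (P (j + 1)) (P (j + 2)) le_rfl
      (fun x hx _ => h.pow _ x hx)).1 (MuP.keyU h U j).1
  · obtain ⟨a1, a2⟩ := MuP.key h j (P (j + 1)) (P (j + 2)) le_rfl (fun x hx _ => h.pow _ x hx)
    obtain ⟨b1, b2⟩ := MuP.keyU h U j
    change (P (j + 2)).relIndex (P (j + 1)) + ((U ⊓ P (j + 1)) ⊔ P (j + 2)).relIndex (P (j + 1)) =
      (P (j + 1)).relIndex (P j) + ((U ⊓ P j) ⊔ P (j + 1)).relIndex (P j) at e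
    exact ⟨a2 (by omega), b2 (by omega)⟩
  · obtain ⟨u, hu, c⟩ := MuP.approx h U j hf n hz
    have c' : u⁻¹ * z ∈ P n := h.anti _ _ (by omega) c
    rw [hn, Subgroup.mem_bot, inv_mul_eq_one] at c'
    exact c' ▸ hu

end Pool.Agent.P.MP_169bcc_al.BR
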