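import Pool.Agent.P.MP_169bcc_al.BR.Base

/-!
Package Nak.
-/

open scoped commutatorElement TensorProduct
open LieAlgebra LieSubalgebra Module

noncomputable section

namespace Pool.Agent.P.MP_169bcc_al.BR

namespace NakP

theorem binom {A : Type} [Ring A] (S : Subring A) {X : A} (hX : X ∈ S) (a n : ℕ) :
    ∃ Y ∈ S, (1 + a • X) ^ n = 1 + (n * a) • X + (a * a) • Y := by
  induction n with
  | zero => exact ⟨0, zero_mem _, by simp⟩
  | succ n ih =>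
    obtain ⟨Y, hY, e⟩ := ih
    refine ⟨Y + n • (X * X) + a • (Y * X), add_mem (add_mem hY (nsmul_mem (mul_mem hX hX) _))
      (nsmul_mem (mul_mem hY hX) _), ?_⟩
    rw [pow_succ, e]
    simp only [mul_add, add_mul, mul_one, one_mul, smul_mul_assoc, mul_smul_comm]
    module

variable {p : ℕ} [Fact p.Prime] {V : Type} [AddCommGroup V] [Module ℚ_[p] V] [Module ℤ_[p] V]

/-- The maps that preserve the lattice, and the subspace modulo `p ^ m`. -/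
def RR (Λ : Submodule ℤ_[p] V) (W : Submodule ℚ_[p] V) (m : ℕ) : Subring (Module.End ℚ_[p] V) where
  carrier := {X | (∀ v ∈ Λ, X v ∈ Λ) ∧
    ∀ v ∈ Λ, v ∈ W → ∃ w ∈ Λ, w ∈ W ∧ ∃ l ∈ Λ, X v = w + p ^ m • l}
  one_mem' := ⟨fun _ h => h, fun v h h' => ⟨v, h, h', 0, zero_mem _, by simp⟩⟩
  zero_mem' := ⟨fun _ _ => zero_mem _, fun _ _ _ =>
    ⟨0, zero_mem _, zero_mem _, 0, zero_mem _, by simp⟩⟩
  add_mem' := fun {X Y} hX hY => ⟨fun v h => add_mem (hX.1 v h) (hY.1 v h), fun v h h' => by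
    obtain ⟨w, a1, a2, l, a3, a4⟩ := hX.2 v h h'
    obtain ⟨w', b1, b2, l', b3, b4⟩ := hY.2 v h h'
    refine ⟨w + w', add_mem a1 b1, add_mem a2 b2, l + l', add_mem a3 b3, ?_⟩
    rw [LinearMap.add_apply, a4, b4, smul_add]
    abel⟩
  neg_mem' := fun {X} hX => ⟨fun v h => neg_mem (hX.1 v h), fun v h h' => by
    obtain ⟨w, a1, a2, l, a3, a4⟩ := hX.2 v h h'
    refine ⟨-w, neg_mem a1, neg_mem a2, -l, neg_mem a3, ?_⟩
    rw [LinearMap.neg_apply, a4, smul_neg]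
    abel⟩
  mul_mem' := fun {X Y} hX hY => ⟨fun v h => hX.1 _ (hY.1 v h), fun v h h' => by
    obtain ⟨w, a1, a2, l, a3, a4⟩ := hY.2 v h h'
    obtain ⟨w', b1, b2, l', b3, b4⟩ := hX.2 w a1 a2
    refine ⟨w', b1, b2, l' + X l, add_mem b3 (hX.1 l a3), ?_⟩
    rw [Module.End.mul_apply, a4, map_add, b4, map_nsmul, smul_add, add_assoc]⟩

variable {Λ : Submodule ℤ_[p] V} {W : Submodule ℚ_[p] V} {m : ℕ} {X : Module.End ℚ_[p] V}

theorem up (h : X ∈ RR Λ W m) : p • X ∈ RR Λ W (m + 1) :=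
  ⟨fun v hv => nsmul_mem (h.1 v hv) p, fun v hv hv' => by
    obtain ⟨w, a1, a2, l, a3, a4⟩ := h.2 v hv hv'
    refine ⟨p • w, nsmul_mem a1 p, nsmul_mem a2 p, l, a3, ?_⟩
    rw [LinearMap.smul_apply, a4, smul_add, pow_succ', mul_smul]⟩

theorem pows (h : X ∈ RR Λ W m) (j : ℕ) : ∃ Y ∈ RR Λ W m, Y - X ∈ RR Λ W (m + 1) ∧
    (1 + p ^ 2 • X) ^ p ^ j = 1 + p ^ (j + 2) • Y := by
  induction j with
  | zero => exact ⟨X, h, by simp, by simp⟩
  | succ j ih =>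
    obtain ⟨Y, h1, h2, e⟩ := ih
    obtain ⟨Z, h3, e'⟩ := binom _ h1 (p ^ (j + 2)) p
    refine ⟨Y + p • p ^ j • Z, add_mem h1 (nsmul_mem (nsmul_mem h3 _) _), ?_, ?_⟩
    · rw [add_sub_right_comm]
      exact add_mem h2 (up (nsmul_mem h3 _))
    · rw [pow_succ p j, pow_mul, e, e']
      module

end NakP

open NakP in
theorem nak_ok : S_Nak := by
  intro p _ V _ _ _ _ Λ T D W hΛ h1 h2 h3 v hv
  obtain ⟨E, rfl⟩ : ∃ E : Module.End ℚ_[p] V, T = 1 + p ^ 2 • E := by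
    refine ⟨((p ^ 2 : ℕ) : ℚ_[p])⁻¹ • (T - 1), ?_⟩
    rw [← Nat.cast_smul_eq_nsmul ℚ_[p], smul_inv_smul₀
      (Nat.cast_ne_zero.2 (pow_ne_zero 2 (Fact.out : p.Prime).ne_zero)), add_sub_cancel]
  have key : ∀ m, E ∈ RR Λ W m := fun m => by
    induction m with
    | zero =>
      have h4 : ∀ v ∈ Λ, E v ∈ Λ := fun v hv => by
        obtain ⟨w, hw, e⟩ := h1 v hv
        rwa [nsmul_cancel (add_left_cancel e : p ^ 2 • E v = p ^ 2 • w)]
      exact ⟨h4, fun v hv _ => ⟨0, zero_mem _, zero_mem _, E v, h4 v hv, by simp⟩⟩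
    | succ m ih =>
      obtain ⟨Y, a1, a2, e⟩ := pows ih (m + 3)
      have a3 : Y ∈ RR Λ W (m + 1) := ⟨a1.1, fun v hv hv' => by
        obtain ⟨w, hw, e'⟩ := h2 (m + 3) v hv
        rw [e, add_assoc v] at e'
        have e2 : p ^ (m + 3 + 2) • Y v = _ := add_left_cancel e'
        have e3 : p ^ 2 • (Y v - p ^ (m + 1) • w) = D v := nsmul_cancel (p := p) (k := m + 3) (by
          rw [eq_sub_of_add_eq e2.symm]
          module)
        exact ⟨Y v - p ^ (m + 1) • w, sub_mem (a1.1 v hv) (nsmul_mem hw _),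
          mem_of_nsmul_mem (e3 ▸ h3 v hv'), w, hw, (sub_add_cancel _ _).symm⟩⟩
      simpa using sub_mem a3 a2
  obtain ⟨k, hk⟩ := hΛ.span v
  have h5 : E (p ^ k • v) ∈ W := clo hΛ.fg fun m => by
    obtain ⟨w, -, a2, l, a3, a4⟩ := (key m).2 _ hk (nsmul_mem hv _)
    exact ⟨w, a2, l, a3, a4⟩
  rw [map_nsmul] at h5
  exact add_mem hv (nsmul_mem (mem_of_nsmul_mem h5) _)

end Pool.Agent.P.MP_169bcc_al.BR
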