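import Pool.Agent.P.MP_169bcc_al.BR.Base

/-!
Package Orb.
-/

open MulAction

noncomputable section

namespace Pool.Agent.P.MP_169bcc_al.BR

namespace OrbP

variable {G J : Type} [Group G] {H : Subgroup G} {σ : G} {p r : ℕ}

/-- An element outside `H` generates the quotient. -/
theorem gen (hr : r.Prime) (h : Dec r H σ) {b : G} (hb : b ∉ H) (a : G) :
    ∃ m : ℕ, a * (b ^ m)⁻¹ ∈ H := by
  have := h.normal
  have key : ∀ x y : G, x * y⁻¹ ∈ H ↔ QuotientGroup.mk' H x = QuotientGroup.mk' H y := fun x y => by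
    rw [← QuotientGroup.eq_one_iff, ← QuotientGroup.mk'_apply, map_mul, map_inv, mul_inv_eq_one]
  obtain ⟨k, hk⟩ := h.dec b
  obtain ⟨i, hi⟩ := h.dec a
  rw [key, map_pow] at hk hi
  have h1 : QuotientGroup.mk' H σ ^ r = 1 := by rw [← map_pow, h.pow, map_one]
  have h2 : k.Coprime r := by
    refine (hr.coprime_iff_not_dvd.2 ?_).symm
    rintro ⟨c, rfl⟩
    rw [pow_mul, h1, one_pow] at hk
    exact hb ((QuotientGroup.eq_one_iff b).1 hk)
  obtain ⟨m, hm⟩ := exists_pow_eq_self_of_coprime (x := QuotientGroup.mk' H σ)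
    (h2.coprime_dvd_right (orderOf_dvd_of_pow_eq_one h1))
  refine ⟨m * i, (key _ _).2 ?_⟩
  rw [map_pow, pow_mul, hk, hm, hi]

theorem isPGroup [Finite J] [MulAction G J] (h : ∀ g ∈ H, ∀ j : J, ∃ N : ℕ, g ^ p ^ N • j = j) :
    IsPGroup p (H.map (toPermHom G J)) := by
  rintro ⟨_, g, hg, rfl⟩
  choose N hN using h g hg
  obtain ⟨M, hM⟩ := (Set.finite_range N).bddAbove
  refine ⟨M, Subtype.ext (Equiv.ext fun j => ?_)⟩
  obtain ⟨c, hc⟩ := Nat.exists_eq_add_of_le (hM ⟨j, rfl⟩)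
  have h1 : g ^ p ^ M ∈ stabilizer G j := by
    rw [hc, pow_add, pow_mul]
    exact pow_mem (mem_stabilizer_iff.2 (hN j)) _
  rw [Subgroup.coe_pow, ← map_pow]
  exact h1

end OrbP

theorem orb_ok : S_Orb := by
  intro p r G _ H σ J _ _ hp hr hne hD h j
  refine or_iff_not_imp_left.2 fun h1 => ?_
  push Not at h1
  obtain ⟨b, hb, hb'⟩ := h1
  have := Fact.mk hp
  have := Fact.mk hr
  have e : orbit (H.map (toPermHom G J)) j = orbit G j := by
    ext x
    constructor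
    · rintro ⟨⟨_, g, -, rfl⟩, rfl⟩
      exact ⟨g, rfl⟩
    · rintro ⟨a, rfl⟩
      obtain ⟨m, hm⟩ := OrbP.gen hr hD hb' a
      refine ⟨⟨_, _, hm, rfl⟩, ?_⟩
      change (a * (b ^ m)⁻¹) • j = a • j
      rw [mul_smul, mem_stabilizer_iff.1 (inv_mem (pow_mem (mem_stabilizer_iff.2 hb) m))]
  obtain ⟨n, hn⟩ := (OrbP.isPGroup h).card_orbit j
  rw [e] at hn
  have := Fintype.ofFinite (orbit G j)
  obtain ⟨⟨_, a, rfl⟩, ha⟩ := Equiv.Perm.exists_fixed_point_of_prime (p := r) (n := 1)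
    (σ := toPermHom G (orbit G j) σ) (by
      rw [← Nat.card_eq_fintype_card, hn]
      exact fun h2 => hne ((Nat.prime_dvd_prime_iff_eq hr hp).1 (hr.dvd_of_dvd_pow h2)).symm)
    (by rw [pow_one, ← map_pow, hD.pow, map_one])
  exact ⟨a, congrArg Subtype.val ha⟩

end Pool.Agent.P.MP_169bcc_al.BR
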