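import Pool.Agent.P.MP_169bcc_al.BR.Base

/-!
Package PE.
-/

open scoped commutatorElement TensorProduct
open LieAlgebra LieSubalgebra Module

noncomputable section

namespace Pool.Agent.P.MP_169bcc_al.BR

namespace PEP

variable {G : Type} [Group G]

/-- The chain of power subgroups. -/
def ch (p : ℕ) (V : Subgroup G) : ℕ → Subgroup G
  | 0 => V
  | i + 1 => Subgroup.closure ((fun x => x ^ p) '' (ch p V i : Set G))

variable {p : ℕ} {V : Subgroup G}

theorem ch_succ (i : ℕ) :
    ch p V (i + 1) = Subgroup.closure ((fun x => x ^ p) '' (ch p V i : Set G)) := rfl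

theorem ch_pow {i : ℕ} {x : G} (hx : x ∈ ch p V i) : x ^ p ∈ ch p V (i + 1) :=
  Subgroup.subset_closure ⟨x, hx, rfl⟩

theorem ch_step (i : ℕ) : ch p V (i + 1) ≤ ch p V i := by
  rw [ch_succ, Subgroup.closure_le]
  rintro _ ⟨x, hx, rfl⟩
  exact (ch p V i).pow_mem hx p

theorem ch_anti {i j : ℕ} (h : i ≤ j) : ch p V j ≤ ch p V i :=
  antitone_nat_of_succ_le (f := ch p V) ch_step h

theorem ch_char (hV : V.Characteristic) (i : ℕ) : (ch p V i).Characteristic := by
  induction i with
  | zero => exact hV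
  | succ i ih =>
    rw [Subgroup.characteristic_iff_le_comap] at ih ⊢
    intro φ
    rw [ch_succ, Subgroup.closure_le]
    rintro _ ⟨x, hx, rfl⟩
    have : φ x ∈ ch p V i := ih φ hx
    have h2 := ch_pow this
    rw [← map_pow] at h2
    exact h2

theorem cm_iff {K : Subgroup G} [K.Normal] {x y : G} :
    ⁅x, y⁆ ∈ K ↔ Commute (QuotientGroup.mk' K x) (QuotientGroup.mk' K y) := by
  rw [← commutatorElement_eq_one_iff_commute, ← map_commutatorElement, ← MonoidHom.mem_ker,
    QuotientGroup.ker_mk']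

theorem pow_comm {X : Type} [Group X] {x z : X} (h1 : Commute ⁅x, z⁆ z) (h2 : ⁅x, z⁆ ^ p = 1) :
    Commute x (z ^ p) := by
  have e : x * z * x⁻¹ = ⁅x, z⁆ * z := by simp only [commutatorElement_def]; group
  have e2 : x * z ^ p * x⁻¹ = z ^ p := by
    rw [← conj_pow, e, h1.mul_pow, h2, one_mul]
  calc x * z ^ p = (x * z ^ p * x⁻¹) * x := by group
    _ = z ^ p * x := by rw [e2]

/-- The filtration inside the group. -/
theorem filt (hV : V.Characteristic)
    (hc : ∀ N K : Subgroup G, N.Normal → K.Normal → N ≤ V → (∀ x ∈ N, x ^ p ^ 2 ∈ K) →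
      ∀ x ∈ N, ∀ v ∈ V, ⁅x, v⁆ ∈ K) : Filt p (ch p V) := by
  have hN : ∀ i, (ch p V i).Normal := fun i => by
    have := ch_char (p := p) hV i
    infer_instance
  have c0 : ∀ i, ∀ x ∈ ch p V i, ∀ v ∈ V, ⁅x, v⁆ ∈ ch p V (i + 2) := by
    intro i
    refine hc _ _ (hN i) (hN _) (ch_anti (Nat.zero_le i)) fun x hx => ?_
    rw [pow_two, pow_mul]
    exact ch_pow (ch_pow hx)
  refine ⟨hN, fun i j => ch_anti, ?_, fun i x => ch_pow, ?_⟩
  · intro i j
    induction j with
    | zero => exact c0 i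
    | succ j ih =>
      intro x hx y hy
      have := hN (i + (j + 1) + 2)
      rw [ch_succ] at hy
      rw [cm_iff]
      induction hy using Subgroup.closure_induction with
      | mem y hy =>
        obtain ⟨z, hz, rfl⟩ := hy
        have hc := ih x hx z hz
        rw [map_pow]
        refine pow_comm ?_ ?_
        · rw [← map_commutatorElement, ← cm_iff]
          exact ch_anti (by omega) (c0 _ _ hc z (ch_anti (Nat.zero_le j) hz))
        · rw [← map_commutatorElement, ← map_pow, ← MonoidHom.mem_ker, QuotientGroup.ker_mk']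
          exact ch_anti (by omega) (ch_pow hc)
      | one => rw [map_one]; exact Commute.one_right _
      | mul a b _ _ ha hb => rw [map_mul]; exact ha.mul_right hb
      | inv a _ ha => rw [map_inv]; exact ha.inv_right
  · intro i y hy
    have := hN (i + 2)
    rw [ch_succ] at hy
    induction hy using Subgroup.closure_induction with
    | mem y hy =>
      obtain ⟨z, hz, rfl⟩ := hy
      exact ⟨z, hz, Cg.refl _ _⟩
    | one => exact ⟨1, one_mem _, Cg.of_eq (one_pow p).symm⟩
    | mul a b _ _ ha hb =>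
      obtain ⟨x, hx, ex⟩ := ha
      obtain ⟨z, hz, ez⟩ := hb
      refine ⟨x * z, mul_mem hx hz, (ex.mul this ez).trans ?_⟩
      have hcm := cm_iff.1 (c0 i x hx z (ch_anti (Nat.zero_le i) hz))
      rw [cg_iff']
      simp only [map_mul, map_pow]
      rw [hcm.mul_pow]
    | inv a _ ha =>
      obtain ⟨x, hx, ex⟩ := ha
      exact ⟨x⁻¹, inv_mem hx, (ex.inv this).trans (Cg.of_eq (inv_pow x p).symm)⟩

/-- The layers are small. -/
theorem layer [Finite G] {P : ℕ → Subgroup G} (hp : 0 < p) (hF : Filt p P) {d : ℕ}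
    (hd : RankLe (⊤ : Subgroup G) d) (i : ℕ) : (P (i + 1)).relIndex (P i) ≤ p ^ d := by
  classical
  have := hF.normal (i + 1)
  obtain ⟨S, hS, hcl⟩ := hd (P i) le_top
  let f := QuotientGroup.mk' (P (i + 1))
  have e1 : (P (i + 1)).relIndex (P i) = Nat.card ((P i).map f) := by
    rw [← Subgroup.relIndex_ker, QuotientGroup.ker_mk']
  have e2 : (P i).map f = Subgroup.closure ((S.image f : Finset _) : Set _) := by
    rw [← hcl, MonoidHom.map_closure, Finset.coe_image]
  have hr : Group.rank ((P i).map f) ≤ d := by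
    rw [Subgroup.rank_congr e2]
    exact (Subgroup.rank_closure_finset_le_card _).trans (Finset.card_image_le.trans hS)
  let _ : CommGroup ((P i).map f) :=
    { (inferInstance : Group ((P i).map f)) with
      mul_comm := by
        rintro ⟨_, x, hx, rfl⟩ ⟨_, y, hy, rfl⟩
        exact Subtype.ext (cm_iff.1 (hF.anti _ _ (by omega) (hF.comm i i x hx y hy))) }
  have hdv : Nat.card ((P i).map f) ∣ p ^ Group.rank ((P i).map f) := by
    refine card_dvd_exponent_pow_rank' _ ?_
    rintro ⟨_, x, hx, rfl⟩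
    refine Subtype.ext ?_
    show f x ^ p = 1
    rw [← map_pow, ← MonoidHom.mem_ker, QuotientGroup.ker_mk']
    exact hF.pow i x hx
  rw [e1]
  exact (Nat.le_of_dvd (pow_pos hp _) hdv).trans (Nat.pow_le_pow_right hp hr)

theorem index_le [Finite G] {P : ℕ → Subgroup G} (hp : 0 < p) (hF : Filt p P) {d : ℕ}
    (hd : RankLe (⊤ : Subgroup G) d) (j : ℕ) : (P j).index ≤ (P 0).index * (p ^ d) ^ j := by
  induction j with
  | zero => simp
  | succ j ih =>
    rw [← Subgroup.relIndex_mul_index (hF.anti j (j + 1) (by omega)), pow_succ, ← mul_assoc,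
      mul_comm]
    exact Nat.mul_le_mul ih (layer hp hF hd j)

/-- A finite `p`-group that is generated by its `p`-th powers is trivial. -/
theorem eq_bot [Finite G] (hp : p.Prime) (hG : IsPGroup p G) (R : Subgroup G)
    (h : R ≤ Subgroup.closure ((fun x => x ^ p) '' (R : Set G))) : R = ⊥ := by
  have : Fact p.Prime := ⟨hp⟩
  obtain ⟨n, hn⟩ := IsPGroup.iff_card.1 (hG.to_subgroup R)
  cases n with
  | zero => exact Subgroup.card_eq_one.1 (by simpa using hn)
  | succ n =>
    exfalso
    obtain ⟨M, hM⟩ := Sylow.exists_subgroup_card_pow_prime (G := R) p (n := n)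
      (hn ▸ pow_dvd_pow p (Nat.le_succ n))
    have hi : M.index = p := by
      have := M.card_mul_index
      rw [hM, hn, pow_succ] at this
      exact Nat.eq_of_mul_eq_mul_left (pow_pos hp.pos n) this
    have hN : M.Normal := Subgroup.normal_of_index_eq_minFac_card (by
      rw [hi, hn, hp.pow_minFac (Nat.succ_ne_zero n)])
    have hle : R ≤ M.map R.subtype := by
      refine h.trans ((Subgroup.closure_le _).2 ?_)
      rintro _ ⟨x, hx, rfl⟩
      refine ⟨⟨x, hx⟩ ^ p, ?_, rfl⟩
      rw [← hi]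
      exact M.pow_index_mem _
    have ht : M = ⊤ := by
      rw [eq_top_iff]
      intro x _
      obtain ⟨y, hy, e⟩ := hle x.2
      exact (Subtype.ext e : y = x) ▸ hy
    rw [ht, Subgroup.index_top] at hi
    exact hp.one_lt.ne hi

theorem ends [Finite G] (hp : p.Prime) (hG : IsPGroup p G) : ∃ n, ch p V n = ⊥ := by
  obtain ⟨_, ⟨n, rfl⟩, hmin⟩ :=
    (wellFounded_lt (α := Subgroup G)).has_min (Set.range (ch p V)) ⟨_, 0, rfl⟩
  refine ⟨n, eq_bot hp hG _ ?_⟩
  rw [← ch_succ]
  exact (eq_of_le_of_not_lt (ch_step n) (hmin _ ⟨n + 1, rfl⟩)).ge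

theorem rank_top {H : Subgroup G} {d : ℕ} (h : RankLe H d) : RankLe (⊤ : Subgroup H) d := by
  classical
  intro K _
  obtain ⟨S, hS, hcl⟩ := h (K.map H.subtype) (Subgroup.map_subtype_le K)
  have hSH : ∀ x ∈ S, x ∈ H := fun x hx =>
    Subgroup.map_subtype_le K (hcl ▸ Subgroup.subset_closure hx)
  refine ⟨S.preimage H.subtype H.subtype_injective.injOn, ?_, ?_⟩
  · rw [Finset.card_preimage]
    exact (Finset.card_filter_le _ _).trans hS
  · apply Subgroup.map_injective H.subtype_injective
    rw [MonoidHom.map_closure, Finset.coe_preimage, Set.image_preimage_eq_of_subset, hcl]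
    intro x hx
    exact ⟨⟨x, hSH x hx⟩, rfl⟩

theorem filt_map {H : Subgroup G} [H.Normal] {P : ℕ → Subgroup H} (hF : Filt p P)
    (hc : ∀ i, (P i).Characteristic) : Filt p fun i => (P i).map H.subtype where
  normal i := by
    have := hc i
    infer_instance
  anti i j hij := Subgroup.map_mono (hF.anti i j hij)
  comm := by
    rintro i j _ ⟨x, hx, rfl⟩ _ ⟨y, hy, rfl⟩
    exact ⟨_, hF.comm i j x hx y hy, map_commutatorElement _ _ _⟩
  pow := by
    rintro i _ ⟨x, hx, rfl⟩
    exact ⟨_, hF.pow i x hx, map_pow _ _ _⟩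
  onto := by
    rintro i _ ⟨y, hy, rfl⟩
    obtain ⟨x, hx, e⟩ := hF.onto i y hy
    exact ⟨_, ⟨x, hx, rfl⟩, _, e, by simp⟩

end PEP

theorem pe_ok (h : S_PE1) : S_PE := by
  intro p d hp
  obtain ⟨B, hB⟩ := h p d hp
  refine ⟨fun j => B * (p ^ d) ^ j, fun A _ _ H hN hH hd => ?_⟩
  obtain ⟨V, hV, hi, hc⟩ := hB H hH (PEP.rank_top hd)
  have hF := PEP.filt hV hc
  refine ⟨fun i => (PEP.ch p V i).map H.subtype, PEP.filt_map hF (PEP.ch_char hV),
    Subgroup.map_subtype_le _, ?_, fun j => ?_⟩
  · obtain ⟨n, hn⟩ := PEP.ends (V := V) hp hH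
    exact ⟨n, by simp only [hn, Subgroup.map_bot]⟩
  · have e : ((PEP.ch p V j).map H.subtype).relIndex H = (PEP.ch p V j).index := by
      rw [Subgroup.relIndex, Subgroup.subgroupOf,
        Subgroup.comap_map_eq_self_of_injective H.subtype_injective]
    rw [e]
    exact (PEP.index_le hp.pos hF (PEP.rank_top hd) j).trans (Nat.mul_le_mul_right _ hi)

end Pool.Agent.P.MP_169bcc_al.BR
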