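import Pool.Agent.P.MP_169bcc_al.BR.Base

/-!
Package PE1.
-/

open scoped commutatorElement TensorProduct
open LieAlgebra LieSubalgebra Module

noncomputable section

namespace Pool.Agent.P.MP_169bcc_al.BR

namespace PE1P

variable {H : Type} [Group H] [Finite H]

/-- The intersection of the subgroups of index at most `m`. -/
def VV (H : Type) [Group H] (m : ℕ) : Subgroup H := ⨅ K : {K : Subgroup H // K.index ≤ m}, K.1

omit [Finite H] in
theorem mem_VV {m : ℕ} {x : H} : x ∈ VV H m ↔ ∀ K : Subgroup H, K.index ≤ m → x ∈ K := by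
  simp only [VV, Subgroup.mem_iInf, Subtype.forall]

omit [Finite H] in
theorem char_VV (m : ℕ) : (VV H m).Characteristic := by
  refine Subgroup.characteristic_iff_le_comap.2 fun φ x hx => ?_
  rw [Subgroup.mem_comap, mem_VV]
  intro K hK
  refine mem_VV.1 hx (K.comap φ.toMonoidHom) ?_
  rw [Subgroup.index_comap_of_surjective _ φ.surjective]
  exact hK

theorem index_VV {d : ℕ} (hr : RankLe (⊤ : Subgroup H) d) (m : ℕ) :
    (VV H m).index ≤ Nat.card (Equiv.Perm (Fin m)) ^ Nat.card (Equiv.Perm (Fin m)) ^ d := by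
  obtain ⟨S, hS, hc⟩ := hr ⊤ le_rfl
  have hpos : 0 < Nat.card (Equiv.Perm (Fin m)) := Nat.card_pos
  let Φ : H →* ((H →* Equiv.Perm (Fin m)) → Equiv.Perm (Fin m)) := MonoidHom.pi fun f => f
  have hinj : Function.Injective
      fun (f : H →* Equiv.Perm (Fin m)) (s : S) => f s := fun f g h =>
    MonoidHom.eq_of_eqOn_dense hc fun x hx => congrFun h ⟨x, hx⟩
  have _ : Finite (H →* Equiv.Perm (Fin m)) := Finite.of_injective _ hinj
  have h1 : Nat.card (H →* Equiv.Perm (Fin m)) ≤ Nat.card (Equiv.Perm (Fin m)) ^ d := by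
    refine (Nat.card_le_card_of_injective _ hinj).trans ?_
    rw [Nat.card_fun, Nat.card_eq_finsetCard]
    exact Nat.pow_le_pow_right hpos hS
  have h2 : Φ.ker ≤ VV H m := fun x hx => by
    refine mem_VV.2 fun K hK => K.normalCore_le ?_
    let ι : (H ⧸ K) ↪ Fin m := (Finite.equivFin (H ⧸ K)).toEmbedding.trans (Fin.castLEEmb hK)
    have h3 := congrFun (MonoidHom.mem_ker.1 hx)
      ((Equiv.Perm.viaEmbeddingHom ι).comp (MulAction.toPermHom H (H ⧸ K)))
    rw [Subgroup.normalCore_eq_ker, MonoidHom.mem_ker]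
    exact Equiv.Perm.viaEmbeddingHom_injective ι (h3.trans (map_one _).symm)
  refine (Subgroup.index_antitone h2).trans ?_
  rw [Subgroup.index_ker]
  refine (Subgroup.card_le_card_group _).trans ?_
  rw [Nat.card_fun]
  exact Nat.pow_le_pow_right hpos h1

omit [Finite H] in
theorem rel_eq (N K : Subgroup H) [K.Normal] :
    K.relIndex N = Nat.card (N.map (QuotientGroup.mk' K)) := by
  rw [← Subgroup.relIndex_ker, QuotientGroup.ker_mk']

/-- An abelian section of exponent dividing `e` has at most `e ^ d` elements. -/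
theorem rel_le {d e : ℕ} (he : 0 < e) (hr : RankLe (⊤ : Subgroup H) d) (N K : Subgroup H)
    [K.Normal] (hc : ∀ x ∈ N, ∀ y ∈ N, ⁅x, y⁆ ∈ K) (hp : ∀ x ∈ N, x ^ e ∈ K) :
    K.relIndex N ≤ e ^ d := by
  classical
  obtain ⟨S, hS, hN⟩ := hr N le_top
  have h1 : N.map (QuotientGroup.mk' K) =
      Subgroup.closure ((S.image (QuotientGroup.mk' K) : Finset (H ⧸ K)) : Set (H ⧸ K)) := by
    rw [← hN, MonoidHom.map_closure, Finset.coe_image]
  have h2 : Group.rank (N.map (QuotientGroup.mk' K)) ≤ d := by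
    rw [Subgroup.rank_congr h1]
    exact (Subgroup.rank_closure_finset_le_card _).trans (Finset.card_image_le.trans hS)
  let _ : CommGroup (N.map (QuotientGroup.mk' K)) :=
    { (inferInstance : Group (N.map (QuotientGroup.mk' K))) with
      mul_comm := by
        rintro ⟨_, x, hx, rfl⟩ ⟨_, y, hy, rfl⟩
        refine Subtype.ext (commutatorElement_eq_one_iff_mul_comm.1 ?_)
        rw [← map_commutatorElement]
        exact (QuotientGroup.eq_one_iff _).2 (hc x hx y hy) }
  have h3 := card_dvd_exponent_pow_rank' (N.map (QuotientGroup.mk' K)) (n := e) (by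
    rintro ⟨_, x, hx, rfl⟩
    refine Subtype.ext ?_
    show QuotientGroup.mk' K x ^ e = 1
    rw [← map_pow]
    exact (QuotientGroup.eq_one_iff _).2 (hp x hx))
  rw [rel_eq]
  exact (Nat.le_of_dvd (Nat.pow_pos he) h3).trans (Nat.pow_le_pow_right he h2)

/-- Small normal sections are centralised by `VV`. -/
theorem cent {m : ℕ} (N K : Subgroup H) [hN : N.Normal] [K.Normal] (h : K.relIndex N ≤ m)
    {x : H} (hx : x ∈ N) {v : H} (hv : v ∈ VV H m) : ⁅x, v⁆ ∈ K := by
  let φ : H →* ConjAct (H ⧸ K) := ConjAct.toConjAct.toMonoidHom.comp (QuotientGroup.mk' K)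
  have hφ : Function.Surjective φ :=
    ConjAct.toConjAct.surjective.comp (QuotientGroup.mk'_surjective K)
  have hs : ∀ a : H, φ a • QuotientGroup.mk' K x = QuotientGroup.mk' K (a * x * a⁻¹) := fun a => by
    rw [map_mul, map_mul, map_inv]
    exact ConjAct.toConjAct_smul _ _
  have h1 := mem_VV.1 hv ((MulAction.stabilizer (ConjAct (H ⧸ K))
    (QuotientGroup.mk' K x)).comap φ) (by
      rw [Subgroup.index_comap_of_surjective _ hφ, MulAction.index_stabilizer]
      refine le_trans ?_ h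
      rw [rel_eq]
      refine Set.ncard_le_ncard (t := (N.map (QuotientGroup.mk' K) : Set (H ⧸ K))) ?_
      rintro _ ⟨g, rfl⟩
      obtain ⟨a, rfl⟩ := hφ g
      exact ⟨_, hN.conj_mem x hx a, (hs a).symm⟩)
  rw [Subgroup.mem_comap, MulAction.mem_stabilizer_iff, hs] at h1
  rw [← QuotientGroup.eq_one_iff, ← QuotientGroup.mk'_apply, map_commutatorElement,
    commutatorElement_eq_one_iff_mul_comm]
  rw [map_mul, map_mul, map_inv, mul_inv_eq_iff_eq_mul] at h1
  exact h1.symm

theorem claim {d e : ℕ} (he : 0 < e) [Group.IsSolvable H] (hr : RankLe (⊤ : Subgroup H) d)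
    (K : Subgroup H) [K.Normal] (n : ℕ) : ∀ N : Subgroup H, Nat.card N = n → N.Normal →
      N ≤ VV H (e ^ d * e ^ d) → (∀ x ∈ N, x ^ e ∈ K) →
        ∀ x ∈ N, ∀ v ∈ VV H (e ^ d * e ^ d), ⁅x, v⁆ ∈ K := by
  induction n using Nat.strong_induction_on with
  | _ n ih =>
    intro N hn hN hV hp x hx v hv
    by_cases h0 : N = ⊥
    · rw [h0, Subgroup.mem_bot] at hx
      rw [hx, commutatorElement_one_left]
      exact K.one_mem
    have hlt := Group.IsSolvable.commutator_lt_of_ne_bot h0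
    have hc : Nat.card (⁅N, N⁆ : Subgroup H) < Nat.card N :=
      Set.ncard_lt_ncard (s := ((⁅N, N⁆ : Subgroup H) : Set H)) (t := (N : Set H))
        (SetLike.coe_ssubset_coe.2 hlt)
    have h1 := ih _ (hn ▸ hc) ⁅N, N⁆ rfl
      inferInstance (hlt.le.trans hV) fun y hy => hp y (hlt.le hy)
    have h2 : K.relIndex ⁅N, N⁆ ≤ e ^ d :=
      rel_le he hr _ K (fun y hy z hz => h1 y hy z (hV (hlt.le hz))) fun y hy => hp y (hlt.le hy)
    have h3 : (⁅N, N⁆ ⊔ K).relIndex N ≤ e ^ d :=
      rel_le he hr N _ (fun y hy z hz =>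
        Subgroup.mem_sup_left (Subgroup.commutator_mem_commutator hy hz))
        fun y hy => Subgroup.mem_sup_right (hp y hy)
    refine cent N K ?_ hx hv
    have h4 : N ⊔ K = N ⊔ (⁅N, N⁆ ⊔ K) := by rw [← sup_assoc, sup_eq_left.2 hlt.le]
    rw [← Subgroup.relIndex_sup_right, ← Subgroup.relIndex_mul_relIndex K (⁅N, N⁆ ⊔ K) (N ⊔ K)
      le_sup_right (sup_le_sup_right hlt.le K), Subgroup.relIndex_sup_right, h4,
      Subgroup.relIndex_sup_right]
    exact Nat.mul_le_mul h2 h3

end PE1P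

theorem pe1_ok : S_PE1 := by
  intro p d hp
  refine ⟨_, fun H _ _ hH hr => ⟨PE1P.VV H ((p ^ 2) ^ d * (p ^ 2) ^ d), PE1P.char_VV _,
    PE1P.index_VV hr _, fun N K hN hK hV h => ?_⟩⟩
  have _ : Fact p.Prime := ⟨hp⟩
  have _ := hH.isNilpotent
  exact PE1P.claim (Nat.pow_pos hp.pos) hr K _ N rfl hN hV h

end Pool.Agent.P.MP_169bcc_al.BR
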