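import Pool.Agent.P.MP_169bcc_al.BR.Base

/-!
Package PG.
-/

open scoped commutatorElement TensorProduct
open LieAlgebra LieSubalgebra Module

noncomputable section

namespace Pool.Agent.P.MP_169bcc_al.BR

namespace PGP

/-- Pigeonhole: a sequence with finitely many values repeats one of them cofinally. -/
theorem pigeon {X : Type} {f : ℕ → X} (N : ℕ → ℕ) (hf : (Set.range f).Finite) :
    ∃ m₀, ∀ m, ∃ m', m ≤ m' ∧ f (N m') = f (N m₀) := by
  have : Finite (Set.range f) := hf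
  obtain ⟨y, hy⟩ := Finite.exists_infinite_fiber
    (fun m : ℕ => (⟨f (N m), N m, rfl⟩ : Set.range f))
  have hy' := Set.infinite_coe_iff.1 hy
  obtain ⟨m₀, h₀⟩ := hy'.nonempty
  refine ⟨m₀, fun m => ?_⟩
  obtain ⟨m', h₁, h₂⟩ := hy'.exists_gt m
  exact ⟨m', h₂.le, congrArg Subtype.val (h₁.trans (Eq.symm h₀))⟩

variable {p : ℕ} [Fact p.Prime] {V : Type} [AddCommGroup V] [Module ℚ_[p] V] [Module ℤ_[p] V]
  [IsScalarTower ℤ_[p] ℚ_[p] V]

omit [Module ℚ_[p] V] [IsScalarTower ℤ_[p] ℚ_[p] V] in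
theorem lower {Λ : Submodule ℤ_[p] V} {m m' : ℕ} (h : m ≤ m') {w : V} (hw : w ∈ Λ) :
    ∃ l ∈ Λ, p ^ m' • w = p ^ m • l := by
  obtain ⟨d, rfl⟩ := Nat.exists_eq_add_of_le h
  exact ⟨p ^ d • w, nsmul_mem hw _, by rw [pow_add, mul_smul]⟩

theorem bound {Λ : Submodule ℤ_[p] V} (h : Lat p Λ) (c : Module.End ℚ_[p] V) :
    ∃ k : ℕ, ∀ v ∈ Λ, p ^ k • c v ∈ Λ := by
  obtain ⟨k, hk⟩ := h.exists_le (h.fg.map (c.restrictScalars ℤ_[p]))
  exact ⟨k, fun v hv => hk _ ⟨v, hv, rfl⟩⟩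

end PGP

open PGP in
theorem pg_ok : S_PG := by
  intro p _ V _ _ _ _ _ G _ H ρ Λ hA h hh
  choose N hN using hA.uni h hh
  refine ⟨fun S hS => ?_, fun c hc => ?_⟩
  · obtain ⟨m₀, h₀⟩ := pigeon (fun m => p ^ N m) hS
    refine ⟨N m₀, ?_⟩
    have hle : S ≤ S.map (ρ (h ^ p ^ N m₀)) := by
      intro v hv
      obtain ⟨k, hk⟩ := hA.lat.span v
      refine mem_of_nsmul_mem (k := k) (clo hA.lat.fg fun m => ?_)
      obtain ⟨m', hm, e⟩ := h₀ m
      obtain ⟨w, hw, e'⟩ := hN m' _ hk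
      obtain ⟨l, hl, e''⟩ := lower (p := p) hm hw
      refine ⟨ρ (h ^ p ^ N m') (p ^ k • v), ?_, -l, Λ.neg_mem hl, ?_⟩
      · rw [← e]
        exact ⟨_, nsmul_mem hv _, rfl⟩
      · rw [e', e'', smul_neg, add_neg_cancel_right]
    exact (Submodule.eq_of_le_of_finrank_le hle (Submodule.finrank_map_le _ _)).symm
  · obtain ⟨m₀, h₀⟩ := pigeon (fun m => p ^ N m) hc
    refine ⟨N m₀, ?_⟩
    set c' := ρ (h ^ p ^ N m₀) * c * ρ (h ^ p ^ N m₀)⁻¹ with hc'
    have key : ∀ a : G, ρ a * c * ρ a⁻¹ * ρ a = ρ a * c := fun a => by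
      rw [mul_assoc, ← map_mul, inv_mul_cancel, map_one, mul_one]
    obtain ⟨k, hk⟩ := bound hA.lat c
    obtain ⟨k', hk'⟩ := bound hA.lat c'
    have hcc : c' = c := by
      have : LinearMap.ker (c' - c) = ⊤ := by
        refine hA.lat.eq_top fun v hv => ?_
        rw [LinearMap.mem_ker, ← Submodule.mem_bot ℚ_[p]]
        refine mem_of_nsmul_mem (k := k + k') (clo hA.lat.fg fun m => ?_)
        obtain ⟨m', hm, e⟩ := h₀ m
        obtain ⟨w, hw, e₁⟩ := hN m' v hv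
        obtain ⟨w', hw', e₂⟩ := hN m' _ (hk v hv)
        have e₃ : c' (ρ (h ^ p ^ N m') v) = ρ (h ^ p ^ N m') (c v) := by
          have := key (h ^ p ^ N m')
          rw [e] at this
          exact LinearMap.congr_fun this v
        obtain ⟨l, hl, e₄⟩ := lower (p := p) hm
          (Λ.sub_mem (nsmul_mem hw' (p ^ k')) (nsmul_mem (hk' w hw) (p ^ k)))
        refine ⟨0, Submodule.zero_mem _, l, hl, ?_⟩
        rw [map_nsmul, ← e₃, e₁, map_add, map_nsmul] at e₂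
        rw [zero_add, ← e₄, LinearMap.sub_apply]
        linear_combination (norm := module) (p ^ k') • e₂
      exact sub_eq_zero.1 (LinearMap.ker_eq_top.1 this)
    rw [← key, ← hc', hcc]

end Pool.Agent.P.MP_169bcc_al.BR
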