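import Pool.Agent.P.MP_169bcc_al.BR.Base

/-!
Package RelA.
-/

open scoped commutatorElement TensorProduct
open LieAlgebra LieSubalgebra Module

noncomputable section

namespace Pool.Agent.P.MP_169bcc_al.BR

namespace RelAP

variable {p i : ℕ} {A : Type} [Group A] {P : ℕ → Subgroup A} {U : Subgroup A}

theorem down (hF : Filt p P) {a b : ℕ} {x y : A} (h : Cg (P a) x y) (hab : b ≤ a) :
    Cg (P b) x y := h.mono (hF.anti _ _ hab)

theorem cancel (hF : Filt p P) (hA : CalcA p P) (hW : CalcW p (4 * i) P U) {w w' : A}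
    (hw : w ∈ P i) (hw' : w' ∈ P i) (h : Cg (P (3 * i)) (w ^ p ^ i) (w' ^ p ^ i)) :
    Cg (P (2 * i)) w w' := by
  have h1 := down hF (hA.c1 i i _ ((P i).inv_mem hw) _ hw') (show 2 * i + i ≤ _ by omega)
  refine hW.c4 (2 * i) i _ (hF.anti _ _ (Nat.zero_le i) ((P i).mul_mem ((P i).inv_mem hw) hw'))
    (by omega) (h1.symm.mem ?_)
  rw [inv_pow]
  exact hF.anti _ _ (by omega) h

theorem double (hF : Filt p P) (hA : CalcA p P) (hB : CalcB p P) {x y z w v : A} (hz : z ∈ P i)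
    (h : Rl p i P x y w) (h' : Rl p i P w z v) :
    Cg (P (4 * i)) ⁅⁅x, y⁆, z⁆ (v ^ p ^ (2 * i)) := by
  have h1 := down hF (hB.cl i (3 * i) _ _ z hz h.2) (show 4 * i ≤ _ by omega)
  have h2 := down hF (hB.c6 i i i w h.1 z hz) (show 4 * i ≤ _ by omega)
  have h3 := down hF (hA.c2 (2 * i) (3 * i) i _ (hF.anti _ _ (by omega) (hF.comm i i w h.1 z hz)) _
    (by omega) (by omega) h'.2) (show 4 * i ≤ _ by omega)
  rw [← pow_mul, ← pow_add, ← two_mul] at h3
  exact (h1.trans h2).trans h3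

end RelAP

open RelAP

theorem relA_ok : S_RelA := by
  intro p i A _ P U hF hA hB hW
  refine ⟨fun x hx y hy => ?_, fun x _ y hy x' hx' y' _ w w' e e' h h' => ?_,
    fun x hx x' hx' y hy w w' h h' => ⟨(P i).mul_mem h.1 h'.1, ?_⟩,
    fun x y w h => ⟨(P i).inv_mem h.1, ?_⟩, fun x => ⟨(P i).one_mem, Cg.of_eq (by simp)⟩,
    fun a x y w h => ⟨(hF.normal i).conj_mem _ h.1 a, ?_⟩, fun x hx y hy hx' hy' => ?_,
    fun x hx y hy z hz w₁ v₁ w₂ v₂ w₃ v₃ h₁ g₁ h₂ g₂ h₃ g₃ => ?_⟩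
  · obtain ⟨w, hw, h⟩ := hA.c3 i (2 * i) i _ (hF.anti _ _ (by omega) (hF.comm i i x hx y hy))
      (by omega)
    exact ⟨w, hw, down hF h (by omega)⟩
  · refine cancel hF hA hW h.1 h'.1 ((h.2.symm.trans ?_).trans h'.2)
    exact (down hF (hB.cl i (2 * i) _ _ y hy e) (by omega)).trans
      (down hF (hB.cr i (2 * i) _ _ x' hx' e') (by omega))
  · exact ((down hF (hB.c7 i i x hx x' hx' y hy) (by omega)).trans
      (h.2.mul (hF.normal _) h'.2)).trans (down hF (hA.c1 i i w h.1 w' h'.1).symm (by omega))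
  · have := h.2.inv (hF.normal _)
    rwa [commutatorElement_inv, ← inv_pow] at this
  · have := h.2.conj (hF.normal _) a
    rwa [conjugate_commutatorElement, ← conj_pow] at this
  · obtain ⟨w, hw, hw', h⟩ := hW.c5 i (2 * i) i ⁅x, y⁆
      (by
        rw [commutatorElement_def]
        exact U.mul_mem (U.mul_mem (U.mul_mem hx hy) (U.inv_mem hx)) (U.inv_mem hy))
      (hF.anti _ _ (by omega) (hF.comm i i x hx' y hy')) (by omega) (by omega)
    exact ⟨w, hw, hw', down hF h (by omega)⟩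
  · have hN := hF.normal (4 * i)
    have h1 := (((double hF hA hB hz h₁ g₁).mul hN (double hF hA hB hx h₂ g₂)).mul hN
      (double hF hA hB hy h₃ g₃)).mem (hF.anti _ _ (by omega) (hB.c8 i x hx y hy z hz))
    have h2 := down hF (hA.c1 i (2 * i) _ g₁.1 _ g₂.1) (show 4 * i ≤ _ by omega)
    have h3 := down hF (hA.c1 i (2 * i) _ ((P i).mul_mem g₁.1 g₂.1) _ g₃.1)
      (show 4 * i ≤ _ by omega)
    have h4 := (h3.trans (h2.mul hN (Cg.refl _ _))).symm.mem h1
    exact hW.c4 (2 * i) (2 * i) _ (hF.anti _ _ (Nat.zero_le i)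
      ((P i).mul_mem ((P i).mul_mem g₁.1 g₂.1) g₃.1)) (by omega) (hF.anti _ _ (by omega) h4)

end Pool.Agent.P.MP_169bcc_al.BR
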