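import Pool.Agent.P.MP_169bcc_al.BR.Base

/-!
Package RelB.
-/

open scoped commutatorElement TensorProduct
open LieAlgebra LieSubalgebra Module

noncomputable section

namespace Pool.Agent.P.MP_169bcc_al.BR

namespace RelBP

variable {p N : ℕ} {A : Type} [Group A] {P : ℕ → Subgroup A} {U : Subgroup A}

theorem down (hF : Filt p P) {a b : ℕ} {x y : A} (h : Cg (P a) x y) (hab : b ≤ a) :
    Cg (P b) x y := h.mono (hF.anti _ _ hab)

theorem cancel (hF : Filt p P) (hA : CalcA p P) (hW : CalcW p N P U) {a b s : ℕ} {w w' : A}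
    (hw : w ∈ P a) (hw' : w' ∈ P a) (hb : b ≤ 2 * a + 1) (hN : b + s ≤ N)
    (h : Cg (P (b + s)) (w ^ p ^ s) (w' ^ p ^ s)) : Cg (P b) w w' := by
  have h1 := down hF (hA.c1 a s _ ((P a).inv_mem hw) _ hw') (show b + s ≤ _ by omega)
  refine hW.c4 b s _ (hF.anti _ _ (Nat.zero_le a) ((P a).mul_mem ((P a).inv_mem hw) hw')) hN
    (h1.symm.mem ?_)
  rw [inv_pow]
  exact h

end RelBP

open RelBP

theorem relB_ok : S_RelB := by
  intro p i A _ P U hi hF hA hB hW
  refine ⟨fun m a ha y hy => ?_, fun j hj a ha y hy w hw => ?_, fun hfull => ?_, fun x hx => ?_⟩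
  · obtain ⟨v, hv, h⟩ := hA.c3 i (2 * i) (m + 2) _
      (hF.anti _ _ (by omega) (hF.comm m i a ha y hy)) (by omega)
    exact ⟨v, hv, down hF h (by omega)⟩
  · have hz : a ^ p ^ j ∈ P j := hF.anti _ _ (by omega) (hA.c0 0 j a ha)
    have hc : ⁅a ^ p ^ j, y⁆ ∈ P (i + j) := hF.anti _ _ (by omega) (hF.comm j i _ hz y hy)
    obtain ⟨u, hu, h1⟩ := hA.c3 i (2 * i) j _ hc (by omega)
    have e : j + (i - j) = i := by omega
    have h2 := down hF (hB.c6 j i (i - j) _ hz y hy) (show i + j + i ≤ _ by omega)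
    have h3 := down hF (hA.c2 (i + j) (2 * i + j) (i - j) _ hc _ (by omega) (by omega) h1)
      (show i + j + i ≤ _ by omega)
    rw [← pow_mul, ← pow_add, e] at h2 h3
    have h4 : Cg (P (i + j)) w u := cancel hF hA hW hw.1 hu (by omega) (by omega)
      (((down hF hw.2 (by omega)).symm.trans h2).trans h3)
    obtain ⟨v, hv, h5⟩ := hA.c3 i (2 * i) j _ h4 (by omega)
    have h6 := down hF (hA.c1 i j w hw.1 _ (hF.anti _ _ (by omega) h4)) (show 2 * i ≤ _ by omega)
    have h7 := (down hF h5 (show 2 * i ≤ _ by omega)).pow (hF.normal _) (p ^ j)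
    rw [mul_inv_cancel_left] at h6
    rw [← pow_mul, ← pow_add, ← two_mul] at h7
    exact ⟨v, hv, ((down hF h1 (by omega)).trans h6).trans ((Cg.refl _ _).mul (hF.normal _) h7)⟩
  · simp only [Full, not_forall, not_exists, not_and] at hfull
    obtain ⟨z, hz, hn⟩ := hfull
    refine ⟨z ^ p ^ i, hF.anti _ _ (by omega) (hA.c0 0 i z hz), fun k hk u hu _ v hv h => ?_⟩
    rw [← pow_mul, ← pow_add] at h
    have h1 : Cg (P (1 + (i + k))) (z ^ p ^ (i + k)) u := (down hF h (by omega)).trans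
      (cg_mul_right (hF.anti _ _ (by omega) (hA.c0 i (k + 1) v hv))).symm
    obtain ⟨u₀, hu₀, hu₁, h2⟩ := hW.c5 0 1 (i + k) u hu
      ((down hF h1 (by omega)).mem (hA.c0 0 (i + k) z hz)) (by omega) (by omega)
    exact hn u₀ hu₀ hu₁ (cancel hF hA hW hu₁ hz (by omega) (by omega) (h1.trans h2).symm)
  · obtain ⟨z, hz, h1⟩ := hA.c3 0 1 i x (hF.anti _ _ (by omega) hx) (by omega)
    refine ⟨z, hz, fun t ht => ?_⟩
    have h2 := (h1.trans (hA.c2 0 1 i z hz t (by omega) (by omega) ht.symm)).symm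
    obtain ⟨v, hv, h3⟩ := hA.c3 i (2 * i) 1 _ (down hF h2 (by omega)) (by omega)
    have h4 := (Cg.refl _ (t ^ p ^ i)).mul (hF.normal _) (down hF h3 (show 2 * i ≤ _ by omega))
    rw [mul_inv_cancel_left, pow_one] at h4
    exact ⟨v, hv, h4⟩

end Pool.Agent.P.MP_169bcc_al.BR
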