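import Pool.Agent.P.MP_169bcc_al.BR.Base

/-!
A long uniform window is filled by a covering subgroup.
-/

noncomputable section

namespace Pool.Agent.P.MP_169bcc_al.BR

theorem w_ok (h0 : S_Dec) (h1 : S_CalcA) (h2 : S_CalcW) (h3 : S_CalcB) (h4 : S_RelA)
    (h5 : S_RelB) (h6 : S_LW) (h7 : S_WD) (h8 : S_Lim) : S_W := by
  intro p r B hp hr h5r hne
  have : Fact p.Prime := ⟨hp⟩
  obtain ⟨i, hi, H⟩ := h8 p r B hr h5r hne
  refine ⟨4 * i, fun A _ _ K U P hK hG hI hC hF hP hB hW => ?_⟩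
  by_contra hn
  obtain ⟨σ, hσ⟩ := h0 p r A K hp hr hne hK hG hI
  have cA := h1 p A P hF
  have cW := h2 p _ A P U hF cA hW
  have cB := h3 p A P hF cA
  have rA := h4 p i A P U hF cA cB cW
  have rB := h5 p i A P U hi hF cA cB cW
  obtain ⟨L⟩ := h6 p i A P U hF cA rA
  obtain ⟨D⟩ := h7 p i B A K U P hG hC hF cA hP hB hn rA rB L
  exact (H A K σ hσ).false D

end Pool.Agent.P.MP_169bcc_al.BR
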