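import Pool.Agent.P.MP_169bcc_al.BR.Base

/-!
Package WD.
-/

open scoped commutatorElement TensorProduct
open LieAlgebra LieSubalgebra Module

noncomputable section

namespace Pool.Agent.P.MP_169bcc_al.BR

namespace WDP

variable {p : ℕ} [Fact p.Prime] {i : ℕ} {A : Type} [Group A] {P : ℕ → Subgroup A}

theorem pi_one (W : LW p i A P) : W.π 1 = 0 := by
  have := W.π_mul 1 (one_mem _) 1 (one_mem _)
  rw [one_mul] at this
  simpa using this

theorem pi_pow (W : LW p i A P) {x : A} (hx : x ∈ P i) (n : ℕ) : W.π (x ^ n) = n • W.π x := by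
  induction n with
  | zero => rw [pow_zero, zero_smul, pi_one]
  | succ n ih => rw [pow_succ, W.π_mul _ (pow_mem hx n) _ hx, ih, succ_nsmul]

theorem kill (W : LW p i A P) (hA : CalcA p P) (v : W.L) : p ^ i • v = 0 := by
  obtain ⟨x, hx, rfl⟩ := W.π_surj v
  rw [← pi_pow W hx, ← pi_one W, W.π_eq _ (pow_mem hx _) _ (one_mem _)]
  refine cg_of_mem ?_ (one_mem _)
  rw [two_mul]
  exact hA.c0 i i x hx

omit [Fact p.Prime] in
theorem comm_mem (hF : Filt p P) (a : A) {y : A} (hy : y ∈ P i) : ⁅a, y⁆ ∈ P i := by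
  rw [commutatorElement_def]
  exact mul_mem ((hF.normal i).conj_mem y hy a) (inv_mem hy)

theorem rho_pi (W : LW p i A P) (hF : Filt p P) (a : A) {y : A} (hy : y ∈ P i) :
    W.ρ a (W.π y) = W.π y + W.π ⁅a, y⁆ := by
  rw [W.ρ_π a y hy, add_comm, ← W.π_mul _ (comm_mem hF a hy) _ hy, commutatorElement_def,
    inv_mul_cancel_right]

/-- The image of `U`. -/
def sub (W : LW p i A P) {U : Subgroup A} (hR : RelA p i P U) : LieSubalgebra ℤ_[p] W.L where
  carrier := {v | ∃ u ∈ U, u ∈ P i ∧ W.π u = v}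
  zero_mem' := ⟨1, one_mem _, one_mem _, pi_one W⟩
  add_mem' := by
    rintro _ _ ⟨u, a, b, rfl⟩ ⟨u', a', b', rfl⟩
    exact ⟨u * u', mul_mem a a', mul_mem b b', W.π_mul _ b _ b'⟩
  smul_mem' := by
    rintro c _ ⟨u, a, b, rfl⟩
    obtain ⟨n, hn⟩ := W.smul c (W.π u)
    exact ⟨u ^ n, pow_mem a n, pow_mem b n, by rw [hn, pi_pow W b]⟩
  lie_mem' := by
    rintro _ _ ⟨u, a, b, rfl⟩ ⟨u', a', b', rfl⟩
    obtain ⟨w, hw, hr⟩ := hR.inU u a u' a' b b'
    exact ⟨w, hw, hr.1, (W.br u b u' b' w hr).symm⟩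

theorem reps [Finite A] {S : Subgroup A} {B : ℕ} (h : S.index ≤ B) :
    ∃ t : Fin B → A, ∀ a, ∃ s, Cg S (t s) a := by
  classical
  have := Fintype.ofFinite (A ⧸ S)
  obtain ⟨e⟩ : Nonempty (A ⧸ S ↪ Fin B) := Function.Embedding.nonempty_of_card_le (by
    rw [Fintype.card_fin, ← Nat.card_eq_fintype_card]; exact h)
  refine ⟨fun s => (Function.invFun e s).out, fun a => ⟨e a, ?_⟩⟩
  rw [cg_iff]
  beta_reduce
  rw [Function.leftInverse_invFun e.injective, QuotientGroup.out_eq']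

theorem pow_mem_of [Finite A] {H S : Subgroup A} (hS : S.Normal) {B : ℕ} (hH : IsPGroup p H)
    (h : S.index ≤ B) {a : A} (ha : a ∈ H) : a ^ p ^ B ∈ S := by
  have hp : p.Prime := Fact.out
  obtain ⟨k, hk⟩ := hH ⟨a, ha⟩
  have h1 : (QuotientGroup.mk' S a) ^ p ^ k = 1 := by
    rw [← map_pow, show a ^ p ^ k = 1 from congrArg Subtype.val hk, map_one]
  obtain ⟨b, -, hb⟩ := (Nat.dvd_prime_pow hp).1 (orderOf_dvd_of_pow_eq_one h1)
  have h2 : orderOf (QuotientGroup.mk' S a) ≤ B := orderOf_le_card.trans h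
  have h3 : b ≤ B := by
    have := Nat.lt_pow_self (n := b) hp.one_lt
    omega
  rw [← QuotientGroup.eq_one_iff, ← QuotientGroup.mk'_apply, map_pow, ← orderOf_dvd_iff_pow_eq_one,
    hb]
  exact pow_dvd_pow p h3

theorem act (W : LW p i A P) (hF : Filt p P) {U : Subgroup A} (hB : RelB p i P U) {m : ℕ} {a : A}
    (ha : a ∈ P m) (y : W.L) : ∃ v, W.ρ a y = y + p ^ (m + 2) • v := by
  obtain ⟨y, hy, rfl⟩ := W.π_surj y
  obtain ⟨v, hv, c⟩ := hB.act m a ha y hy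
  exact ⟨W.π v, by
    rw [rho_pi W hF a hy, (W.π_eq _ (comm_mem hF a hy) _ (pow_mem hv _)).2 c, pi_pow W hv]⟩

end WDP

open WDP in
theorem wd_ok : S_WD := by
  intro p _ i B A _ _ H U P hH hC hF hA h0 hI hN hR hB W
  obtain ⟨t, ht⟩ := reps hI
  have h10 : P 1 ≤ P 0 := hF.anti 0 1 zero_le_one
  have c0 : ∀ a ∈ P 0, a ^ p ^ i ∈ P i := fun a ha => by simpa using hA.c0 0 i a ha
  refine ⟨{
    L := W.L
    ρ := W.ρ
    lie := ?_
    M := sub W hR
    g := fun s => W.π (t s ^ p ^ i)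
    span := ?_
    cov := ?_
    uni := ?_
    far := ?_
    t := t
    link := ?_ }⟩
  · intro a x y
    obtain ⟨x, hx, rfl⟩ := W.π_surj x
    obtain ⟨y, hy, rfl⟩ := W.π_surj y
    obtain ⟨w, hw⟩ := hR.ex x hx y hy
    rw [W.br x hx y hy w hw, W.ρ_π a w hw.1, W.ρ_π a x hx, W.ρ_π a y hy,
      W.br _ ((hF.normal i).conj_mem x hx a) _ ((hF.normal i).conj_mem y hy a) _
        (hR.conj a x y w hw)]
  · have step : ∀ x : W.L, ∃ s, ∃ v, x = W.π (t s ^ p ^ i) + p • v := by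
      intro x
      obtain ⟨x, hx, rfl⟩ := W.π_surj x
      obtain ⟨z, hz, hg⟩ := hB.gen x hx
      obtain ⟨s, hs⟩ := ht z
      obtain ⟨v, hv, c⟩ := hg (t s) hs
      have h1 := c0 _ ((hs.symm.mono h10).mem hz)
      exact ⟨s, W.π v, by
        rw [(W.π_eq _ hx _ (mul_mem h1 (pow_mem hv _))).2 c, W.π_mul _ h1 _ (pow_mem hv _),
          pi_pow W hv]⟩
    have iter : ∀ (k : ℕ) (x : W.L), ∃ n ∈ Submodule.span ℤ_[p]
        (Set.range fun s => W.π (t s ^ p ^ i)), ∃ v, x = n + p ^ k • v := by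
      intro k x
      induction k with
      | zero => exact ⟨0, zero_mem _, x, by simp⟩
      | succ k ih =>
        obtain ⟨n, hn, v, e⟩ := ih
        obtain ⟨s, v', e'⟩ := step v
        refine ⟨n + p ^ k • W.π (t s ^ p ^ i), add_mem hn
          (nsmul_mem (Submodule.subset_span (Set.mem_range_self s)) _), v', ?_⟩
        rw [e, e', smul_add, smul_smul, pow_succ, add_assoc]
    intro x
    obtain ⟨n, hn, v, e⟩ := iter i x
    rw [kill W hA, add_zero] at e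
    obtain ⟨c, hc⟩ := (Submodule.mem_span_range_iff_exists_fun _).1 hn
    exact ⟨c, e.trans hc.symm⟩
  · intro x
    obtain ⟨x, hx, rfl⟩ := W.π_surj x
    obtain ⟨a, ha⟩ := hC x (h0 (hF.anti 0 i (Nat.zero_le i) hx))
    exact ⟨a, _, ha, (hF.normal i).conj_mem x hx a, (W.ρ_π a x hx).symm⟩
  · intro h hh m x
    have h1 := hA.c0 1 m _ (pow_mem_of (hF.normal 1) hH hI hh)
    rw [← pow_mul, ← pow_add] at h1
    obtain ⟨v, hv⟩ := act W hF hB h1 x
    exact ⟨p ^ 3 • v, by rw [hv, smul_smul, ← pow_add, show 1 + m + 2 = m + 3 by omega]⟩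
  · obtain ⟨x, hx, hf⟩ := hB.far hN
    refine ⟨W.π x, ?_⟩
    rintro k hk _ ⟨u, hu, hu', rfl⟩ v e
    obtain ⟨v, hv, rfl⟩ := W.π_surj v
    rw [← pi_pow W hx, ← pi_pow W hv, ← W.π_mul _ hu' _ (pow_mem hv _),
      W.π_eq _ (pow_mem hx _) _ (mul_mem hu' (pow_mem hv _))] at e
    exact hf k hk u hu hu' v hv e
  · intro a
    obtain ⟨s, hs⟩ := ht a
    have hb : (t s)⁻¹ * a ∈ P 0 := h10 hs
    refine ⟨s, W.π (((t s)⁻¹ * a) ^ p ^ i), act W hF hB hb, fun j hj y => ?_⟩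
    obtain ⟨y, hy, rfl⟩ := W.π_surj y
    obtain ⟨w, hw⟩ := hR.ex _ (c0 _ hb) y hy
    obtain ⟨v, hv, c⟩ := hB.link j hj _ hb y hy w hw
    exact ⟨W.π v, by
      rw [rho_pi W hF _ hy, (W.π_eq _ (comm_mem hF _ hy) _
        (mul_mem (pow_mem hw.1 _) (pow_mem hv _))).2 c, W.π_mul _ (pow_mem hw.1 _) _ (pow_mem hv _),
        pi_pow W hw.1, pi_pow W hv, W.br _ (c0 _ hb) y hy w hw, add_assoc]⟩

end Pool.Agent.P.MP_169bcc_al.BR
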