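import Pool.Agent.P.MP_169bcc_al.BR.Small
import Pool.Agent.P.MP_169bcc_al.BR.PE1
import Pool.Agent.P.MP_169bcc_al.BR.PE
import Pool.Agent.P.MP_169bcc_al.BR.CalcA
import Pool.Agent.P.MP_169bcc_al.BR.CalcB
import Pool.Agent.P.MP_169bcc_al.BR.Mu
import Pool.Agent.P.MP_169bcc_al.BR.RelA
import Pool.Agent.P.MP_169bcc_al.BR.RelB
import Pool.Agent.P.MP_169bcc_al.BR.LW
import Pool.Agent.P.MP_169bcc_al.BR.WD
import Pool.Agent.P.MP_169bcc_al.BR.Lim
import Pool.Agent.P.MP_169bcc_al.BR.Iter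
import Pool.Agent.P.MP_169bcc_al.BR.Nil
import Pool.Agent.P.MP_169bcc_al.BR.LieZ
import Pool.Agent.P.MP_169bcc_al.BR.Nak
import Pool.Agent.P.MP_169bcc_al.BR.Chief
import Pool.Agent.P.MP_169bcc_al.BR.PG
import Pool.Agent.P.MP_169bcc_al.BR.Orb
import Pool.Agent.P.MP_169bcc_al.BR.Eps
import Pool.Agent.P.MP_169bcc_al.BR.Lat
import Pool.Agent.P.MP_169bcc_al.BR.Field
import Pool.Agent.P.MP_169bcc_al.BR.FRM
import Pool.Agent.P.MP_169bcc_al.BR.GenH
import Pool.Agent.P.MP_169bcc_al.BR.FR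
import Pool.Agent.P.MP_169bcc_al.BR.Cen
import Pool.Agent.P.MP_169bcc_al.BR.Kac2
import Pool.Agent.P.MP_169bcc_al.BR.Kac
import Pool.Agent.P.MP_169bcc_al.BR.Graph
import Pool.Agent.P.MP_169bcc_al.BR.Root
import Pool.Agent.P.MP_169bcc_al.BR.Diag
import Pool.Agent.P.MP_169bcc_al.BR.Inner
import Pool.Agent.P.MP_169bcc_al.BR.Cent
import Pool.Agent.P.MP_169bcc_al.BR.Simple
import Pool.Agent.P.MP_169bcc_al.BR.Ideal
import Pool.Agent.P.MP_169bcc_al.BR.SS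
import Pool.Agent.P.MP_169bcc_al.BR.Lie
import Pool.Agent.P.MP_169bcc_al.BR.W
import Pool.Agent.P.MP_169bcc_al.BR.Jac

/-!
Covering subgroups of nilpotent groups of bounded rank: assembly.
-/

namespace Pool.Agent.P.MP_169bcc_al.BR

theorem fr : S_FR := fr_ok (frm_ok jac_ok) genH_ok

theorem simple : S_Simple :=
  simple_ok cent_ok (cen_ok fr) (field_ok chief_ok pg_ok eps_ok lat_ok)
    (inner_ok (kac_ok kac2_ok) (diag_ok (root_ok graph_ok))) fr genH_ok chief_ok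

theorem lieZ : S_LieZ :=
  lieZ_ok nak_ok (lie_ok (ss_ok (cen_ok fr) pg_ok orb_ok (ideal_ok chief_ok simple)))

theorem main : S_Main :=
  main_ok small_ok (p_ok (pe_ok pe1_ok) mu_ok
    (w_ok dec_ok calcA_ok calcW_ok calcB_ok relA_ok relB_ok lw_ok wd_ok (lim_ok lieZ)))

end Pool.Agent.P.MP_169bcc_al.BR
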