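import Pool.Agent.P.MP_169bcc_al.BR.Base

/-!
Extension of scalars.
-/

open scoped TensorProduct
open LieAlgebra LieSubalgebra Module

noncomputable section

namespace Pool.Agent.P.MP_169bcc_al.BR

variable {F k V : Type} [Field F] [Field k] [Algebra F k] [AddCommGroup V] [Module F V]

theorem pr_tmul (l : k →ₗ[F] F) (a : k) (y : V) : pr l (a ⊗ₜ[F] y) = l a • y := by simp [pr]

theorem pr_baseChange (l : k →ₗ[F] F) (φ : Module.End F V) (z : k ⊗[F] V) :
    pr l (φ.baseChange k z) = φ (pr l z) := by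
  induction z with
  | zero => simp
  | tmul a y => simp [pr_tmul]
  | add x y hx hy => simp only [map_add, hx, hy]

variable (F k) in
theorem exists_form_one : ∃ l : k →ₗ[F] F, l 1 = 1 := by
  obtain ⟨l, hl⟩ := Module.Projective.exists_dual_ne_zero F (one_ne_zero : (1 : k) ≠ 0)
  exact ⟨(l 1)⁻¹ • l, by simp [hl]⟩

theorem one_tmul_eq_zero {y : V} (h : (1 : k) ⊗ₜ[F] y = 0) : y = 0 := by
  obtain ⟨l, hl⟩ := exists_form_one F k
  have := pr_tmul l 1 y
  rwa [h, map_zero, hl, one_smul, eq_comm] at this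

theorem one_tmul_inj {y z : V} (h : (1 : k) ⊗ₜ[F] y = (1 : k) ⊗ₜ[F] z) : y = z :=
  sub_eq_zero.1 (one_tmul_eq_zero (F := F) (k := k) (by rw [TensorProduct.tmul_sub, h, sub_self]))

/-- A tensor lies in the span of its contractions. -/
theorem mem_span_pr (z : k ⊗[F] V) :
    z ∈ Submodule.span k (Set.range fun l : k →ₗ[F] F => (1 : k) ⊗ₜ[F] pr l z) := by
  classical
  let b := Module.Free.chooseBasis F k
  obtain ⟨c, rfl⟩ := TensorProduct.eq_repr_basis_left b z
  have hc : ∀ i, pr (b.coord i) (c.sum fun j y => b j ⊗ₜ[F] y) = c i := fun i => by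
    rw [map_finsuppSum]
    simp only [pr_tmul, Basis.coord_apply, Basis.repr_self, Finsupp.single_apply, ite_smul,
      one_smul, zero_smul]
    rw [Finsupp.sum, Finset.sum_ite_eq']
    split_ifs with h
    · rfl
    · exact (Finsupp.notMem_support_iff.1 h).symm
  conv => enter [2]; rw [Finsupp.sum]
  refine Submodule.sum_mem _ fun i _ => ?_
  have : b i ⊗ₜ[F] c i = b i • ((1 : k) ⊗ₜ[F] c i) := by
    rw [TensorProduct.smul_tmul', smul_eq_mul, mul_one]
  rw [this]
  exact Submodule.smul_mem _ _ (Submodule.subset_span ⟨b.coord i, by simp only [hc]⟩)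

theorem eq_zero_of_pr {z : k ⊗[F] V} (h : ∀ l : k →ₗ[F] F, pr l z = 0) : z = 0 := by
  have := mem_span_pr z
  simp only [h, TensorProduct.tmul_zero] at this
  simpa using this

/-- Kernels commute with extension of scalars. -/
theorem mem_span_of_forall_pr {S : Set V} {z : k ⊗[F] V} (h : ∀ l : k →ₗ[F] F, pr l z ∈ S) :
    z ∈ Submodule.span k ((fun y => (1 : k) ⊗ₜ[F] y) '' S) :=
  Submodule.span_mono (by rintro _ ⟨l, rfl⟩; exact ⟨_, h l, rfl⟩) (mem_span_pr z)

theorem mem_span_ker {φ : Module.End F V} {z : k ⊗[F] V} (h : φ.baseChange k z = 0) :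
    z ∈ Submodule.span k ((fun y => (1 : k) ⊗ₜ[F] y) '' {y | φ y = 0}) :=
  mem_span_of_forall_pr fun l => by
    show φ (pr l z) = 0
    rw [← pr_baseChange, h, map_zero]

variable {g : Type} [LieRing g] [LieAlgebra F g]

theorem ad_tmul (x : g) : ad k (k ⊗[F] g) ((1 : k) ⊗ₜ[F] x) = (ad F g x).baseChange k :=
  LieModule.toEnd_baseChange F k g g x

theorem pr_lie (l : k →ₗ[F] F) (x : g) (z : k ⊗[F] g) :
    pr l ⁅(1 : k) ⊗ₜ[F] x, z⁆ = ⁅x, pr l z⁆ := by
  have := pr_baseChange l (ad F g x) z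
  rwa [← ad_tmul] at this

theorem pr_mem_engel (l : k →ₗ[F] F) {x : g} {z : k ⊗[F] g}
    (h : z ∈ engel k ((1 : k) ⊗ₜ[F] x)) : pr l z ∈ engel F x := by
  rw [mem_engel_iff] at h ⊢
  obtain ⟨n, hn⟩ := h
  refine ⟨n, ?_⟩
  rw [← pr_baseChange, LinearMap.baseChange_pow, ← ad_tmul, hn, map_zero]

theorem tmul_mem_engel {x y : g} :
    (1 : k) ⊗ₜ[F] y ∈ engel k ((1 : k) ⊗ₜ[F] x) ↔ y ∈ engel F x := by
  refine ⟨fun h => ?_, fun h => ?_⟩
  · obtain ⟨l, hl⟩ := exists_form_one F k
    simpa [pr_tmul, hl] using pr_mem_engel l h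
  · rw [mem_engel_iff] at h ⊢
    obtain ⟨n, hn⟩ := h
    exact ⟨n, by rw [ad_tmul, ← LinearMap.baseChange_pow, LinearMap.baseChange_tmul, hn,
      TensorProduct.tmul_zero]⟩

theorem mem_span_engel {x : g} {z : k ⊗[F] g} (h : z ∈ engel k ((1 : k) ⊗ₜ[F] x)) :
    z ∈ Submodule.span k ((fun y => (1 : k) ⊗ₜ[F] y) '' (engel F x : Set g)) :=
  mem_span_of_forall_pr fun l => pr_mem_engel l h

theorem reg_tmul {x : g} : Reg k ((1 : k) ⊗ₜ[F] x) ↔ Reg F x := by
  refine ⟨fun h y hy z hz => one_tmul_eq_zero (F := F) (k := k) ?_, fun h y hy z hz => ?_⟩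
  · have := h _ (tmul_mem_engel.2 hy) _ (tmul_mem_engel.2 hz)
    rwa [LieAlgebra.ExtendScalars.bracket_tmul, mul_one] at this
  · have hy' := mem_span_engel hy
    clear hy
    induction hy' using Submodule.span_induction with
    | mem y hy =>
      obtain ⟨y, hy, rfl⟩ := hy
      exact eq_zero_of_pr fun l => by rw [pr_lie, h y hy _ (pr_mem_engel l hz)]
    | zero => simp
    | add a b _ _ ha hb => rw [add_lie, ha, hb, add_zero]
    | smul a b _ hb => rw [smul_lie, hb, smul_zero]

theorem IsAut.baseChange {a : Module.End F g} (h : IsAut a) : IsAut (a.baseChange k) := by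
  refine ⟨(LinearEquiv.baseChange F k g g (LinearEquiv.ofBijective a h.bij)).bijective,
    fun x y => ?_⟩
  induction x with
  | zero => simp
  | add a b ha hb => simp only [add_lie, map_add, ha, hb]
  | tmul s x =>
    induction y with
    | zero => simp
    | add a b ha hb => simp only [lie_add, map_add, ha, hb]
    | tmul t y => simp [h.lie]

variable (k) in
theorem isKilling_baseChange [FiniteDimensional F g] [IsKilling F g] :
    IsKilling k (k ⊗[F] g) := by
  refine ⟨?_⟩
  rw [_root_.eq_bot_iff]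
  intro z hz
  rw [LieSubmodule.mem_bot]
  have hz' : ∀ y, killingForm k (k ⊗[F] g) z y = 0 := by
    intro y
    have : z ∈ LinearMap.ker (killingForm k (k ⊗[F] g)) := by
      rw [← LieIdeal.coe_killingCompl_top]
      exact hz
    exact LinearMap.congr_fun this y
  refine eq_zero_of_pr fun l => ?_
  have key : ∀ (w : k ⊗[F] g) (y : g), killingForm F g (pr l w) y =
      l (killingForm k (k ⊗[F] g) w ((1 : k) ⊗ₜ[F] y)) := by
    intro w y
    rw [killingForm, killingForm, LieModule.traceForm_baseChange]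
    induction w with
    | zero => simp
    | add a b ha hb => simp only [map_add, LinearMap.add_apply, ha, hb]
    | tmul s x => simp [pr_tmul, mul_comm]
  have : pr l z ∈ LinearMap.ker (killingForm F g) := by
    ext y
    rw [key, hz', map_zero, LinearMap.zero_apply]
  rwa [IsKilling.ker_killingForm_eq_bot, Submodule.mem_bot] at this

end Pool.Agent.P.MP_169bcc_al.BR
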