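import Pool.Agent.P.MP_169bcc_al.BR.Spec

/-!
Covering subgroups of nilpotent groups of bounded rank: small tools.
-/

open scoped commutatorElement TensorProduct
open LieAlgebra LieSubalgebra Module

noncomputable section

namespace Pool.Agent.P.MP_169bcc_al.BR

section Grp

variable {A : Type} [Group A] {S T : Subgroup A} {x y z x' y' : A}

theorem Cg.refl (S : Subgroup A) (x : A) : Cg S x x := by simp [Cg]

theorem Cg.of_eq (h : x = y) : Cg S x y := h ▸ Cg.refl S x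

theorem Cg.symm (h : Cg S x y) : Cg S y x := by simpa [Cg] using S.inv_mem h

theorem Cg.trans (h : Cg S x y) (h' : Cg S y z) : Cg S x z := by
  simpa [Cg, mul_assoc] using S.mul_mem h h'

theorem Cg.mono (h : Cg S x y) (hST : S ≤ T) : Cg T x y := hST h

theorem cg_iff : Cg S x y ↔ (x : A ⧸ S) = y := QuotientGroup.eq.symm

theorem cg_iff' [S.Normal] : Cg S x y ↔ QuotientGroup.mk' S x = QuotientGroup.mk' S y := cg_iff

theorem Cg.mul (hS : S.Normal) (h : Cg S x y) (h' : Cg S x' y') : Cg S (x * x') (y * y') := by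
  rw [cg_iff'] at h h' ⊢
  rw [map_mul, map_mul, h, h']

theorem Cg.inv (hS : S.Normal) (h : Cg S x y) : Cg S x⁻¹ y⁻¹ := by
  rw [cg_iff'] at h ⊢
  rw [map_inv, map_inv, h]

theorem Cg.pow (hS : S.Normal) (h : Cg S x y) (n : ℕ) : Cg S (x ^ n) (y ^ n) := by
  rw [cg_iff'] at h ⊢
  rw [map_pow, map_pow, h]

theorem Cg.conj (hS : S.Normal) (h : Cg S x y) (a : A) :
    Cg S (a * x * a⁻¹) (a * y * a⁻¹) := ((Cg.refl S a).mul hS h).mul hS (Cg.refl S _)

theorem Cg.mem (h : Cg S x y) (hx : x ∈ S) : y ∈ S := by simpa using S.mul_mem hx h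

theorem cg_of_mem (hx : x ∈ S) (hy : y ∈ S) : Cg S x y := S.mul_mem (S.inv_mem hx) hy

theorem cg_one : Cg S 1 x ↔ x ∈ S := by simp [Cg]

theorem cg_mul_right (h : y ∈ S) : Cg S x (x * y) := by simpa [Cg] using h

theorem cg_mul_left (hS : S.Normal) (h : y ∈ S) : Cg S x (y * x) := by
  simpa [Cg, mul_assoc] using hS.conj_mem _ h x⁻¹

theorem cg_comm (hS : S.Normal) (h : ⁅x, y⁆ ∈ S) : Cg S (x * y) (y * x) := by
  have : x * y = ⁅x, y⁆ * (y * x) := by simp only [commutatorElement_def]; group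
  rw [this]
  exact (cg_mul_left hS h).symm

theorem Filt.shift {p : ℕ} {P : ℕ → Subgroup A} (h : Filt p P) (k : ℕ) :
    Filt p fun i => P (k + i) where
  normal i := h.normal _
  anti i j hij := h.anti _ _ (by omega)
  comm i j x hx y hy := h.anti _ _ (by omega) (h.comm _ _ x hx y hy)
  pow i x hx := h.pow _ x hx
  onto i y hy := h.onto _ y hy

/-- The decomposition with the power on the left and the exponent below `r`. -/
theorem Dec.left {r : ℕ} {H : Subgroup A} {σ : A} (h : Dec r H σ) (hr : 0 < r) (a : A) :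
    ∃ i < r, ∃ g ∈ H, a = σ ^ i * g := by
  obtain ⟨k, hk⟩ := h.dec a
  have e : σ ^ k = σ ^ (k % r) := by
    conv_lhs => rw [← Nat.div_add_mod k r, pow_add, pow_mul, h.pow, one_pow, one_mul]
  refine ⟨k % r, Nat.mod_lt _ hr, (σ ^ k)⁻¹ * (a * (σ ^ k)⁻¹) * (σ ^ k)⁻¹⁻¹,
    h.normal.conj_mem _ hk _, ?_⟩
  rw [← e]
  group

end Grp

section Lin

variable {p : ℕ} [Fact p.Prime] {V : Type} [AddCommGroup V] [Module ℚ_[p] V] [Module ℤ_[p] V]
  [IsScalarTower ℤ_[p] ℚ_[p] V]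

omit [Module ℤ_[p] V] [IsScalarTower ℤ_[p] ℚ_[p] V] in
theorem nsmul_cancel {k : ℕ} {v w : V} (h : p ^ k • v = p ^ k • w) : v = w := by
  rw [← Nat.cast_smul_eq_nsmul ℚ_[p], ← Nat.cast_smul_eq_nsmul ℚ_[p]] at h
  exact smul_right_injective V (Nat.cast_ne_zero.2 (pow_ne_zero k (Fact.out : p.Prime).ne_zero)) h

omit [Module ℤ_[p] V] [IsScalarTower ℤ_[p] ℚ_[p] V] in
theorem mem_of_nsmul_mem {k : ℕ} {v : V} {W : Submodule ℚ_[p] V} (h : p ^ k • v ∈ W) : v ∈ W := by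
  rw [← Nat.cast_smul_eq_nsmul ℚ_[p]] at h
  exact (W.smul_mem_iff (Nat.cast_ne_zero.2 (pow_ne_zero k (Fact.out : p.Prime).ne_zero))).1 h

omit [Module ℚ_[p] V] [IsScalarTower ℤ_[p] ℚ_[p] V] in
/-- Krull: submodules are closed. -/
theorem krull {Λ N : Submodule ℤ_[p] V} (hΛ : Λ.FG) {v : V}
    (h : ∀ m : ℕ, ∃ w ∈ N, ∃ l ∈ Λ, v = w + p ^ m • l) : v ∈ N := by
  let Q := Λ.map N.mkQ
  have : Module.Finite ℤ_[p] Q := Module.Finite.iff_fg.2 (hΛ.map _)
  have h0 : N.mkQ v ∈ Q := by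
    obtain ⟨w, hw, l, hl, e⟩ := h 0
    refine ⟨l, hl, ?_⟩
    rw [e, map_add, (Submodule.Quotient.mk_eq_zero N).2 hw |> (show N.mkQ w = 0 from ·)]
    simp
  have key := Ideal.iInf_pow_smul_eq_bot_of_isLocalRing (M := Q) (IsLocalRing.maximalIdeal ℤ_[p])
    (IsLocalRing.maximalIdeal.isMaximal _).ne_top
  have hm : (⟨N.mkQ v, h0⟩ : Q) ∈ (⨅ i : ℕ, IsLocalRing.maximalIdeal ℤ_[p] ^ i • ⊤ :
      Submodule ℤ_[p] Q) := by
    refine Submodule.mem_iInf _ |>.2 fun m => ?_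
    obtain ⟨w, hw, l, hl, e⟩ := h m
    have e2 : (⟨N.mkQ v, h0⟩ : Q) = ((p : ℤ_[p]) ^ m) • (⟨N.mkQ l, l, hl, rfl⟩ : Q) := by
      apply Subtype.ext
      show N.mkQ v = ((p : ℤ_[p]) ^ m) • N.mkQ l
      rw [e, map_add, (Submodule.Quotient.mk_eq_zero N).2 hw |> (show N.mkQ w = 0 from ·),
        zero_add, map_nsmul, ← Nat.cast_pow, Nat.cast_smul_eq_nsmul]
    rw [e2]
    refine Submodule.smul_mem_smul (Ideal.pow_mem_pow ?_ m) trivial
    rw [PadicInt.maximalIdeal_eq_span_p]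
    exact Ideal.mem_span_singleton_self _
  rw [key, Submodule.mem_bot, Subtype.ext_iff] at hm
  exact (Submodule.Quotient.mk_eq_zero N).1 hm

/-- Subspaces are closed. -/
theorem clo {Λ : Submodule ℤ_[p] V} (hΛ : Λ.FG) {W : Submodule ℚ_[p] V} {v : V}
    (h : ∀ m : ℕ, ∃ w ∈ W, ∃ l ∈ Λ, v = w + p ^ m • l) : v ∈ W :=
  krull (N := W.restrictScalars ℤ_[p]) hΛ h

omit [Module ℚ_[p] V] [IsScalarTower ℤ_[p] ℚ_[p] V] in
/-- Two lattices are commensurable. -/
theorem Lat.exists_le {Λ Λ' : Submodule ℤ_[p] V} (h : Lat p Λ) (h' : Λ'.FG) :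
    ∃ c : ℕ, ∀ v ∈ Λ', p ^ c • v ∈ Λ := by
  obtain ⟨s, rfl⟩ := h'
  choose k hk using h.span
  refine ⟨s.sup k, fun v hv => ?_⟩
  induction hv using Submodule.span_induction with
  | mem x hx =>
    obtain ⟨d, hd⟩ := Nat.exists_eq_add_of_le (Finset.le_sup (f := k) hx)
    rw [hd, add_comm, pow_add, mul_smul]
    exact nsmul_mem (hk x) _
  | zero => simp
  | add x y _ _ hx hy => rw [smul_add]; exact Λ.add_mem hx hy
  | smul a x _ hx => rw [smul_comm]; exact Λ.smul_mem a hx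

omit [IsScalarTower ℤ_[p] ℚ_[p] V] in
theorem Lat.eq_top {Λ : Submodule ℤ_[p] V} (h : Lat p Λ) {W : Submodule ℚ_[p] V}
    (hW : ∀ v ∈ Λ, v ∈ W) : W = ⊤ :=
  eq_top_iff.2 fun v _ => by
    obtain ⟨k, hk⟩ := h.span v
    exact mem_of_nsmul_mem (hW _ hk)

instance quotTower {g : Type} [LieRing g] [LieAlgebra ℚ_[p] g] [Module ℤ_[p] g]
    [IsScalarTower ℤ_[p] ℚ_[p] g] (I : LieIdeal ℚ_[p] g) : IsScalarTower ℤ_[p] ℚ_[p] (g ⧸ I) :=
  inferInstanceAs (IsScalarTower ℤ_[p] ℚ_[p] (g ⧸ I.toSubmodule))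

end Lin

section Rep

variable {R V G : Type} [CommRing R] [AddCommGroup V] [Module R V] [Group G]
  (ρ : G →* Module.End R V)

theorem rep_mul (a b : G) (v : V) : ρ (a * b) v = ρ a (ρ b v) := by rw [map_mul]; rfl

theorem rep_one (v : V) : ρ 1 v = v := by rw [map_one]; rfl

theorem rep_inv_left (a : G) (v : V) : ρ a⁻¹ (ρ a v) = v := by
  rw [← rep_mul, inv_mul_cancel, rep_one]

theorem rep_inv_right (a : G) (v : V) : ρ a (ρ a⁻¹ v) = v := by
  rw [← rep_mul, mul_inv_cancel, rep_one]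

theorem rep_bij (a : G) : Function.Bijective (ρ a) :=
  ⟨Function.LeftInverse.injective (rep_inv_left ρ a),
    Function.RightInverse.surjective (rep_inv_right ρ a)⟩

end Rep

section Lie

variable {F g : Type} [Field F] [LieRing g] [LieAlgebra F g]

/-- An automorphism as a Lie algebra equivalence. -/
def IsAut.equiv {a : Module.End F g} (h : IsAut a) : g ≃ₗ⁅F⁆ g :=
  LieEquiv.ofBijective { a with map_lie' := fun {x y} => h.lie x y } h.bij

theorem IsAut.equiv_apply {a : Module.End F g} (h : IsAut a) (x : g) : h.equiv x = a x := rfl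

theorem IsAut.killing {a : Module.End F g} (h : IsAut a) (x y : g) :
    killingForm F g (a x) (a y) = killingForm F g x y :=
  LieAlgebra.killingForm_of_equiv_apply h.equiv x y

theorem IsAut.mul {a b : Module.End F g} (ha : IsAut a) (hb : IsAut b) : IsAut (a * b) :=
  ⟨ha.bij.comp hb.bij, fun x y => by simp only [Module.End.mul_apply, hb.lie, ha.lie]⟩

theorem IsAut.ad_pow {a : Module.End F g} (h : IsAut a) (x : g) (n : ℕ) (y : g) :
    a ((ad F g x ^ n) y) = (ad F g (a x) ^ n) (a y) := by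
  induction n with
  | zero => rfl
  | succ n ih => simp only [pow_succ', Module.End.mul_apply, ad_apply, h.lie, ih]

theorem IsAut.mem_engel {a : Module.End F g} (h : IsAut a) (x y : g) :
    a y ∈ engel F (a x) ↔ y ∈ engel F x := by
  simp only [mem_engel_iff, ← h.ad_pow]
  exact exists_congr fun n => map_eq_zero_iff a h.bij.1

theorem Reg.cartan {x : g} (h : Reg F x) : (engel F x).IsCartanSubalgebra := by
  have : IsLieAbelian (engel F x) := ⟨fun y z => Subtype.ext (h _ y.2 _ z.2)⟩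
  exact ⟨inferInstance, normalizer_engel F x⟩

theorem Cen.left {c : Module.End F g} (h : Cen c) (y z : g) : c ⁅y, z⁆ = ⁅c y, z⁆ := by
  rw [← lie_skew y z, map_neg, h, lie_skew]

/-- The projection onto an ideal. -/
theorem exists_proj [FiniteDimensional F g] [IsKilling F g] (I : LieIdeal F g) :
    ∃ e : Module.End F g, Cen e ∧ (∀ v, e v ∈ I) ∧ (∀ v ∈ I, e v = v) ∧
      ∀ J : LieIdeal F g, Disjoint I J → ∀ v ∈ J, e v = 0 := by
  have hc := I.isCompl_killingCompl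
  set I' := I.killingCompl F g
  have hc' : IsCompl I.toSubmodule I'.toSubmodule := (LieSubmodule.isCompl_toSubmodule).2 hc
  have dec : ∀ v : g, ∃ a ∈ I, ∃ b ∈ I', a + b = v := fun v =>
    Submodule.mem_sup.1 (hc'.sup_eq_top ▸ Submodule.mem_top : v ∈ I.toSubmodule ⊔ I'.toSubmodule)
  let e : Module.End F g := I.toSubmodule.subtype ∘ₗ Submodule.projectionOnto _ _ hc'
  have e1 : ∀ v ∈ I, e v = v := fun v hv =>
    congrArg Subtype.val (Submodule.projectionOnto_apply_left hc' ⟨v, hv⟩)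
  have e2 : ∀ v ∈ I', e v = 0 := fun v hv =>
    congrArg Subtype.val (Submodule.projectionOnto_apply_right hc' ⟨v, hv⟩)
  have e0 : ∀ v, e v ∈ I := fun v => (Submodule.projectionOnto _ _ hc' v).2
  have hcen : Cen e := fun y z => by
    obtain ⟨a, ha, b, hb, rfl⟩ := dec z
    rw [lie_add, map_add, map_add, e1 a ha, e2 b hb, e1 _ (I.lie_mem ha), e2 _ (I'.lie_mem hb)]
    simp
  refine ⟨e, hcen, e0, e1, fun J hJ v hv => ?_⟩
  have hz : ∀ z : g, ⁅z, e v⁆ = 0 := fun z => by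
    obtain ⟨a, ha, b, hb, rfl⟩ := dec z
    have h1 : ⁅a, v⁆ = 0 := by
      have := (LieSubmodule.mem_inf I J ⁅a, v⁆).2 ⟨lie_mem_left F g I a v ha, J.lie_mem hv⟩
      rwa [hJ.eq_bot, LieSubmodule.mem_bot] at this
    rw [add_lie, ← hcen, h1, map_zero, zero_add, ← hcen, e2 _ (lie_mem_left F g I' b v hb)]
  have : e v ∈ LieAlgebra.center F g := (LieModule.mem_maxTrivSubmodule F g g _).2 hz
  rwa [LieAlgebra.center_eq_bot, LieSubmodule.mem_bot] at this

end Lie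

section Hyp

variable {p r : ℕ} [Fact p.Prime] {g : Type} [LieRing g] [LieAlgebra ℚ_[p] g] [Module ℤ_[p] g]
  {G : Type} [Group G] {H : Subgroup G} {σ : G} {ρ : G →* Module.End ℚ_[p] g}
  {Λ : Submodule ℤ_[p] g} {u : LieSubalgebra ℚ_[p] g}

theorem Hyp.aut (h : Hyp p r H σ ρ Λ u) (a : G) : IsAut (ρ a) := ⟨rep_bij ρ a, h.lie a⟩

theorem Hyp.covA (h : Hyp p r H σ ρ Λ u) : CovA u := fun z =>
  (h.cov z).imp' (fun a => ρ a) fun a ha => ⟨h.aut a, ha⟩

/-- Passing to a conjugate of `u`. -/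
theorem Hyp.conj (h : Hyp p r H σ ρ Λ u) (a : G) : ∃ u' : LieSubalgebra ℚ_[p] g,
    Hyp p r H σ ρ Λ u' ∧ ∀ v, v ∈ u' ↔ ρ a v ∈ u := by
  refine ⟨u.comap (h.aut a).equiv.toLieHom, ⟨h.prime, h.five, h.ne, h.dec, h.act, h.lie,
    fun z => ?_⟩, fun v => Iff.rfl⟩
  obtain ⟨b, hb⟩ := h.cov z
  refine ⟨a⁻¹ * b, ?_⟩
  show ρ a (ρ (a⁻¹ * b) z) ∈ u
  rwa [rep_mul, rep_inv_right]

end Hyp

end Pool.Agent.P.MP_169bcc_al.BR
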