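import Mathlib

/-!
Covering subgroups of nilpotent groups of bounded rank: definitions.
-/

open scoped commutatorElement TensorProduct

noncomputable section

namespace Pool.Agent.P.MP_169bcc_al.BR

section Grp

variable {A : Type} [Group A]

/-- Every subgroup of `H` is generated by at most `d` elements. -/
def RankLe (H : Subgroup A) (d : ℕ) : Prop :=
  ∀ K : Subgroup A, K ≤ H → ∃ S : Finset A, S.card ≤ d ∧ Subgroup.closure (S : Set A) = K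

/-- The conjugates of `U` cover `H`. -/
def Cov (H U : Subgroup A) : Prop := ∀ h ∈ H, ∃ a : A, a * h * a⁻¹ ∈ U

/-- Congruence modulo a subgroup. -/
def Cg (S : Subgroup A) (x y : A) : Prop := x⁻¹ * y ∈ S

/-- `A` is the union of the cosets `H σ ^ k`. -/
structure Dec (r : ℕ) (H : Subgroup A) (σ : A) : Prop where
  normal : H.Normal
  pow : σ ^ r = 1
  dec : ∀ a : A, ∃ k : ℕ, a * (σ ^ k)⁻¹ ∈ H

/-- A powerful filtration. -/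
structure Filt (p : ℕ) (P : ℕ → Subgroup A) : Prop where
  normal : ∀ i, (P i).Normal
  anti : ∀ i j, i ≤ j → P j ≤ P i
  comm : ∀ i j, ∀ x ∈ P i, ∀ y ∈ P j, ⁅x, y⁆ ∈ P (i + j + 2)
  pow : ∀ i, ∀ x ∈ P i, x ^ p ∈ P (i + 1)
  onto : ∀ i, ∀ y ∈ P (i + 1), ∃ x ∈ P i, Cg (P (i + 2)) y (x ^ p)

def Inj (p : ℕ) (P : ℕ → Subgroup A) (j : ℕ) : Prop :=
  ∀ x ∈ P j, x ^ p ∈ P (j + 2) → x ∈ P (j + 1)

def Uon (p : ℕ) (P : ℕ → Subgroup A) (U : Subgroup A) (j : ℕ) : Prop :=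
  ∀ y ∈ U, y ∈ P (j + 1) → ∃ x ∈ U, x ∈ P j ∧ Cg (P (j + 2)) y (x ^ p)

/-- The first `N` layers are uniform. -/
def Win (p N : ℕ) (P : ℕ → Subgroup A) (U : Subgroup A) : Prop :=
  ∀ j < N, Inj p P j ∧ Uon p P U j

/-- `U` fills the layer `j`. -/
def Full (P : ℕ → Subgroup A) (U : Subgroup A) (j : ℕ) : Prop :=
  ∀ z ∈ P j, ∃ u ∈ U, u ∈ P j ∧ Cg (P (j + 1)) u z

/-- Powers in a filtration. -/
structure CalcA (p : ℕ) (P : ℕ → Subgroup A) : Prop where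
  c0 : ∀ a s, ∀ x ∈ P a, x ^ p ^ s ∈ P (a + s)
  c1 : ∀ a s, ∀ x ∈ P a, ∀ y ∈ P a,
    Cg (P (2 * a + s + 1)) ((x * y) ^ p ^ s) (x ^ p ^ s * y ^ p ^ s)
  c2 : ∀ a b s, ∀ x ∈ P a, ∀ y, a ≤ b → b ≤ 2 * a + 1 → Cg (P b) x y →
    Cg (P (b + s)) (x ^ p ^ s) (y ^ p ^ s)
  c3 : ∀ a b s, ∀ y ∈ P (a + s), b ≤ 2 * a + 1 → ∃ x ∈ P a, Cg (P (b + s)) y (x ^ p ^ s)

/-- Powers in a uniform window. -/
structure CalcW (p N : ℕ) (P : ℕ → Subgroup A) (U : Subgroup A) : Prop where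
  c4 : ∀ b s, ∀ x ∈ P 0, b + s ≤ N → x ^ p ^ s ∈ P (b + s) → x ∈ P b
  c5 : ∀ a b s, ∀ y ∈ U, y ∈ P (a + s) → b ≤ 2 * a + 1 → b + s ≤ N →
    ∃ x ∈ U, x ∈ P a ∧ Cg (P (b + s)) y (x ^ p ^ s)

/-- Commutators in a filtration. -/
structure CalcB (p : ℕ) (P : ℕ → Subgroup A) : Prop where
  c6 : ∀ a b s, ∀ x ∈ P a, ∀ y ∈ P b,
    Cg (P (2 * a + b + s + 3)) ⁅x ^ p ^ s, y⁆ (⁅x, y⁆ ^ p ^ s)
  c7 : ∀ a b, ∀ x ∈ P a, ∀ x' ∈ P a, ∀ y ∈ P b,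
    Cg (P (2 * a + b + 4)) ⁅x * x', y⁆ (⁅x, y⁆ * ⁅x', y⁆)
  cl : ∀ b c x x', ∀ y ∈ P b, Cg (P c) x x' → Cg (P (b + c + 2)) ⁅x, y⁆ ⁅x', y⁆
  cr : ∀ b c x x', ∀ y ∈ P b, Cg (P c) x x' → Cg (P (b + c + 2)) ⁅y, x⁆ ⁅y, x'⁆
  c8 : ∀ i, ∀ x ∈ P i, ∀ y ∈ P i, ∀ z ∈ P i,
    ⁅⁅x, y⁆, z⁆ * ⁅⁅y, z⁆, x⁆ * ⁅⁅z, x⁆, y⁆ ∈ P (4 * i + 6)

/-- `w` represents the bracket of `x` and `y` in the window `i`. -/
def Rl (p i : ℕ) (P : ℕ → Subgroup A) (x y w : A) : Prop :=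
  w ∈ P i ∧ Cg (P (3 * i)) ⁅x, y⁆ (w ^ p ^ i)

structure RelA (p i : ℕ) (P : ℕ → Subgroup A) (U : Subgroup A) : Prop where
  ex : ∀ x ∈ P i, ∀ y ∈ P i, ∃ w, Rl p i P x y w
  uniq : ∀ x ∈ P i, ∀ y ∈ P i, ∀ x' ∈ P i, ∀ y' ∈ P i, ∀ w w', Cg (P (2 * i)) x x' →
    Cg (P (2 * i)) y y' → Rl p i P x y w → Rl p i P x' y' w' → Cg (P (2 * i)) w w'
  mul : ∀ x ∈ P i, ∀ x' ∈ P i, ∀ y ∈ P i, ∀ w w', Rl p i P x y w → Rl p i P x' y w' →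
    Rl p i P (x * x') y (w * w')
  skew : ∀ x y w, Rl p i P x y w → Rl p i P y x w⁻¹
  self : ∀ x, Rl p i P x x 1
  conj : ∀ a x y w, Rl p i P x y w → Rl p i P (a * x * a⁻¹) (a * y * a⁻¹) (a * w * a⁻¹)
  inU : ∀ x ∈ U, ∀ y ∈ U, x ∈ P i → y ∈ P i → ∃ w ∈ U, Rl p i P x y w
  jac : ∀ x ∈ P i, ∀ y ∈ P i, ∀ z ∈ P i, ∀ w₁ v₁ w₂ v₂ w₃ v₃, Rl p i P x y w₁ →
    Rl p i P w₁ z v₁ → Rl p i P y z w₂ → Rl p i P w₂ x v₂ → Rl p i P z x w₃ →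
    Rl p i P w₃ y v₃ → v₁ * v₂ * v₃ ∈ P (2 * i)

structure RelB (p i : ℕ) (P : ℕ → Subgroup A) (U : Subgroup A) : Prop where
  act : ∀ m, ∀ a ∈ P m, ∀ y ∈ P i, ∃ v ∈ P i, Cg (P (2 * i)) ⁅a, y⁆ (v ^ p ^ (m + 2))
  link : ∀ j, 2 * j ≤ i → ∀ a ∈ P 0, ∀ y ∈ P i, ∀ w, Rl p i P (a ^ p ^ i) y w →
    ∃ v ∈ P i, Cg (P (2 * i)) ⁅a ^ p ^ j, y⁆ (w ^ p ^ j * v ^ p ^ (2 * j))
  far : ¬ Full P U 0 → ∃ x ∈ P i, ∀ k < i, ∀ u ∈ U, u ∈ P i → ∀ v ∈ P i,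
    ¬ Cg (P (2 * i)) (x ^ p ^ k) (u * v ^ p ^ (k + 1))
  gen : ∀ x ∈ P i, ∃ z ∈ P 0, ∀ t, Cg (P 1) t z →
    ∃ v ∈ P i, Cg (P (2 * i)) x (t ^ p ^ i * v ^ p)

end Grp

/-- The Lie ring of the window `P i / P (2 i)`. -/
structure LW (p : ℕ) [Fact p.Prime] (i : ℕ) (A : Type) [Group A] (P : ℕ → Subgroup A) where
  L : Type
  [ring : LieRing L]
  [alg : LieAlgebra ℤ_[p] L]
  π : A → L
  π_mul : ∀ x ∈ P i, ∀ y ∈ P i, π (x * y) = π x + π y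
  π_surj : ∀ v, ∃ x ∈ P i, π x = v
  π_eq : ∀ x ∈ P i, ∀ y ∈ P i, π x = π y ↔ Cg (P (2 * i)) x y
  smul : ∀ (c : ℤ_[p]) (v : L), ∃ n : ℕ, c • v = n • v
  ρ : A →* Module.End ℤ_[p] L
  ρ_π : ∀ a, ∀ x ∈ P i, ρ a (π x) = π (a * x * a⁻¹)
  br : ∀ x ∈ P i, ∀ y ∈ P i, ∀ w, Rl p i P x y w → ⁅π x, π y⁆ = π w

attribute [instance] LW.ring LW.alg

/-- The data that a window yields. -/
structure WD (p : ℕ) [Fact p.Prime] (i B : ℕ) (A : Type) [Group A] (H : Subgroup A) where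
  L : Type
  [ring : LieRing L]
  [alg : LieAlgebra ℤ_[p] L]
  ρ : A →* Module.End ℤ_[p] L
  lie : ∀ a x y, ρ a ⁅x, y⁆ = ⁅ρ a x, ρ a y⁆
  M : LieSubalgebra ℤ_[p] L
  g : Fin B → L
  span : ∀ x, ∃ c : Fin B → ℤ_[p], x = ∑ s, c s • g s
  cov : ∀ x, ∃ a, ρ a x ∈ M
  uni : ∀ h ∈ H, ∀ (m : ℕ) x, ∃ v, ρ (h ^ p ^ (B + m)) x = x + p ^ m • v
  far : ∃ x, ∀ k < i, ∀ u ∈ M, ∀ v, p ^ k • x ≠ u + p ^ (k + 1) • v
  t : Fin B → A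
  link : ∀ a, ∃ s, ∃ X : L, (∀ y, ∃ v, ρ ((t s)⁻¹ * a) y = y + p ^ 2 • v) ∧
    ∀ j, 2 * j ≤ i → ∀ y, ∃ v,
      ρ (((t s)⁻¹ * a) ^ p ^ j) y = y + p ^ j • ⁅X, y⁆ + p ^ (2 * j) • v

attribute [instance] WD.ring WD.alg

section Lin

variable (p : ℕ) [Fact p.Prime] {V : Type} [AddCommGroup V] [Module ℚ_[p] V] [Module ℤ_[p] V]

/-- A lattice. -/
structure Lat (Λ : Submodule ℤ_[p] V) : Prop where
  fg : Λ.FG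
  span : ∀ v, ∃ k : ℕ, p ^ k • v ∈ Λ

/-- An action that preserves a lattice, with `H` acting through a pro-`p` group. -/
structure Act {G : Type} [Group G] (H : Subgroup G) (ρ : G →* Module.End ℚ_[p] V)
    (Λ : Submodule ℤ_[p] V) : Prop where
  normal : H.Normal
  lat : Lat p Λ
  stab : ∀ a, ∀ v ∈ Λ, ρ a v ∈ Λ
  uni : ∀ h ∈ H, ∀ m : ℕ, ∃ N : ℕ, ∀ v ∈ Λ, ∃ w ∈ Λ, ρ (h ^ p ^ N) v = v + p ^ m • w

end Lin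

section Lie

variable {F g : Type} [Field F] [LieRing g] [LieAlgebra F g]

/-- Automorphisms. -/
structure IsAut (a : Module.End F g) : Prop where
  bij : Function.Bijective a
  lie : ∀ x y, a ⁅x, y⁆ = ⁅a x, a y⁆

/-- The preimages of `u` under automorphisms cover `g`. -/
def CovA (u : LieSubalgebra F g) : Prop := ∀ z, ∃ a : Module.End F g, IsAut a ∧ a z ∈ u

variable (F) in
/-- The Engel subalgebra of `x` is abelian. -/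
def Reg (x : g) : Prop :=
  ∀ y ∈ LieSubalgebra.engel F x, ∀ z ∈ LieSubalgebra.engel F x, ⁅y, z⁆ = 0

/-- Elements of the centroid. -/
def Cen (c : Module.End F g) : Prop := ∀ y z : g, c ⁅y, z⁆ = ⁅y, c z⁆

end Lie

/-- Contraction with a linear form. -/
def pr {F k V : Type} [Field F] [Field k] [Algebra F k] [AddCommGroup V] [Module F V]
    (l : k →ₗ[F] F) : k ⊗[F] V →ₗ[F] V :=
  (TensorProduct.lid F V).toLinearMap ∘ₗ LinearMap.rTensor V l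

end Pool.Agent.P.MP_169bcc_al.BR
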