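import Pool.Agent.P.MP_169bcc_al.BR.Base

/-!
Package FR: a covering subalgebra contains the Engel subalgebras of its regular elements.
-/

open scoped commutatorElement TensorProduct
open LieAlgebra LieSubalgebra Module

noncomputable section

namespace Pool.Agent.P.MP_169bcc_al.BR

namespace FRP

variable {F g : Type} [Field F] [LieRing g] [LieAlgebra F g]

/-- The matrix of `ad` of a combination. -/
theorem mat_sum {n l : ℕ} (b : Basis (Fin n) F g) (w : Fin l → g) (c : Fin l → F) :
    ∑ j, c j • LinearMap.toMatrix b b (ad F g (w j)) =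
      LinearMap.toMatrix b b (ad F g (∑ j, c j • w j)) := by
  simp only [map_sum, map_smul]

theorem tr_pow {n : ℕ} (b : Basis (Fin n) F g) (A : Module.End F g) (k : ℕ) :
    (LinearMap.toMatrix b b A ^ k).trace = LinearMap.trace F g (A ^ k) := by
  rw [LinearMap.trace_eq_matrix_trace F b, LinearMap.toMatrix_pow]

theorem tr_pow_mul {n : ℕ} (b : Basis (Fin n) F g) (A B : Module.End F g) (k : ℕ) :
    (LinearMap.toMatrix b b A ^ k * LinearMap.toMatrix b b B).trace =
      LinearMap.trace F g (A ^ k * B) := by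
  rw [LinearMap.trace_eq_matrix_trace F b, LinearMap.toMatrix_mul, LinearMap.toMatrix_pow]

theorem tr_aut {a : Module.End F g} (h : IsAut a) (z : g) (k : ℕ) :
    LinearMap.trace F g (ad F g z ^ k) = LinearMap.trace F g (ad F g (a z) ^ k) := by
  let e : g ≃ₗ[F] g := LinearEquiv.ofBijective a h.bij
  have : ad F g (a z) ^ k = e.conj (ad F g z ^ k) := by
    ext y
    obtain ⟨y, rfl⟩ := e.surjective y
    rw [LinearEquiv.conj_apply_apply, e.symm_apply_apply]
    exact (h.ad_pow z k y).symm
  rw [this, LinearMap.trace_conj']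

theorem tr_comm (y v : g) (k : ℕ) :
    LinearMap.trace F g (ad F g y ^ k * ad F g ⁅y, v⁆) = 0 := by
  have e : ad F g ⁅y, v⁆ = ad F g y * ad F g v - ad F g v * ad F g y := by
    ext z
    simp
  rw [e, mul_sub, map_sub, ← mul_assoc, ← mul_assoc, LinearMap.trace_mul_comm F (_ * ad F g v),
    ← mul_assoc, ← pow_succ, ← pow_succ', sub_self]

theorem coe_sum {l : ℕ} (t : LieSubalgebra F g) (w : Fin l → t) (c : Fin l → F) :
    ∑ j, c j • (w j : g) = ((∑ j, c j • w j : t) : g) := by
  simp

theorem sum_repr {l : ℕ} (t : LieSubalgebra F g) (b : Basis (Fin l) F t) (z : t) :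
    ∑ j, b.repr z j • (b j : g) = z := by
  rw [coe_sum, b.sum_repr]

/-- The form `v ↦ tr (A ∘ ad v)` on a subalgebra. -/
def form (u : LieSubalgebra F g) (A : Module.End F g) : Dual F u where
  toFun v := LinearMap.trace F g (A * ad F g (v : g))
  map_add' v w := by simp [mul_add]
  map_smul' c v := by simp

theorem exists_delta [FiniteDimensional F g] {m : ℕ} (b : Basis (Fin m) F g) :
    ∃ δ : MvPolynomial (Fin m) F, δ ≠ 0 ∧ ∀ s : Fin m → F, MvPolynomial.eval s δ ≠ 0 →
      finrank F (engel F (∑ j, s j • b j)) = LieAlgebra.rank F g := by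
  refine ⟨_, LieAlgebra.polyCharpoly_coeff_rank_ne_zero F g b, fun s hs => ?_⟩
  rw [← LieAlgebra.isRegular_iff_finrank_engel_eq_rank,
    LieAlgebra.isRegular_iff_coeff_polyCharpoly_rank_ne_zero F b]
  have : (b.repr (∑ j, s j • b j) : Fin m → F) = s := b.repr_sum_self s
  rw [this]
  exact hs

/-- Independent forms that kill the range bound the dimension of the kernel from below. -/
theorem le_ker {V : Type} [AddCommGroup V] [Module F V] [FiniteDimensional F V] {l : ℕ}
    (T : Module.End F V) (f : Fin l → Dual F V) (hf : LinearIndependent F f)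
    (h0 : ∀ i v, f i (T v) = 0) : l ≤ finrank F (LinearMap.ker T) := by
  have h1 : Submodule.span F (Set.range f) ≤ (LinearMap.range T).dualAnnihilator := by
    rw [Submodule.span_le]
    rintro _ ⟨i, rfl⟩
    rw [SetLike.mem_coe, Submodule.mem_dualAnnihilator]
    rintro _ ⟨v, rfl⟩
    exact h0 i v
  have h2 := Submodule.finrank_mono h1
  rw [finrank_span_eq_card hf, Fintype.card_fin] at h2
  have h3 := Subspace.finrank_add_finrank_dualAnnihilator_eq (LinearMap.range T)
  have h4 := LinearMap.finrank_range_add_finrank_ker T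
  omega

end FRP

open FRP in
theorem fr_ok (h1 : S_FRM) (h2 : S_GenH) : S_FR := by
  intro F g _ _ _ _ _ _ u hu x hx hreg
  classical
  set t := engel F x with ht
  let bt := Module.finBasis F t
  let bu := Module.finBasis F u
  let bg := Module.finBasis F g
  obtain ⟨h0, hh0, hP⟩ := h2 F g x hreg
  obtain ⟨δ, hδ, hδ'⟩ := exists_delta bu
  obtain ⟨s, hs, k, hk⟩ := h1 F _ _ _ (fun j => LinearMap.toMatrix bg bg (ad F g (bt j : g)))
    (fun j => LinearMap.toMatrix bg bg (ad F g (bu j : g))) δ hδ (fun τ => by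
      obtain ⟨a, ha, hz⟩ := hu (∑ j, τ j • (bt j : g))
      refine ⟨bu.repr ⟨_, hz⟩, fun k => ?_⟩
      rw [mat_sum, mat_sum, tr_pow, tr_pow, sum_repr]
      exact tr_aut ha _ k) (by
      refine ⟨bt.repr ⟨h0, hh0⟩, fun v hv => ?_⟩
      have hw : (∑ j, v j • bt j : t) = 0 := by
        have := hreg.cartan
        rw [← Submodule.mem_bot F,
          ← IsKilling.ker_restrict_eq_bot_of_isCartanSubalgebra F g (engel F x), LinearMap.mem_ker]
        ext w
        obtain ⟨P, e⟩ := hP (ad F g (w : g)) 0
          (fun y hy => by rw [ad_apply, hreg _ w.2 _ hy, zero_smul])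
          (fun y hy z => by rw [ad_apply, ad_apply, leibniz_lie, hreg _ w.2 _ hy, zero_lie, zero_add])
        change killingForm F g ((∑ j, v j • bt j : t) : g) (w : g) = 0
        rw [LieModule.traceForm_comm, killingForm_apply_apply, e, ← Module.End.mul_eq_comp,
          Polynomial.aeval_eq_sum_range, Finset.sum_mul, map_sum]
        refine Finset.sum_eq_zero fun i _ => ?_
        have := hv i
        rw [mat_sum, mat_sum, tr_pow_mul, sum_repr, coe_sum] at this
        rw [smul_mul_assoc, map_smul, this, smul_zero]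
      funext j
      exact Fintype.linearIndependent_iff.1 bt.linearIndependent v hw j)
  let y : u := ∑ j, s j • bu j
  let f : Fin (finrank F t) → Dual F u := fun i => form u (ad F g (y : g) ^ k i)
  have hf : LinearIndependent F f := by
    let ev : Dual F u →ₗ[F] (Fin (finrank F u) → F) := LinearMap.pi fun j => Dual.eval F u (bu j)
    refine LinearIndependent.of_comp ev ?_
    convert hk using 1
    funext i j
    rw [mat_sum, tr_pow_mul, coe_sum]
    rfl
  have h3 := le_ker (ad F u y) f hf fun i v => tr_comm (y : g) (v : g) (k i)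
  have h4 : finrank F (LinearMap.ker (ad F u y)) ≤ finrank F (engel F y) :=
    Submodule.finrank_mono (s := LinearMap.ker (ad F u y)) (t := (engel F y).toSubmodule)
      fun v hv => (mem_engel_iff F y v).2 ⟨1, by rw [pow_one]; exact hv⟩
  have h5 : finrank F (engel F y) = _ := hδ' s hs
  have h6 := LieAlgebra.rank_le_finrank_engel F (⟨x, hx⟩ : u)
  have h7 : (engel F (⟨x, hx⟩ : u)).toSubmodule.map u.toSubmodule.subtype ≤ t.toSubmodule := by
    rintro _ ⟨v, hv, rfl⟩
    obtain ⟨n, hn⟩ := (mem_engel_iff F (⟨x, hx⟩ : u) v).1 hv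
    refine (mem_engel_iff F x _).2 ⟨n, ?_⟩
    have := congrArg Subtype.val hn
    rwa [LieSubalgebra.coe_ad_pow] at this
  have h8 : (engel F (⟨x, hx⟩ : u)).toSubmodule.map u.toSubmodule.subtype = t.toSubmodule := by
    refine Submodule.eq_of_le_of_finrank_le h7 ?_
    rw [Submodule.finrank_map_subtype_eq]
    exact h3.trans (h4.trans (h5.le.trans h6))
  intro v hv
  obtain ⟨w, -, rfl⟩ := (h8.ge hv : v ∈ _)
  exact w.2

end Pool.Agent.P.MP_169bcc_al.BR
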