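import Pool.Agent.P.MP_169bcc_al.BR.Base

/-!
Package Small.
-/

open scoped commutatorElement TensorProduct
open LieAlgebra LieSubalgebra Module

noncomputable section

namespace Pool.Agent.P.MP_169bcc_al.BR

namespace SmallP

variable {A : Type} [Group A] [Finite A]

/-- Counting the elements covered by the conjugates. -/
lemma count (H U : Subgroup A) (hc : Cov H U) :
    Nat.card H - 1 ≤ (Subgroup.normalizer (U : Set A)).index * (Nat.card U - 1) := by
  classical
  set N := Subgroup.normalizer (U : Set A) with hN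
  have key : ∀ h : {h : H // h ≠ 1}, ∃ q : A ⧸ N, ∃ u : {u : U // u ≠ 1},
      (h.1 : A) = q.out * u.1 * q.out⁻¹ := by
    rintro ⟨h, h1⟩
    obtain ⟨a, ha⟩ := hc h h.2
    obtain ⟨n, hn⟩ := QuotientGroup.mk_out_eq_mul N a⁻¹
    have hm : (n : A)⁻¹ * (a * h * a⁻¹) * n ∈ U := (Subgroup.mem_normalizer_iff''.1 n.2 _).1 ha
    refine ⟨(a⁻¹ : A), ⟨⟨_, hm⟩, fun h0 => h1 ?_⟩, ?_⟩
    · have h2 : (n : A)⁻¹ * (a * h * a⁻¹) * n = 1 := congrArg Subtype.val h0
      apply Subtype.ext
      calc (h : A) = a⁻¹ * n * ((n : A)⁻¹ * (a * h * a⁻¹) * n) * (n : A)⁻¹ * a := by group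
        _ = 1 := by rw [h2]; group
    · rw [hn]
      group
  choose q u hqu using key
  have hinj : Function.Injective fun h => (q h, u h) := by
    intro h h' e
    have e1 : q h = q h' := congrArg Prod.fst e
    have e2 : u h = u h' := congrArg Prod.snd e
    apply Subtype.ext
    apply Subtype.ext
    rw [hqu h, hqu h', e1, e2]
  have hle := Nat.card_le_card_of_injective _ hinj
  have c1 : ∀ K : Subgroup A, Nat.card {u : K // u ≠ 1} = Nat.card K - 1 := by
    intro K
    have := Fintype.ofFinite K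
    simp [Nat.card_eq_fintype_card]
  rwa [Nat.card_prod, c1, c1] at hle

end SmallP

theorem small_ok : S_Small := by
  intro p A _ _ H U hp hH hP hi hU hc
  have := Fact.mk hp
  by_contra hne
  set N := Subgroup.normalizer (U : Set A) with hN
  have : Group.IsNilpotent H := hP.isNilpotent
  have hlt : U.subgroupOf H < ⊤ := by
    refine lt_top_iff_ne_top.2 fun h => hne (le_antisymm hU ?_)
    exact Subgroup.subgroupOf_eq_top.1 h
  obtain ⟨x, hx1, hx2⟩ :=
    SetLike.exists_of_lt (Group.normalizerCondition_of_isNilpotent (G := H) _ hlt)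
  have hxN : (x : A) ∈ N := by
    rw [hN, Subgroup.mem_normalizer_iff]
    intro y
    constructor
    · intro hy
      exact (Subgroup.mem_normalizer_iff.1 hx1 ⟨y, hU hy⟩).1 hy
    · intro hy
      have hyH : y ∈ H := by
        have : (x : A)⁻¹ * (x * y * (x : A)⁻¹) * x ∈ H :=
          H.mul_mem (H.mul_mem (H.inv_mem x.2) (hU hy)) x.2
        simpa [mul_assoc] using this
      exact (Subgroup.mem_normalizer_iff.1 hx1 ⟨y, hyH⟩).2 hy
  have hUK : U ≤ N ⊓ H := le_inf Subgroup.le_normalizer hU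
  have hK : IsPGroup p ↥(N ⊓ H) := hP.to_le inf_le_right
  obtain ⟨n, hn⟩ := hK.index (U.subgroupOf (N ⊓ H))
  have hn' : U.relIndex (N ⊓ H) = p ^ n := hn
  have hn0 : n ≠ 0 := by
    rintro rfl
    rw [pow_zero, Subgroup.relIndex_eq_one] at hn'
    exact hx2 (hn' ⟨hxN, x.2⟩)
  have h1 : p ≤ U.relIndex (N ⊓ H) := hn' ▸ Nat.le_self_pow hn0 p
  have h2 := Subgroup.relIndex_mul_relIndex U (N ⊓ H) H hUK inf_le_right
  have h3 := Subgroup.relIndex_mul_index (inf_le_right : N ⊓ H ≤ H)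
  have h4 : N.index ≤ (N ⊓ H).index := Subgroup.index_antitone inf_le_left
  have h5 : N.index ≤ U.relIndex H := by
    calc N.index ≤ (N ⊓ H).relIndex H * H.index := h3 ▸ h4
      _ ≤ (N ⊓ H).relIndex H * U.relIndex (N ⊓ H) := Nat.mul_le_mul_left _ (hi.trans h1)
      _ = U.relIndex H := by rw [mul_comm, h2]
  have h6 : Nat.card U * U.relIndex H = Nat.card H := by
    rw [← Nat.card_congr (Subgroup.subgroupOfEquivOfLe hU).toEquiv]
    exact Subgroup.card_mul_index (U.subgroupOf H)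
  have h7 := (SmallP.count H U hc).trans (Nat.mul_le_mul_right _ h5)
  have h8 : U.relIndex H ≠ 1 := fun h => hne (le_antisymm hU (Subgroup.relIndex_eq_one.1 h))
  have h9 : 0 < Nat.card U := Nat.card_pos
  have h10 : 0 < Nat.card H := Nat.card_pos
  obtain ⟨c, hc'⟩ : ∃ c, Nat.card U = c + 1 := ⟨_, (Nat.succ_pred_eq_of_pos h9).symm⟩
  rw [hc'] at h6 h7
  rw [← h6] at h7 h10
  generalize U.relIndex H = m at *
  have e : (c + 1) * m = m * c + m := by ring
  rw [e] at h7 h10
  rw [Nat.add_sub_cancel] at h7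
  have : m ≠ 0 := by
    rintro rfl
    simp at h10
  omega

theorem dec_ok : S_Dec := by
  intro p r A _ _ H hp hr hpr hH hP hi
  have := Fact.mk hp
  have := Fact.mk hr
  have hd : r ∣ Nat.card A := hi ▸ H.index_dvd_card
  obtain ⟨σ, hσ⟩ := exists_prime_orderOf_dvd_card' r hd
  have hσH : σ ∉ H := by
    intro h
    obtain ⟨k, hk⟩ := IsPGroup.iff_orderOf.1 hP ⟨σ, h⟩
    rw [← Subgroup.orderOf_coe] at hk
    have h1 : r = p ^ k := hσ.symm.trans hk
    have h2 : r ∣ p := hr.dvd_of_dvd_pow (dvd_of_eq h1)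
    exact hpr ((Nat.prime_dvd_prime_iff_eq hr hp).1 h2).symm
  refine ⟨σ, hH, hσ ▸ pow_orderOf_eq_one σ, fun a => ?_⟩
  have hcard : Nat.card (A ⧸ H) = r := hi
  have hne : (σ : A ⧸ H) ≠ 1 := fun h => hσH ((QuotientGroup.eq_one_iff σ).1 h)
  have htop := zpowers_eq_top_of_prime_card hcard hne
  have hmem : (a : A ⧸ H) ∈ Subgroup.zpowers (σ : A ⧸ H) := htop ▸ Subgroup.mem_top _
  obtain ⟨k, hk⟩ := (mem_powers_iff_mem_zpowers.2 hmem)
  refine ⟨k, (QuotientGroup.eq_one_iff _).1 ?_⟩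
  have hk' : (σ : A ⧸ H) ^ k = a := hk
  rw [QuotientGroup.mk_mul, QuotientGroup.mk_inv, QuotientGroup.mk_pow, hk', mul_inv_cancel]

end Pool.Agent.P.MP_169bcc_al.BR
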