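import Pool.Agent.P.MP_169bcc_al.BR.Defs

/-!
Covering subgroups of nilpotent groups of bounded rank: statements of the steps.
-/

open scoped commutatorElement TensorProduct
open LieAlgebra LieSubalgebra Module

noncomputable section

namespace Pool.Agent.P.MP_169bcc_al.BR

/-! ### Groups -/

def S_Small : Prop := ∀ (p : ℕ) (A : Type) [Group A] [Finite A] (H U : Subgroup A), p.Prime →
  H.Normal → IsPGroup p H → H.index ≤ p → U ≤ H → Cov H U → U = H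

def S_Dec : Prop := ∀ (p r : ℕ) (A : Type) [Group A] [Finite A] (H : Subgroup A), p.Prime →
  r.Prime → p ≠ r → H.Normal → IsPGroup p H → H.index = r → ∃ σ, Dec r H σ

def S_PE1 : Prop := ∀ p d : ℕ, p.Prime → ∃ B : ℕ, ∀ (H : Type) [Group H] [Finite H],
  IsPGroup p H → RankLe (⊤ : Subgroup H) d → ∃ V : Subgroup H, V.Characteristic ∧ V.index ≤ B ∧
    ∀ N K : Subgroup H, N.Normal → K.Normal → N ≤ V → (∀ x ∈ N, x ^ p ^ 2 ∈ K) →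
      ∀ x ∈ N, ∀ v ∈ V, ⁅x, v⁆ ∈ K

def S_PE : Prop := ∀ p d : ℕ, p.Prime → ∃ c : ℕ → ℕ, ∀ (A : Type) [Group A] [Finite A]
  (H : Subgroup A), H.Normal → IsPGroup p H → RankLe H d → ∃ P : ℕ → Subgroup A, Filt p P ∧
    P 0 ≤ H ∧ (∃ n, P n = ⊥) ∧ ∀ j, (P j).relIndex H ≤ c j

def S_CalcA : Prop := ∀ (p : ℕ) (A : Type) [Group A] (P : ℕ → Subgroup A), Filt p P → CalcA p P

def S_CalcW : Prop := ∀ (p N : ℕ) (A : Type) [Group A] (P : ℕ → Subgroup A) (U : Subgroup A),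
  Filt p P → CalcA p P → Win p N P U → CalcW p N P U

def S_CalcB : Prop := ∀ (p : ℕ) (A : Type) [Group A] (P : ℕ → Subgroup A), Filt p P →
  CalcA p P → CalcB p P

def S_Mu : Prop := ∀ (p : ℕ) (A : Type) [Group A] [Finite A] (P : ℕ → Subgroup A)
  (U : Subgroup A), Filt p P → (∃ μ : ℕ → ℕ, μ 0 ≤ 2 * (P 1).relIndex (P 0) ∧
    (∀ j, μ (j + 1) ≤ μ j) ∧ ∀ j, μ (j + 1) = μ j → Inj p P j ∧ Uon p P U j) ∧
    ∀ j n, Full P U j → P n = ⊥ → P j ≤ U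

def S_RelA : Prop := ∀ (p i : ℕ) (A : Type) [Group A] (P : ℕ → Subgroup A) (U : Subgroup A),
  Filt p P → CalcA p P → CalcB p P → CalcW p (4 * i) P U → RelA p i P U

def S_RelB : Prop := ∀ (p i : ℕ) (A : Type) [Group A] (P : ℕ → Subgroup A) (U : Subgroup A),
  1 ≤ i → Filt p P → CalcA p P → CalcB p P → CalcW p (4 * i) P U → RelB p i P U

def S_LW : Prop := ∀ (p : ℕ) [Fact p.Prime] (i : ℕ) (A : Type) [Group A] (P : ℕ → Subgroup A)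
  (U : Subgroup A), Filt p P → CalcA p P → RelA p i P U → Nonempty (LW p i A P)

def S_WD : Prop := ∀ (p : ℕ) [Fact p.Prime] (i B : ℕ) (A : Type) [Group A] [Finite A]
  (H U : Subgroup A) (P : ℕ → Subgroup A), IsPGroup p H → Cov H U → Filt p P → CalcA p P →
  P 0 ≤ H → (P 1).index ≤ B → ¬ Full P U 0 → RelA p i P U → RelB p i P U → LW p i A P →
  Nonempty (WD p i B A H)

def S_Lim : Prop := ∀ (p : ℕ) [Fact p.Prime] (r B : ℕ), r.Prime → 5 ≤ r → p ≠ r → ∃ i, 1 ≤ i ∧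
  ∀ (A : Type) [Group A] (H : Subgroup A) (σ : A), Dec r H σ → IsEmpty (WD p i B A H)

def S_W : Prop := ∀ p r B : ℕ, p.Prime → r.Prime → 5 ≤ r → p ≠ r → ∃ N, ∀ (A : Type) [Group A]
  [Finite A] (H U : Subgroup A) (P : ℕ → Subgroup A), H.Normal → IsPGroup p H → H.index = r →
  Cov H U → Filt p P → P 0 ≤ H → (P 1).index ≤ B → Win p N P U → Full P U 0

/-- The theorem for `p`-groups. -/
def S_P : Prop := ∀ p r d : ℕ, p.Prime → r.Prime → 5 ≤ r → p ≠ r → ∃ b, ∀ (A : Type) [Group A]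
  [Finite A] (H U : Subgroup A), H.Normal → IsPGroup p H → H.index = r → RankLe H d →
  Cov H U → U.relIndex H ≤ b

/-- The theorem. -/
def S_Main : Prop := ∀ r d : ℕ, r.Prime → r ≠ 3 → ∃ b, ∀ (A : Type) [Group A] [Finite A]
  (H U : Subgroup A), H.Normal → Group.IsNilpotent H → H.index = r → RankLe H d → U ≤ H →
  Cov H U → U.relIndex H ≤ b

/-! ### Lattices -/

def S_LieZ : Prop := ∀ (p : ℕ) [Fact p.Prime] (r : ℕ) (L : Type) [LieRing L] [LieAlgebra ℤ_[p] L]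
  [Module.Finite ℤ_[p] L] (G : Type) [Group G] (H : Subgroup G) (σ : G)
  (ρ : G →* Module.End ℤ_[p] L) (M : LieSubalgebra ℤ_[p] L) (T : Finset G), r.Prime → 5 ≤ r →
  p ≠ r → Dec r H σ → (∀ a (x y : L), ρ a ⁅x, y⁆ = ⁅ρ a x, ρ a y⁆) → (∀ x, ∃ a, ρ a x ∈ M) →
  (∀ h ∈ H, ∀ m : ℕ, ∃ N : ℕ, ∀ x, ∃ v, ρ (h ^ p ^ N) x = x + p ^ m • v) →
  (∀ a, ∃ t ∈ T, ∃ X : L, (∀ y, ∃ v, ρ (t⁻¹ * a) y = y + p ^ 2 • v) ∧ ∀ j y, ∃ v,
    ρ ((t⁻¹ * a) ^ p ^ j) y = y + p ^ j • ⁅X, y⁆ + p ^ (2 * j) • v) →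
  ∃ k : ℕ, ∀ x : L, p ^ k • x ∈ M

def S_Nak : Prop := ∀ (p : ℕ) [Fact p.Prime] (V : Type) [AddCommGroup V] [Module ℚ_[p] V]
  [Module ℤ_[p] V] [IsScalarTower ℤ_[p] ℚ_[p] V] (Λ : Submodule ℤ_[p] V)
  (T D : Module.End ℚ_[p] V) (W : Submodule ℚ_[p] V), Lat p Λ →
  (∀ v ∈ Λ, ∃ w ∈ Λ, T v = v + p ^ 2 • w) →
  (∀ j : ℕ, ∀ v ∈ Λ, ∃ w ∈ Λ, (T ^ p ^ j) v = v + p ^ j • D v + p ^ (2 * j) • w) →
  (∀ v ∈ W, D v ∈ W) → ∀ v ∈ W, T v ∈ W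

def S_Chief : Prop := ∀ (p : ℕ) [Fact p.Prime] (V : Type) [AddCommGroup V] [Module ℚ_[p] V]
  [Module ℤ_[p] V] [IsScalarTower ℤ_[p] ℚ_[p] V] (G : Type) [Group G] (H : Subgroup G) (σ : G)
  (ρ : G →* Module.End ℚ_[p] V) (Λ : Submodule ℤ_[p] V) (W : Submodule ℚ_[p] V)
  (E : Set (Module.End ℚ_[p] V)) (k : ℕ) (ε : Fin k → Module.End ℚ_[p] V), Act p H ρ Λ →
  (∀ e ∈ E, ∀ v ∈ Λ, e v ∈ Λ) → (∀ e ∈ E, ∀ a v, ρ a v ∈ W → ρ a (e v) ∈ W) →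
  (∀ e ∈ E, ∀ h ∈ H, e * ρ h = ρ h * e) → (∀ i, ε i ∈ E) →
  (∀ i j, i ≠ j → ∃ δ ∈ E, δ * (ε i - ε j) = 1) →
  (∀ v, ∃ i < k, ∃ h ∈ H, ρ (σ ^ i * h) v ∈ W) → W = ⊤

def S_PG : Prop := ∀ (p : ℕ) [Fact p.Prime] (V : Type) [AddCommGroup V] [Module ℚ_[p] V]
  [Module ℤ_[p] V] [IsScalarTower ℤ_[p] ℚ_[p] V] [FiniteDimensional ℚ_[p] V] (G : Type) [Group G]
  (H : Subgroup G) (ρ : G →* Module.End ℚ_[p] V) (Λ : Submodule ℤ_[p] V), Act p H ρ Λ → ∀ h ∈ H,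
  (∀ S : Submodule ℚ_[p] V, (Set.range fun n : ℕ => S.map (ρ (h ^ n))).Finite →
    ∃ N : ℕ, S.map (ρ (h ^ p ^ N)) = S) ∧
  ∀ c : Module.End ℚ_[p] V, (Set.range fun n : ℕ => ρ (h ^ n) * c * ρ (h ^ n)⁻¹).Finite →
    ∃ N : ℕ, ρ (h ^ p ^ N) * c = c * ρ (h ^ p ^ N)

def S_Orb : Prop := ∀ (p r : ℕ) (G : Type) [Group G] (H : Subgroup G) (σ : G) (J : Type)
  [Finite J] [MulAction G J], p.Prime → r.Prime → p ≠ r → Dec r H σ →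
  (∀ h ∈ H, ∀ j : J, ∃ N : ℕ, h ^ p ^ N • j = j) →
  ∀ j : J, (∀ a : G, a • j = j → a ∈ H) ∨ ∃ a : G, σ • a • j = a • j

def S_Eps : Prop := ∀ (p : ℕ) [Fact p.Prime] (r : ℕ) (K : Type) [Field K] [Algebra ℚ_[p] K]
  [Algebra ℤ_[p] K] [IsScalarTower ℤ_[p] ℚ_[p] K] [FiniteDimensional ℚ_[p] K]
  (τ : K ≃ₐ[ℚ_[p]] K) (E : Subfield K), r.Prime → p ≠ r → τ ^ r = 1 → (∀ x ∈ E, τ x ∈ E) →
  (∃ x ∈ E, τ x ≠ x) → ∃ ε : Fin r → K, (∀ i, ε i ∈ E ∧ IsIntegral ℤ_[p] (ε i)) ∧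
    ∀ i j, i ≠ j → ε i ≠ ε j ∧ IsIntegral ℤ_[p] (ε i - ε j)⁻¹

def S_Lat : Prop := ∀ (p : ℕ) [Fact p.Prime] (V : Type) [AddCommGroup V] [Module ℚ_[p] V]
  [Module ℤ_[p] V] [IsScalarTower ℤ_[p] ℚ_[p] V] (G : Type) [Group G] (H : Subgroup G)
  (ρ : G →* Module.End ℚ_[p] V) (Λ : Submodule ℤ_[p] V) (K : Type) [Field K] [Algebra ℚ_[p] K]
  [Algebra ℤ_[p] K] [IsScalarTower ℤ_[p] ℚ_[p] K] (ι : K →ₐ[ℚ_[p]] Module.End ℚ_[p] V)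
  (φ : G →* (K ≃ₐ[ℚ_[p]] K)) (S : Set K), Act p H ρ Λ → (∀ a c, ρ a * ι c = ι (φ a c) * ρ a) →
  S.Finite → (∀ c ∈ S, IsIntegral ℤ_[p] c) → (∀ a, ∀ c ∈ S, φ a c ∈ S) →
  ∃ Λ' : Submodule ℤ_[p] V, Act p H ρ Λ' ∧ ∀ c ∈ S, ∀ v ∈ Λ', ι c v ∈ Λ'

/-- A field of endomorphisms normalised by the group: either `σ` centralises it, or no proper
subspace that is stable under the field covers. -/
def S_Field : Prop := ∀ (p : ℕ) [Fact p.Prime] (r : ℕ) (V : Type) [AddCommGroup V]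
  [Module ℚ_[p] V] [Module ℤ_[p] V] [IsScalarTower ℤ_[p] ℚ_[p] V] [FiniteDimensional ℚ_[p] V]
  (G : Type) [Group G] (H : Subgroup G) (σ : G) (ρ : G →* Module.End ℚ_[p] V)
  (Λ : Submodule ℤ_[p] V) (K : Type) [Field K] [Algebra ℚ_[p] K] [FiniteDimensional ℚ_[p] K]
  (ι : K →ₐ[ℚ_[p]] Module.End ℚ_[p] V) (φ : G →* (K ≃ₐ[ℚ_[p]] K)) (W : Submodule ℚ_[p] V),
  r.Prime → p ≠ r → Dec r H σ → Act p H ρ Λ → (∀ a c, ρ a * ι c = ι (φ a c) * ρ a) →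
  (∀ c, ∀ v ∈ W, ι c v ∈ W) → (∀ v, ∃ a, ρ a v ∈ W) → W = ⊤ ∨ ∀ c, ρ σ * ι c = ι c * ρ σ

/-! ### Lie algebras over a field of characteristic zero -/

def S_Jac : Prop := ∀ (F : Type) [Field F] [CharZero F] (τ ι : Type) [Fintype τ] [Fintype ι]
  [DecidableEq ι] (c : ι → MvPolynomial τ F), AlgebraicIndependent F c ↔
    ∃ l : ι → τ, (Matrix.of fun i j => MvPolynomial.pderiv (l j) (c i)).det ≠ 0

def S_FRM : Prop := ∀ (F : Type) [Field F] [CharZero F] (n l m : ℕ)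
  (M : Fin l → Matrix (Fin n) (Fin n) F) (N : Fin m → Matrix (Fin n) (Fin n) F)
  (δ : MvPolynomial (Fin m) F), δ ≠ 0 →
  (∀ τ : Fin l → F, ∃ s : Fin m → F, ∀ k : ℕ,
    ((∑ j, τ j • M j) ^ k).trace = ((∑ j, s j • N j) ^ k).trace) →
  (∃ h : Fin l → F, ∀ v : Fin l → F,
    (∀ k : ℕ, ((∑ j, h j • M j) ^ k * ∑ j, v j • M j).trace = 0) → v = 0) →
  ∃ s : Fin m → F, MvPolynomial.eval s δ ≠ 0 ∧ ∃ k : Fin l → ℕ,
    LinearIndependent F fun (i : Fin l) (j : Fin m) => ((∑ j', s j' • N j') ^ k i * N j).trace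

def S_GenH : Prop := ∀ (F g : Type) [Field F] [CharZero F] [LieRing g] [LieAlgebra F g]
  [FiniteDimensional F g] [IsKilling F g] (x : g), Reg F x → ∃ h ∈ engel F x,
  ∀ (φ : Module.End F g) (c : F), (∀ v ∈ engel F x, φ v = c • v) →
    (∀ v ∈ engel F x, ∀ z, φ ⁅v, z⁆ = ⁅v, φ z⁆) →
    ∃ P : Polynomial F, φ = Polynomial.aeval (ad F g h) P

def S_FR : Prop := ∀ (F g : Type) [Field F] [CharZero F] [LieRing g] [LieAlgebra F g]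
  [FiniteDimensional F g] [IsKilling F g] (u : LieSubalgebra F g), CovA u → ∀ x ∈ u, Reg F x →
  engel F x ≤ u

def S_Cen : Prop := ∀ (F g : Type) [Field F] [CharZero F] [LieRing g] [LieAlgebra F g]
  [FiniteDimensional F g] [IsKilling F g] (u : LieSubalgebra F g), CovA u →
  ∀ c : Module.End F g, Cen c → ∀ v ∈ u, c v ∈ u

def S_Kac2 : Prop := ∀ (k c M : Type) [Field k] [IsAlgClosed k] [CharZero k] [LieRing c]
  [LieAlgebra k c] [FiniteDimensional k c] [AddCommGroup M] [Module k M] [LieRingModule c M]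
  [LieModule k c M] [FiniteDimensional k M] (τ : Module.End k c) (r : ℕ), r.Prime → IsAut τ →
  τ ^ r = 1 → (∀ a b, LieModule.traceForm k c M (τ a) (τ b) = LieModule.traceForm k c M a b) →
  LinearMap.ker (LieModule.traceForm k c M) = ⊥ →
  (∀ y ∈ LieModule.lowerCentralSeries k c c 1, τ y = y → y = 0) → IsLieAbelian c

def S_Kac : Prop := ∀ (k g : Type) [Field k] [IsAlgClosed k] [CharZero k] [LieRing g]
  [LieAlgebra k g] [FiniteDimensional k g] [IsKilling k g] (σ : Module.End k g) (r : ℕ) (x : g),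
  r.Prime → IsAut σ → σ ^ r = 1 → σ x = x →
  (∀ y, σ y = y → finrank k (engel k x) ≤ finrank k (engel k y)) → Reg k x

def S_Graph : Prop := ∀ (C : Type) [Fintype C] (B : C → C → ℝ) (π : Equiv.Perm C) (r : ℕ),
  r.Prime → 5 ≤ r → π ^ r = 1 → (∀ i j, B i j = B j i) →
  (∀ c : C → ℝ, c ≠ 0 → 0 < ∑ i, ∑ j, c i * c j * B i j) → (∀ i j, i ≠ j → B i j ≤ 0) →
  (∀ i j, B i j ≠ 0 → B i i * B j j ≤ 4 * B i j ^ 2) → (∀ i j, B (π i) (π j) = B i j) →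
  (∀ i, Relation.ReflTransGen (fun a b => B a b ≠ 0) i (π i)) → π = 1

def S_Root : Prop := ∀ (k ι M N : Type) [Field k] [CharZero k] [Finite ι] [AddCommGroup M]
  [Module k M] [AddCommGroup N] [Module k N] (P : RootPairing ι k M N) [P.IsRootSystem]
  [P.IsCrystallographic] [P.IsReduced] (s : M ≃ₗ[k] M) (π : Equiv.Perm ι) (f : M →+ ℚ) (r : ℕ),
  r.Prime → 5 ≤ r → π ^ r = 1 → (∀ i, s (P.root i) = P.root (π i)) → (∀ i, f (P.root i) ≠ 0) →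
  (∀ i, f (P.root (π i)) = f (P.root i)) →
  (∀ q ∈ P.invtRootSubmodule, ∀ i, P.root i ∈ q → P.root (π i) ∈ q) → π = 1

def S_Diag : Prop := ∀ (k g : Type) [Field k] [IsAlgClosed k] [CharZero k] [LieRing g]
  [LieAlgebra k g] [FiniteDimensional k g] [IsKilling k g] (σ : Module.End k g) (r : ℕ) (x : g),
  r.Prime → 5 ≤ r → IsAut σ → σ ^ r = 1 → σ x = x → Reg k x →
  (∀ I : LieIdeal k g, ∀ v ∈ I, σ v ∈ I) → ∀ v ∈ engel k x, σ v = v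

def S_Inner : Prop := ∀ (F g : Type) [Field F] [CharZero F] [LieRing g] [LieAlgebra F g]
  [FiniteDimensional F g] [IsKilling F g] (σ : Module.End F g) (r : ℕ), r.Prime → 5 ≤ r →
  IsAut σ → σ ^ r = 1 → (∀ c : Module.End F g, Cen c → σ * c = c * σ) →
  ∃ x, Reg F x ∧ ∀ v ∈ engel F x, σ v = v

/-- The centroid of a simple Lie algebra is a field. -/
def S_Cent : Prop := ∀ (F g : Type) [Field F] [LieRing g] [LieAlgebra F g]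
  [FiniteDimensional F g] [IsSimple F g] (G : Type) [Group G] (ρ : G →* Module.End F g),
  (∀ a (x y : g), ρ a ⁅x, y⁆ = ⁅ρ a x, ρ a y⁆) →
  ∃ (K : Type) (_ : Field K) (_ : Algebra F K) (_ : FiniteDimensional F K)
    (ι : K →ₐ[F] Module.End F g) (φ : G →* (K ≃ₐ[F] K)),
    (∀ a c, ρ a * ι c = ι (φ a c) * ρ a) ∧ ∀ e : Module.End F g, Cen e ↔ ∃ c, ι c = e

/-! ### The covering theorem for Lie algebras -/

/-- The standing hypotheses. -/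
structure Hyp (p : ℕ) [Fact p.Prime] (r : ℕ) {g : Type} [LieRing g] [LieAlgebra ℚ_[p] g]
    [Module ℤ_[p] g] {G : Type} [Group G] (H : Subgroup G) (σ : G)
    (ρ : G →* Module.End ℚ_[p] g) (Λ : Submodule ℤ_[p] g) (u : LieSubalgebra ℚ_[p] g) : Prop where
  prime : r.Prime
  five : 5 ≤ r
  ne : p ≠ r
  dec : Dec r H σ
  act : Act p H ρ Λ
  lie : ∀ a (x y : g), ρ a ⁅x, y⁆ = ⁅ρ a x, ρ a y⁆
  cov : ∀ z, ∃ a, ρ a z ∈ u

def S_Simple : Prop := ∀ (p : ℕ) [Fact p.Prime] (r : ℕ) (g : Type) [LieRing g]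
  [LieAlgebra ℚ_[p] g] [Module ℤ_[p] g] [IsScalarTower ℤ_[p] ℚ_[p] g] [FiniteDimensional ℚ_[p] g]
  [IsSimple ℚ_[p] g] (G : Type) [Group G] (H : Subgroup G) (σ : G)
  (ρ : G →* Module.End ℚ_[p] g) (Λ : Submodule ℤ_[p] g) (u : LieSubalgebra ℚ_[p] g),
  Hyp p r H σ ρ Λ u → u = ⊤

/-- An ideal that is covered by its stabiliser. -/
def S_Ideal : Prop := ∀ (p : ℕ) [Fact p.Prime] (r : ℕ) (g : Type) [LieRing g]
  [LieAlgebra ℚ_[p] g] [Module ℤ_[p] g] [IsScalarTower ℤ_[p] ℚ_[p] g] [FiniteDimensional ℚ_[p] g]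
  [IsKilling ℚ_[p] g] (G : Type) [Group G] (H : Subgroup G) (σ : G)
  (ρ : G →* Module.End ℚ_[p] g) (Λ : Submodule ℤ_[p] g) (u : LieSubalgebra ℚ_[p] g)
  (I : LieIdeal ℚ_[p] g) (S : Subgroup G), Hyp p r H σ ρ Λ u → IsAtom I →
  (∀ a ∈ S, ∀ v ∈ I, ρ a v ∈ I) → (∀ z ∈ I, ∃ a ∈ S, ρ a z ∈ u) → (S ≤ H ∨ σ ∈ S) →
  ∀ z ∈ I, z ∈ u

def S_SS : Prop := ∀ (p : ℕ) [Fact p.Prime] (r : ℕ) (g : Type) [LieRing g]
  [LieAlgebra ℚ_[p] g] [Module ℤ_[p] g] [IsScalarTower ℤ_[p] ℚ_[p] g] [FiniteDimensional ℚ_[p] g]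
  [IsKilling ℚ_[p] g] (G : Type) [Group G] (H : Subgroup G) (σ : G)
  (ρ : G →* Module.End ℚ_[p] g) (Λ : Submodule ℤ_[p] g) (u : LieSubalgebra ℚ_[p] g),
  Hyp p r H σ ρ Λ u → u = ⊤

def S_Lie : Prop := ∀ (p : ℕ) [Fact p.Prime] (r : ℕ) (g : Type) [LieRing g]
  [LieAlgebra ℚ_[p] g] [Module ℤ_[p] g] [IsScalarTower ℤ_[p] ℚ_[p] g] [FiniteDimensional ℚ_[p] g]
  (G : Type) [Group G] (H : Subgroup G) (σ : G) (ρ : G →* Module.End ℚ_[p] g)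
  (Λ : Submodule ℤ_[p] g) (u : LieSubalgebra ℚ_[p] g) (T : Finset G), Hyp p r H σ ρ Λ u →
  (∀ a, ∃ t ∈ T, ∀ I : LieIdeal ℚ_[p] g, ∀ v ∈ I, ρ (t⁻¹ * a) v ∈ I) → u = ⊤

end Pool.Agent.P.MP_169bcc_al.BR
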